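import Mathlib

set_option autoImplicit false
set_option linter.unusedSectionVars false
set_option linter.unusedSimpArgs false

/-!
Structured stack programs with calls to `FinTM2` subroutines, and their compilation to a single
`FinTM2`.
-/

namespace Pool.Agent.PolyTime

open Turing Function

/-! ### Reachability in exactly `n` steps -/

/-- `Steps f n a b`: `b` is reached from `a` in exactly `n` steps of `f`. -/
inductive Steps {α : Type} (f : α → Option α) : ℕ → α → α → Prop
  | refl (a : α) : Steps f 0 a a
  | head {n : ℕ} {a b c : α} : f a = some b → Steps f n b c → Steps f (n + 1) a c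

theorem Steps.single {α : Type} {f : α → Option α} {a b : α} (h : f a = some b) :
    Steps f 1 a b := Steps.head h (Steps.refl b)

theorem Steps.trans {α : Type} {f : α → Option α} {m n : ℕ} {a b c : α}
    (h1 : Steps f m a b) (h2 : Steps f n b c) : Steps f (m + n) a c := by
  induction h1 with
  | refl a => simpa using h2
  | @head k x y z hx _ ih =>
    have := Steps.head hx (ih h2)
    rwa [show k + n + 1 = k + 1 + n by omega] at this

theorem steps_iff {α : Type} {f : α → Option α} {n : ℕ} {a b : α} :
    Steps f n a b ↔ (flip bind f)^[n] (some a) = some b := by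
  have hnone : ∀ k : ℕ, (flip bind f)^[k] (none : Option α) = none := by
    intro k
    induction k with
    | zero => rfl
    | succ k ih =>
      rw [iterate_succ_apply]
      exact ih
  constructor
  · intro h
    induction h with
    | refl a => rfl
    | @head k x y z hx _ ih =>
      rw [iterate_succ_apply]
      have : flip bind f (some x) = some y := hx
      rw [this]
      exact ih
  · intro h
    induction n generalizing a with
    | zero =>
      simp only [iterate_zero, id_eq, Option.some.injEq] at h
      subst h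
      exact Steps.refl _
    | succ k ih =>
      rw [iterate_succ_apply] at h
      have h1 : flip bind f (some a) = f a := rfl
      rw [h1] at h
      cases hf : f a with
      | none =>
        rw [hf, hnone] at h
        cases h
      | some y =>
        rw [hf] at h
        exact Steps.head hf (ih h)

/-- Convert to the Mathlib notion. -/
def Steps.toEvals {α : Type} {f : α → Option α} {n m : ℕ} {a b : α}
    (h : Steps f n a b) (hn : n ≤ m) : StateTransition.EvalsToInTime f a (some b) m where
  steps := n
  evals_in_steps := steps_iff.1 h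
  steps_le_m := hn

theorem Steps.ofEvals {α : Type} {f : α → Option α} {m : ℕ} {a b : α}
    (h : StateTransition.EvalsToInTime f a (some b) m) : ∃ n ≤ m, Steps f n a b :=
  ⟨h.steps, h.steps_le_m, steps_iff.2 h.evals_in_steps⟩

theorem initList_eq (tm : FinTM2) (s : List (tm.Γ tm.k₀)) :
    initList tm s = ⟨some tm.main, tm.initialState, update (fun _ => []) tm.k₀ s⟩ := by
  unfold initList
  congr 1
  funext k
  by_cases h : k = tm.k₀
  · subst h
    simp
  · simp [h]

theorem haltList_eq (tm : FinTM2) (s : List (tm.Γ tm.k₁)) :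
    haltList tm s = ⟨none, tm.initialState, update (fun _ => []) tm.k₁ s⟩ := by
  unfold haltList
  congr 1
  funext k
  by_cases h : k = tm.k₁
  · subst h
    simp
  · simp [h]

/-! ### Structured programs -/

section

variable {ι : Type} (tm : ι → FinTM2) {K : Type} (Γ : K → Type) (Q : Type)

/-- Structured stack programs. -/
inductive Cmd : Type
  | skip : Cmd
  | pop (k : K) (f : Q → Option (Γ k) → Q) : Cmd
  | push (k : K) (f : Q → Γ k) : Cmd
  | load (f : Q → Q) : Cmd
  | seq (a b : Cmd) : Cmd
  | ite (p : Q → Bool) (a b : Cmd) : Cmd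
  | loop (p : Q → Bool) (a : Cmd) : Cmd
  | call (i : ι) (kin kout : K) (fin : Γ kin → (tm i).Γ (tm i).k₀)
      (fout : (tm i).Γ (tm i).k₁ → Γ kout) : Cmd

variable {tm Γ Q}
variable [DecidableEq K]

/-- Big-step semantics with running time. -/
inductive Run : Cmd tm Γ Q → ℕ → Q → (∀ k, List (Γ k)) → Q → (∀ k, List (Γ k)) → Prop
  | skip (q : Q) (S : ∀ k, List (Γ k)) : Run .skip 1 q S q S
  | pop (k : K) (f : Q → Option (Γ k) → Q) (q : Q) (S : ∀ k, List (Γ k)) :
      Run (.pop k f) 1 q S (f q (S k).head?) (update S k (S k).tail)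
  | push (k : K) (f : Q → Γ k) (q : Q) (S : ∀ k, List (Γ k)) :
      Run (.push k f) 1 q S q (update S k (f q :: S k))
  | load (f : Q → Q) (q : Q) (S : ∀ k, List (Γ k)) : Run (.load f) 1 q S (f q) S
  | seq {a b : Cmd tm Γ Q} {m n : ℕ} {q q' q'' : Q} {S S' S'' : ∀ k, List (Γ k)} :
      Run a m q S q' S' → Run b n q' S' q'' S'' → Run (.seq a b) (m + n) q S q'' S''
  | ite_true {p : Q → Bool} {a b : Cmd tm Γ Q} {n : ℕ} {q q' : Q} {S S' : ∀ k, List (Γ k)} :
      p q = true → Run a n q S q' S' → Run (.ite p a b) (n + 1) q S q' S'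
  | ite_false {p : Q → Bool} {a b : Cmd tm Γ Q} {n : ℕ} {q q' : Q} {S S' : ∀ k, List (Γ k)} :
      p q = false → Run b n q S q' S' → Run (.ite p a b) (n + 1) q S q' S'
  | loop_false {p : Q → Bool} {a : Cmd tm Γ Q} {q : Q} {S : ∀ k, List (Γ k)} :
      p q = false → Run (.loop p a) 1 q S q S
  | loop_true {p : Q → Bool} {a : Cmd tm Γ Q} {m n : ℕ} {q q' q'' : Q}
      {S S' S'' : ∀ k, List (Γ k)} :
      p q = true → Run a m q S q' S' → Run (.loop p a) n q' S' q'' S'' →
      Run (.loop p a) (m + n + 1) q S q'' S''
  | call {i : ι} {kin kout : K} {fin : Γ kin → (tm i).Γ (tm i).k₀}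
      {fout : (tm i).Γ (tm i).k₁ → Γ kout} {n : ℕ} {q : Q} {S : ∀ k, List (Γ k)}
      {out : List ((tm i).Γ (tm i).k₁)} :
      Steps (tm i).step n (initList (tm i) ((S kin).map fin).reverse)
        (haltList (tm i) out) →
      Run (.call i kin kout fin fout) (n + (S kin).length + out.length + 2) q S q
        (update (update S kin []) kout ((out.map fout).reverse ++ (update S kin []) kout))

end

/-! ### Compilation -/

section

variable {ι : Type} [DecidableEq ι] (tm : ι → FinTM2) {K : Type} [DecidableEq K]
  (Γ : K → Type) [∀ k, Inhabited (Γ k)] (Q : Type)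

/-- stacks of the compiled machine -/
abbrev GK (K : Type) : Type := K ⊕ (Σ i : ι, (tm i).K)

/-- stack alphabets of the compiled machine -/
abbrev GΓ : GK tm K → Type := fun k => match k with
  | .inl k => Γ k
  | .inr x => (tm x.1).Γ x.2

/-- internal states of the compiled machine -/
abbrev Gσ : Type := Q × (∀ i, (tm i).σ) × (∀ k, Option (Γ k))

variable {tm Γ Q}

/-- assemble a stack family -/
def mkS (S : ∀ k, List (Γ k)) (T : ∀ i, ∀ k : (tm i).K, List ((tm i).Γ k)) :
    ∀ k : GK tm K, List (GΓ tm Γ k) := fun k => match k with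
  | .inl k => S k
  | .inr x => T x.1 x.2

theorem mkS_update_inl (S : ∀ k, List (Γ k)) (T : ∀ i, ∀ k : (tm i).K, List ((tm i).Γ k))
    (k : K) (l : List (Γ k)) :
    update (mkS S T) (.inl k) l = mkS (update S k l) T := by
  funext x
  cases x with
  | inl k' =>
    by_cases h : k' = k
    · subst h
      simp [mkS]
    · simp [mkS, h]
  | inr y => simp [mkS]

theorem mkS_update_inr (S : ∀ k, List (Γ k)) (T : ∀ i, ∀ k : (tm i).K, List ((tm i).Γ k))
    (i : ι) (k : (tm i).K) (l : List ((tm i).Γ k)) :
    update (mkS S T) (.inr ⟨i, k⟩) l = mkS S (update T i (update (T i) k l)) := by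
  funext x
  cases x with
  | inl k' => simp [mkS]
  | inr y =>
    obtain ⟨i', k'⟩ := y
    by_cases h : i' = i
    · subst h
      by_cases h2 : k' = k
      · subst h2
        simp [mkS]
      · have : (Sum.inr ⟨i', k'⟩ : GK tm K) ≠ Sum.inr ⟨i', k⟩ := by
          intro e
          apply h2
          simpa using e
        rw [update_of_ne this]
        simp [mkS, h2]
    · have : (Sum.inr ⟨i', k'⟩ : GK tm K) ≠ Sum.inr ⟨i, k⟩ := by
        intro e
        apply h
        simp only [Sum.inr.injEq, Sigma.mk.injEq] at e
        exact e.1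
      rw [update_of_ne this]
      simp [mkS, h]

/-- Translate a statement of the subroutine `i`. -/
def tr {L : Type} (i : ι) (e : (tm i).Λ → L) (x : L) :
    TM2.Stmt (tm i).Γ (tm i).Λ (tm i).σ → TM2.Stmt (GΓ tm Γ) L (Gσ tm Γ Q)
  | .push k f q => .push (.inr ⟨i, k⟩) (fun v => f (v.2.1 i)) (tr i e x q)
  | .peek k f q => .peek (.inr ⟨i, k⟩) (fun v s => (v.1, update v.2.1 i (f (v.2.1 i) s), v.2.2))
      (tr i e x q)
  | .pop k f q => .pop (.inr ⟨i, k⟩) (fun v s => (v.1, update v.2.1 i (f (v.2.1 i) s), v.2.2))
      (tr i e x q)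
  | .load a q => .load (fun v => (v.1, update v.2.1 i (a (v.2.1 i)), v.2.2)) (tr i e x q)
  | .branch f q₁ q₂ => .branch (fun v => f (v.2.1 i)) (tr i e x q₁) (tr i e x q₂)
  | .goto l => .goto (fun v => e (l (v.2.1 i)))
  | .halt => .goto (fun _ => x)

theorem tr_stepAux {L : Type} (i : ι) (e : (tm i).Λ → L) (x : L)
    (s : TM2.Stmt (tm i).Γ (tm i).Λ (tm i).σ) (q : Q) (r : ∀ k, Option (Γ k))
    (vs : ∀ i, (tm i).σ) (S : ∀ k, List (Γ k))
    (T : ∀ i, ∀ k : (tm i).K, List ((tm i).Γ k)) :
    TM2.stepAux (tr i e x s) (q, vs, r) (mkS S T) =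
      ⟨some (((TM2.stepAux s (vs i) (T i)).l).elim x e),
        (q, update vs i (TM2.stepAux s (vs i) (T i)).var, r),
        mkS S (update T i (TM2.stepAux s (vs i) (T i)).stk)⟩ := by
  induction s generalizing vs T with
  | push k f s ih =>
    simp only [tr, TM2.stepAux]
    rw [mkS_update_inr, ih]
    simp [mkS]
  | peek k f s ih =>
    simp only [tr, TM2.stepAux]
    rw [ih]
    simp [mkS]
  | pop k f s ih =>
    simp only [tr, TM2.stepAux]
    rw [mkS_update_inr, ih]
    simp [mkS]
  | load a s ih =>
    simp only [tr, TM2.stepAux]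
    rw [ih]
    simp
  | branch f s₁ s₂ ih₁ ih₂ =>
    simp only [tr, TM2.stepAux]
    cases h : f (vs i)
    · simp only [cond_false]
      rw [ih₂]
    · simp only [cond_true]
      rw [ih₁]
  | goto l => simp [tr, TM2.stepAux]
  | halt => simp [tr, TM2.stepAux]

/-- Labels of the compiled program. -/
def Lab : Cmd tm Γ Q → Type
  | .skip => Unit
  | .pop _ _ => Unit
  | .push _ _ => Unit
  | .load _ => Unit
  | .seq a b => Lab a ⊕ Lab b
  | .ite _ a b => Unit ⊕ (Lab a ⊕ Lab b)
  | .loop _ a => Unit ⊕ Lab a
  | .call i _ _ _ _ => (tm i).Λ ⊕ Bool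

/-- The labels are finite. -/
@[instance_reducible]
def labFintype : (c : Cmd tm Γ Q) → Fintype (Lab c)
  | .skip => inferInstanceAs (Fintype Unit)
  | .pop _ _ => inferInstanceAs (Fintype Unit)
  | .push _ _ => inferInstanceAs (Fintype Unit)
  | .load _ => inferInstanceAs (Fintype Unit)
  | .seq a b =>
    letI := labFintype a
    letI := labFintype b
    inferInstanceAs (Fintype (Lab a ⊕ Lab b))
  | .ite _ a b =>
    letI := labFintype a
    letI := labFintype b
    inferInstanceAs (Fintype (Unit ⊕ (Lab a ⊕ Lab b)))
  | .loop _ a =>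
    letI := labFintype a
    inferInstanceAs (Fintype (Unit ⊕ Lab a))
  | .call i _ _ _ _ =>
    letI := (tm i).ΛFin
    inferInstanceAs (Fintype ((tm i).Λ ⊕ Bool))

/-- The entry label. -/
def start : (c : Cmd tm Γ Q) → Lab c
  | .skip => ()
  | .pop _ _ => ()
  | .push _ _ => ()
  | .load _ => ()
  | .seq a _ => .inl (start a)
  | .ite _ _ _ => .inl ()
  | .loop _ _ => .inl ()
  | .call _ _ _ _ _ => .inr false

/-- The code of the compiled program. -/
def code {L : Type} : (c : Cmd tm Γ Q) → (e : Lab c → L) → (x : L) → Lab c →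
    TM2.Stmt (GΓ tm Γ) L (Gσ tm Γ Q)
  | .skip, _, x, _ => .goto (fun _ => x)
  | .pop k f, _, x, _ => .pop (.inl k) (fun v s => (f v.1 s, v.2)) (.goto (fun _ => x))
  | .push k f, _, x, _ => .push (.inl k) (fun v => f v.1) (.goto (fun _ => x))
  | .load f, _, x, _ => .load (fun v => (f v.1, v.2)) (.goto (fun _ => x))
  | .seq a b, e, _, .inl l => code a (e ∘ Sum.inl) (e (.inr (start b))) l
  | .seq _ b, e, x, .inr l => code b (e ∘ Sum.inr) x l
  | .ite p a b, e, _, .inl _ => .branch (fun v => p v.1) (.goto (fun _ => e (.inr (.inl (start a)))))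
      (.goto (fun _ => e (.inr (.inr (start b)))))
  | .ite _ a _, e, x, .inr (.inl l) => code a (e ∘ Sum.inr ∘ Sum.inl) x l
  | .ite _ _ b, e, x, .inr (.inr l) => code b (e ∘ Sum.inr ∘ Sum.inr) x l
  | .loop p a, e, x, .inl _ => .branch (fun v => p v.1) (.goto (fun _ => e (.inr (start a))))
      (.goto (fun _ => x))
  | .loop _ a, e, _, .inr l => code a (e ∘ Sum.inr) (e (.inl ())) l
  | .call i kin _ fin _, e, _, .inr false =>
      .pop (.inl kin) (fun v s => (v.1, v.2.1, update v.2.2 kin s))
        (.branch (fun v => (v.2.2 kin).isSome)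
          (.push (.inr ⟨i, (tm i).k₀⟩) (fun v => fin ((v.2.2 kin).getD default))
            (.goto (fun _ => e (.inr false))))
          (.goto (fun _ => e (.inl (tm i).main))))
  | .call i _ _ _ _, e, _, .inl l => tr i (e ∘ Sum.inl) (e (.inr true)) ((tm i).m l)
  | .call i _ kout _ fout, e, x, .inr true =>
      .pop (.inr ⟨i, (tm i).k₁⟩) (fun v s => (v.1, v.2.1, update v.2.2 kout (s.map fout)))
        (.branch (fun v => (v.2.2 kout).isSome)
          (.push (.inl kout) (fun v => (v.2.2 kout).getD default)
            (.goto (fun _ => e (.inr true))))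
          (.goto (fun _ => x)))

/-- rest value of the subroutine states -/
def v0 (tm : ι → FinTM2) : ∀ i, (tm i).σ := fun i => (tm i).initialState

/-- empty subroutine stacks -/
def T0 (tm : ι → FinTM2) : ∀ i, ∀ k : (tm i).K, List ((tm i).Γ k) := fun _ _ => []

/-- A configuration at rest. -/
def cfg {L : Type} (l : L) (q : Q) (S : ∀ k, List (Γ k)) :
    TM2.Cfg (GΓ tm Γ) L (Gσ tm Γ Q) :=
  ⟨some l, (q, v0 tm, fun _ => none), mkS S (T0 tm)⟩

/-- The run of a subroutine inside the big machine. -/
theorem sub_run {L : Type} (M : L → TM2.Stmt (GΓ tm Γ) L (Gσ tm Γ Q)) (i : ι)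
    (e : (tm i).Λ → L) (x : L) (hM : ∀ l, M (e l) = tr i e x ((tm i).m l)) (q : Q)
    (r : ∀ k, Option (Γ k)) (vs : ∀ i, (tm i).σ) (S : ∀ k, List (Γ k))
    (T : ∀ i, ∀ k : (tm i).K, List ((tm i).Γ k)) {n : ℕ} {c d : (tm i).Cfg}
    (h : Steps (tm i).step n c d) (hd : d.l = none) :
    Steps (TM2.step M) n ⟨some (c.l.elim x e), (q, update vs i c.var, r),
        mkS S (update T i c.stk)⟩
      ⟨some x, (q, update vs i d.var, r), mkS S (update T i d.stk)⟩ := by
  induction h with
  | refl a =>
    rw [hd]
    exact Steps.refl _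
  | @head k a b c hab _ ih =>
    have ih := ih hd
    refine Steps.head ?_ ih
    obtain ⟨al, av, as⟩ := a
    cases al with
    | none => simp [TM2.step] at hab
    | some l =>
      have hab2 : TM2.stepAux ((tm i).m l) av as = b := Option.some.inj hab
      simp only [TM2.step, Option.elim_some, hM]
      rw [tr_stepAux]
      simp only [update_self, update_idem]
      rw [hab2]

/-- Loading loop. -/
theorem load_loop {L : Type} (M : L → TM2.Stmt (GΓ tm Γ) L (Gσ tm Γ Q)) (i : ι) (kin : K)
    (fin : Γ kin → (tm i).Γ (tm i).k₀) (lab x : L)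
    (hM : M lab = .pop (.inl kin) (fun v s => (v.1, v.2.1, update v.2.2 kin s))
        (.branch (fun v => (v.2.2 kin).isSome)
          (.push (.inr ⟨i, (tm i).k₀⟩) (fun v => fin ((v.2.2 kin).getD default))
            (.goto (fun _ => lab)))
          (.goto (fun _ => x)))) (q : Q)
    (vs : ∀ i, (tm i).σ) (S : ∀ k, List (Γ k)) (w : List (Γ kin)) (hw : S kin = w)
    (T : ∀ i, ∀ k : (tm i).K, List ((tm i).Γ k)) (u : List ((tm i).Γ (tm i).k₀))
    (r : ∀ k, Option (Γ k)) :
    Steps (TM2.step M) (w.length + 1)
      ⟨some lab, (q, vs, r), mkS S (update T i (update (T i) (tm i).k₀ u))⟩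
      ⟨some x, (q, vs, update r kin none), mkS (update S kin [])
        (update T i (update (T i) (tm i).k₀ ((w.map fin).reverse ++ u)))⟩ := by
  induction w generalizing S u r with
  | nil =>
    refine Steps.single ?_
    simp only [TM2.step, hM, TM2.stepAux, Option.some.injEq]
    rw [mkS_update_inl]
    simp [mkS, hw]
  | cons a w ih =>
    have ih := ih (update S kin w) (by simp) (fin a :: u) (update r kin (some a))
    simp only [update_idem] at ih
    refine Steps.head ?_ (by
      simpa using ih)
    simp only [TM2.step, hM, TM2.stepAux, Option.some.injEq]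
    rw [mkS_update_inl]
    simp only [mkS, hw, List.head?_cons, List.tail_cons, update_self, Option.isSome_some,
      cond_true, Option.getD_some]
    rw [mkS_update_inr]
    simp

/-- Unloading loop. -/
theorem unload_loop {L : Type} (M : L → TM2.Stmt (GΓ tm Γ) L (Gσ tm Γ Q)) (i : ι) (kout : K)
    (fout : (tm i).Γ (tm i).k₁ → Γ kout) (lab x : L)
    (hM : M lab = .pop (.inr ⟨i, (tm i).k₁⟩)
        (fun v s => (v.1, v.2.1, update v.2.2 kout (s.map fout)))
        (.branch (fun v => (v.2.2 kout).isSome)
          (.push (.inl kout) (fun v => (v.2.2 kout).getD default)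
            (.goto (fun _ => lab)))
          (.goto (fun _ => x)))) (q : Q)
    (vs : ∀ i, (tm i).σ) (S : ∀ k, List (Γ k)) (u : List (Γ kout))
    (T : ∀ i, ∀ k : (tm i).K, List ((tm i).Γ k)) (w : List ((tm i).Γ (tm i).k₁))
    (r : ∀ k, Option (Γ k)) :
    Steps (TM2.step M) (w.length + 1)
      ⟨some lab, (q, vs, r), mkS (update S kout u) (update T i (update (T i) (tm i).k₁ w))⟩
      ⟨some x, (q, vs, update r kout none), mkS (update S kout ((w.map fout).reverse ++ u))
        (update T i (update (T i) (tm i).k₁ []))⟩ := by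
  induction w generalizing u r with
  | nil =>
    refine Steps.single ?_
    simp only [TM2.step, hM, TM2.stepAux, Option.some.injEq]
    rw [mkS_update_inr]
    simp [mkS]
  | cons a w ih =>
    have ih := ih (fout a :: u) (update r kout (some (fout a)))
    simp only [update_idem] at ih
    refine Steps.head ?_ (by
      simpa using ih)
    simp only [TM2.step, hM, TM2.stepAux, Option.some.injEq]
    rw [mkS_update_inr]
    simp only [mkS, update_self, Option.isSome_some, List.head?_cons, List.tail_cons,
      cond_true, Option.getD_some, Option.map_some]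
    rw [mkS_update_inl]
    simp

theorem T0_upd (i : ι) : update (T0 tm) i (update (T0 tm i) (tm i).k₀ []) = T0 tm := by
  funext j
  by_cases h : j = i
  · subst h
    funext k
    by_cases h2 : k = (tm j).k₀
    · subst h2
      simp [T0]
    · simp [T0, h2]
  · simp [h]

theorem T0_upd1 (i : ι) : update (T0 tm) i (update (T0 tm i) (tm i).k₁ []) = T0 tm := by
  funext j
  by_cases h : j = i
  · subst h
    funext k
    by_cases h2 : k = (tm j).k₁
    · subst h2
      simp [T0]
    · simp [T0, h2]
  · simp [h]

/-- The compiled code simulates the structured program. -/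
theorem sim {L : Type} (M : L → TM2.Stmt (GΓ tm Γ) L (Gσ tm Γ Q)) {c : Cmd tm Γ Q} {n : ℕ}
    {q q' : Q} {S S' : ∀ k, List (Γ k)} (h : Run c n q S q' S') :
    ∀ (e : Lab c → L) (x : L), (∀ l, M (e l) = code c e x l) →
      Steps (TM2.step M) n (cfg (e (start c)) q S) (cfg x q' S') := by
  induction h with
  | skip q S =>
    intro e x hM
    refine Steps.single ?_
    simp [cfg, TM2.step, hM, code]
  | pop k f q S =>
    intro e x hM
    refine Steps.single ?_
    simp only [cfg, TM2.step, hM, code, TM2.stepAux]
    rw [mkS_update_inl]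
    simp [mkS]
  | push k f q S =>
    intro e x hM
    refine Steps.single ?_
    simp only [cfg, TM2.step, hM, code, TM2.stepAux]
    rw [mkS_update_inl]
    simp [mkS]
  | load f q S =>
    intro e x hM
    refine Steps.single ?_
    simp [cfg, TM2.step, hM, code]
  | @seq a b m n q q' q'' S S' S'' _ _ ih1 ih2 =>
    intro e x hM
    have h1 := ih1 (e ∘ Sum.inl) (e (.inr (start b))) (fun l => hM (.inl l))
    have h2 := ih2 (e ∘ Sum.inr) x (fun l => hM (.inr l))
    exact h1.trans h2
  | @ite_true p a b n q q' S S' hp _ ih =>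
    intro e x hM
    have h1 := ih (e ∘ Sum.inr ∘ Sum.inl) x (fun l => hM (.inr (.inl l)))
    refine Steps.head ?_ h1
    have h0 := hM (.inl ())
    simp only [cfg, TM2.step, start]
    rw [h0]
    simp only [code, TM2.stepAux, hp, cond_true, cond_false]
    rfl
  | @ite_false p a b n q q' S S' hp _ ih =>
    intro e x hM
    have h1 := ih (e ∘ Sum.inr ∘ Sum.inr) x (fun l => hM (.inr (.inr l)))
    refine Steps.head ?_ h1
    have h0 := hM (.inl ())
    simp only [cfg, TM2.step, start]
    rw [h0]
    simp only [code, TM2.stepAux, hp, cond_true, cond_false]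
    rfl
  | @loop_false p a q S hp =>
    intro e x hM
    refine Steps.single ?_
    have h0 := hM (.inl ())
    simp only [cfg, TM2.step, start]
    rw [h0]
    simp [code, hp]
  | @loop_true p a m n q q' q'' S S' S'' hp _ _ ih1 ih2 =>
    intro e x hM
    have h1 := ih1 (e ∘ Sum.inr) (e (.inl ())) (fun l => hM (.inr l))
    have h2 := ih2 e x hM
    refine Steps.head ?_ (h1.trans h2)
    have h0 := hM (.inl ())
    simp only [cfg, TM2.step, start]
    rw [h0]
    simp only [code, TM2.stepAux, hp, cond_true, cond_false]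
    rfl
  | @call i kin kout fin fout n q S out hr =>
    intro e x hM
    have h1 := load_loop M i kin fin (e (.inr false)) (e (.inl (tm i).main))
      (hM (.inr false)) q (v0 tm) S (S kin) rfl (T0 tm) [] (fun _ => none)
    have h2 := sub_run M i (e ∘ Sum.inl) (e (.inr true)) (fun l => hM (.inl l)) q
      (fun _ => none) (v0 tm) (update S kin []) (T0 tm) hr (by rw [haltList_eq])
    have h3 := unload_loop M i kout fout (e (.inr true)) x (hM (.inr true)) q (v0 tm)
      (update S kin []) ((update S kin []) kout) (T0 tm) out (fun _ => none)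
    rw [T0_upd] at h1
    rw [T0_upd1] at h3
    rw [initList_eq, haltList_eq] at h2
    have e1 : update (fun _ => none) kin none = (fun _ => none : ∀ k, Option (Γ k)) := by simp
    have e2 : update (fun _ => none) kout none = (fun _ => none : ∀ k, Option (Γ k)) := by simp
    have e3 : update (v0 tm) i (tm i).initialState = v0 tm := by simp [v0]
    rw [e1] at h1
    rw [e2, update_eq_self] at h3
    simp only [e3] at h2
    rw [List.append_nil] at h1
    have h4 := (h1.trans h2).trans h3
    have e4 : (S kin).length + 1 + n + (out.length + 1) = n + (S kin).length + out.length + 2 := by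
      omega
    rw [e4] at h4
    exact h4

/-- The compiled machine. -/
def machine [Fintype ι] [Fintype K] [∀ k, Fintype (Γ k)] [Fintype Q] (c : Cmd tm Γ Q)
    (kin kout : K) (q0 : Q) : FinTM2 where
  K := GK tm K
  k₀ := .inl kin
  k₁ := .inl kout
  Γ := GΓ tm Γ
  Λ := Option (Lab c)
  main := some (start c)
  ΛFin := letI := labFintype c; inferInstance
  σ := Gσ tm Γ Q
  initialState := (q0, v0 tm, fun _ => none)
  σFin :=
    letI : ∀ i, Fintype (tm i).σ := fun i => (tm i).σFin
    inferInstance
  kFin :=
    letI : ∀ i, Fintype (tm i).K := fun i => (tm i).kFin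
    inferInstance
  Γk₀Fin := inferInstanceAs (Fintype (Γ kin))
  m := fun l => match l with
    | none => .load (fun _ => (q0, v0 tm, fun _ => none)) .halt
    | some l => code c some none l

theorem mkS_single (k : K) (w : List (Γ k)) :
    (mkS (update (fun _ => []) k w) (T0 tm) : ∀ x : GK tm K, List (GΓ tm Γ x)) =
      (update (fun _ => []) (Sum.inl k : GK tm K) w : ∀ x : GK tm K, List (GΓ tm Γ x)) := by
  have := mkS_update_inl (tm := tm) (Γ := Γ) (fun _ : K => []) (T0 tm) k w
  rw [← this]
  congr 1
  funext x
  cases x <;> rfl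

/-- A function is computable in polynomial time (with respect to the given encodings) -/
def Poly {α β αΓ βΓ : Type} (ea : α → List αΓ) (eb : β → List βΓ) (f : α → β) : Prop :=
  Nonempty (TM2ComputableInPolyTime ea eb f)

theorem Poly.ofCmd [Fintype ι] [Fintype K] [∀ k, Fintype (Γ k)] [Fintype Q]
    {α β αΓ βΓ : Type} {ea : α → List αΓ} {eb : β → List βΓ} {f : α → β}
    (c : Cmd tm Γ Q) (kin kout : K) (q0 : Q) (ein : Γ kin ≃ αΓ) (eout : Γ kout ≃ βΓ)
    (time : Polynomial ℕ)
    (h : ∀ a, ∃ n q', n ≤ time.eval (ea a).length ∧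
      Run c n q0 (update (fun _ => []) kin ((ea a).map ein.symm)) q'
        (update (fun _ => []) kout ((eb (f a)).map eout.symm))) : Poly ea eb f := by
  choose n q' hn hr using h
  refine ⟨{ tm := machine c kin kout q0, inputAlphabet := ein, outputAlphabet := eout,
            time := time + 1, outputsFun := fun a => ?_ }⟩
  have h1 := sim (machine c kin kout q0).m (hr a) some none (fun l => rfl)
  have h2 : Steps (machine c kin kout q0).step (n a)
      (initList (machine c kin kout q0) ((ea a).map ein.invFun))
      (cfg none (q' a) (update (fun _ => []) kout ((eb (f a)).map eout.symm))) := by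
    rw [initList_eq]
    have e1 : (⟨some (machine c kin kout q0).main, (machine c kin kout q0).initialState,
        update (fun _ => []) (machine c kin kout q0).k₀ ((ea a).map ein.invFun)⟩ :
          (machine c kin kout q0).Cfg) =
        cfg (some (start c)) q0 (update (fun _ => []) kin ((ea a).map ein.symm)) := by
      unfold cfg
      rw [mkS_single]
      rfl
    rw [e1]
    exact h1
  have h3 : Steps (machine c kin kout q0).step 1
      (cfg none (q' a) (update (fun _ => []) kout ((eb (f a)).map eout.symm)))
      (haltList (machine c kin kout q0) ((eb (f a)).map eout.invFun)) := by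
    refine Steps.single ?_
    rw [haltList_eq]
    unfold cfg
    rw [mkS_single]
    rfl
  exact (h2.trans h3).toEvals (by
    rw [Polynomial.eval_add, Polynomial.eval_one]
    exact Nat.add_le_add_right (hn a) 1)

end

/-! ### Length of the output -/

section

/-- an upper bound for the number of pushes of a statement -/
def pushes {K : Type} {Γ : K → Type} {Λ σ : Type} : TM2.Stmt Γ Λ σ → ℕ
  | .push _ _ q => pushes q + 1
  | .peek _ _ q => pushes q
  | .pop _ _ q => pushes q
  | .load _ q => pushes q
  | .branch _ q₁ q₂ => pushes q₁ + pushes q₂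
  | .goto _ => 0
  | .halt => 0

theorem length_stepAux {K : Type} [DecidableEq K] {Γ : K → Type} {Λ σ : Type}
    (s : TM2.Stmt Γ Λ σ) (v : σ) (S : ∀ k, List (Γ k)) (k : K) :
    ((TM2.stepAux s v S).stk k).length ≤ (S k).length + pushes s := by
  induction s generalizing v S with
  | push k' f s ih =>
    simp only [TM2.stepAux, pushes]
    refine (ih _ _).trans ?_
    by_cases h : k = k'
    · subst h
      simp only [update_self, List.length_cons]
      omega
    · simp only [ne_eq, h, not_false_eq_true, update_of_ne]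
      omega
  | peek k' f s ih =>
    simp only [TM2.stepAux, pushes]
    exact ih _ _
  | pop k' f s ih =>
    simp only [TM2.stepAux, pushes]
    refine (ih _ _).trans ?_
    by_cases h : k = k'
    · subst h
      simp only [update_self, List.length_tail]
      omega
    · simp only [ne_eq, h, not_false_eq_true, update_of_ne]
      omega
  | load a s ih =>
    simp only [TM2.stepAux, pushes]
    exact ih _ _
  | branch f s₁ s₂ ih₁ ih₂ =>
    simp only [TM2.stepAux, pushes]
    cases f v
    · simp only [cond_false]
      have := ih₂ v S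
      omega
    · simp only [cond_true]
      have := ih₁ v S
      omega
  | goto l => simp [TM2.stepAux, pushes]
  | halt => simp [TM2.stepAux, pushes]

theorem length_steps (tm : FinTM2) (B : ℕ) (hB : ∀ l, pushes (tm.m l) ≤ B) {n : ℕ}
    {c d : tm.Cfg} (h : Steps tm.step n c d) (k : tm.K) :
    (d.stk k).length ≤ (c.stk k).length + n * B := by
  induction h with
  | refl a => simp
  | @head m a b c hab _ ih =>
    obtain ⟨al, av, as⟩ := a
    cases al with
    | none => simp [TM2.step] at hab
    | some l =>
      have hab2 : TM2.stepAux (tm.m l) av as = b := Option.some.inj hab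
      have h1 := length_stepAux (tm.m l) av as k
      rw [hab2] at h1
      have h2 := hB l
      have h3 : (m + 1) * B = m * B + B := by ring
      simp only at h1 ⊢
      omega

theorem Poly.length_bound {α β αΓ βΓ : Type} {ea : α → List αΓ} {eb : β → List βΓ} {f : α → β}
    (h : Poly ea eb f) : ∃ P : Polynomial ℕ, ∀ a, (eb (f a)).length ≤ P.eval (ea a).length := by
  obtain ⟨h⟩ := h
  let _ := h.tm.ΛFin
  refine ⟨Polynomial.X + h.time * Polynomial.C (∑ l, pushes (h.tm.m l)), fun a => ?_⟩
  obtain ⟨n, hn, hs⟩ := Steps.ofEvals (h.outputsFun a)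
  have h1 := length_steps h.tm (∑ l, pushes (h.tm.m l))
    (fun l => Finset.single_le_sum (f := fun l => pushes (h.tm.m l)) (fun _ _ => Nat.zero_le _)
      (Finset.mem_univ l)) hs h.tm.k₁
  rw [initList_eq, haltList_eq] at h1
  simp only [update_self, List.length_map] at h1
  have h2 : ((update (fun _ => []) h.tm.k₀ (List.map h.inputAlphabet.invFun (ea a)) :
      ∀ k, List (h.tm.Γ k)) h.tm.k₁).length ≤ (ea a).length := by
    by_cases hk : h.tm.k₁ = h.tm.k₀
    · rw [hk]
      simp
    · rw [update_of_ne hk]
      simp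
  simp only [Polynomial.eval_add, Polynomial.eval_X, Polynomial.eval_mul, Polynomial.eval_C]
  have h3 := Nat.mul_le_mul_right (∑ l, pushes (h.tm.m l)) hn
  omega

theorem eval_mono (P : Polynomial ℕ) {m n : ℕ} (h : m ≤ n) : P.eval m ≤ P.eval n := by
  induction P using Polynomial.induction_on' with
  | add p q hp hq =>
    simp only [Polynomial.eval_add]
    omega
  | monomial k a =>
    simp only [Polynomial.eval_monomial]
    exact Nat.mul_le_mul_left _ (Nat.pow_le_pow_left h k)

end

end Pool.Agent.PolyTime
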