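import Pool.Agent.PolyTime.Lists

set_option autoImplicit false
set_option linter.unusedSectionVars false
set_option linter.unusedSimpArgs false

/-!
Running a machine for a bounded number of steps: a machine that is only known to work in
polynomial time on some inputs can be replaced by one that works in polynomial time on all inputs.
-/

namespace Pool.Agent.PolyTime

open Turing Function

section clock

variable (tm : FinTM2) (din : Bool → tm.Γ tm.k₀)

/-- stacks of the clocked machine: `inr false` is the input, `inr true` the clock -/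
abbrev CK : Type := tm.K ⊕ Bool

/-- alphabets of the clocked machine -/
abbrev CΓ : CK tm → Type := fun k => match k with
  | .inl k => tm.Γ k
  | .inr _ => Bool

/-- labels of the clocked machine: `0`, `1` loading, `2` cleaning -/
abbrev CΛ : Type := tm.Λ ⊕ Fin 3

/-- states of the clocked machine -/
abbrev Cσ : Type := tm.σ × (Bool × Bool)

variable {tm}

/-- assemble stacks -/
def mkC (S : ∀ k, List (tm.Γ k)) (a b : List Bool) : ∀ k : CK tm, List (CΓ tm k) :=
  fun k => match k with
  | .inl k => S k
  | .inr false => a
  | .inr true => b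

theorem mkC_inl (S : ∀ k, List (tm.Γ k)) (a b : List Bool) (k : tm.K) (l : List (tm.Γ k)) :
    update (mkC S a b) (.inl k) l = mkC (update S k l) a b := by
  funext x
  rcases x with k' | b'
  · by_cases h : k' = k
    · subst h
      simp [mkC]
    · simp [mkC, h]
  · cases b' <;> simp [mkC]

theorem mkC_false (S : ∀ k, List (tm.Γ k)) (a b l : List Bool) :
    update (mkC S a b) (.inr false) l = mkC S l b := by
  funext x
  rcases x with k' | b'
  · simp [mkC]
  · cases b' <;> simp [mkC]

theorem mkC_true (S : ∀ k, List (tm.Γ k)) (a b l : List Bool) :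
    update (mkC S a b) (.inr true) l = mkC S a l := by
  funext x
  rcases x with k' | b'
  · simp [mkC]
  · cases b' <;> simp [mkC]

/-- translate a statement -/
def trC : TM2.Stmt tm.Γ tm.Λ tm.σ → TM2.Stmt (CΓ tm) (CΛ tm) (Cσ tm)
  | .push k f q => .push (.inl k) (fun v => f v.1) (trC q)
  | .peek k f q => .peek (.inl k) (fun v s => (f v.1 s, v.2)) (trC q)
  | .pop k f q => .pop (.inl k) (fun v s => (f v.1 s, v.2)) (trC q)
  | .load a q => .load (fun v => (a v.1, v.2)) (trC q)
  | .branch f q₁ q₂ => .branch (fun v => f v.1) (trC q₁) (trC q₂)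
  | .goto l => .goto (fun v => .inl (l v.1))
  | .halt => .goto (fun _ => .inr 2)

theorem trC_stepAux (s : TM2.Stmt tm.Γ tm.Λ tm.σ) (v : tm.σ) (r : Bool × Bool)
    (S : ∀ k, List (tm.Γ k)) (a b : List Bool) :
    TM2.stepAux (trC s) (v, r) (mkC S a b) =
      ⟨some ((TM2.stepAux s v S).l.elim (.inr 2) .inl), ((TM2.stepAux s v S).var, r),
        mkC (TM2.stepAux s v S).stk a b⟩ := by
  induction s generalizing v S with
  | push k f s ih =>
    simp only [trC, TM2.stepAux]
    rw [mkC_inl, ih]
    simp [mkC]
  | peek k f s ih =>
    simp only [trC, TM2.stepAux]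
    rw [ih]
    simp [mkC]
  | pop k f s ih =>
    simp only [trC, TM2.stepAux]
    rw [mkC_inl, ih]
    simp [mkC]
  | load a s ih =>
    simp only [trC, TM2.stepAux]
    rw [ih]
  | branch f s₁ s₂ ih₁ ih₂ =>
    simp only [trC, TM2.stepAux]
    cases h : f v
    · simp only [cond_false]
      rw [ih₂]
    · simp only [cond_true]
      rw [ih₁]
  | goto l => simp [trC, TM2.stepAux]
  | halt => simp [trC, TM2.stepAux]

/-- pop all stacks in the list -/
def cleanL (rest : TM2.Stmt (CΓ tm) (CΛ tm) (Cσ tm)) :
    List (CK tm) → TM2.Stmt (CΓ tm) (CΛ tm) (Cσ tm)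
  | [] => rest
  | k :: ks => .pop k (fun v s => (v.1, v.2.1 || s.isSome, v.2.2)) (cleanL rest ks)

/-- pop all stacks in the list -/
def popAll (T : ∀ k : CK tm, List (CΓ tm k)) : List (CK tm) → ∀ k : CK tm, List (CΓ tm k)
  | [] => T
  | k :: ks => popAll (update T k (T k).tail) ks

theorem popAll_spec (ks : List (CK tm)) (hks : ks.Nodup) : ∀ (T : ∀ k : CK tm, List (CΓ tm k))
    (k : CK tm), (k ∈ ks → popAll T ks k = (T k).tail) ∧ (k ∉ ks → popAll T ks k = T k) := by
  induction ks with
  | nil => intro T k; simp [popAll]
  | cons y ks ih =>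
    intro T k
    have hy : y ∉ ks := (List.nodup_cons.1 hks).1
    have ih := ih (List.nodup_cons.1 hks).2 (update T y (T y).tail)
    simp only [popAll]
    constructor
    · intro hk
      rcases List.mem_cons.1 hk with rfl | hk
      · rw [(ih k).2 hy, update_self]
      · have : k ≠ y := fun e => hy (e ▸ hk)
        rw [(ih k).1 hk, update_of_ne this]
    · intro hk
      rw [List.mem_cons, not_or] at hk
      rw [(ih k).2 hk.2, update_of_ne hk.1]

theorem cleanL_stepAux (rest : TM2.Stmt (CΓ tm) (CΛ tm) (Cσ tm)) (ks : List (CK tm))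
    (hks : ks.Nodup) (v : tm.σ) (fl x : Bool) (T : ∀ k : CK tm, List (CΓ tm k)) :
    TM2.stepAux (cleanL rest ks) (v, (fl, x)) T =
      TM2.stepAux rest (v, (fl || ks.any (fun k => (T k).head?.isSome), x)) (popAll T ks) := by
  induction ks generalizing fl T with
  | nil => simp [cleanL, popAll]
  | cons k ks ih =>
    simp only [cleanL, TM2.stepAux, popAll]
    rw [ih (List.nodup_cons.1 hks).2]
    have hk : k ∉ ks := (List.nodup_cons.1 hks).1
    congr 1
    simp only [List.any_cons, Prod.mk.injEq, and_true, true_and]
    rw [Bool.or_assoc]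
    congr 2
    rw [Bool.eq_iff_iff]
    simp only [List.any_eq_true]
    constructor
    · rintro ⟨y, hy, h⟩
      refine ⟨y, hy, ?_⟩
      have : y ≠ k := fun e => hk (e ▸ hy)
      rwa [update_of_ne this] at h
    · rintro ⟨y, hy, h⟩
      refine ⟨y, hy, ?_⟩
      have : y ≠ k := fun e => hk (e ▸ hy)
      rwa [update_of_ne this]

variable (tm)

/-- the stacks that have to be emptied -/
noncomputable def ksC : List (CK tm) :=
  letI := tm.kFin
  (Finset.univ.erase (Sum.inl tm.k₁ : CK tm)).toList

theorem ksC_nodup : (ksC tm).Nodup := Finset.nodup_toList _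

theorem mem_ksC (k : CK tm) : k ∈ ksC tm ↔ k ≠ .inl tm.k₁ := by
  simp [ksC]

/-- the final test of the cleaning phase -/
def restC : TM2.Stmt (CΓ tm) (CΛ tm) (Cσ tm) :=
  .branch (fun v => v.2.1) (.goto (fun _ => .inr 2))
    (.load (fun _ => (tm.initialState, (false, false))) .halt)

/-- the code of the clocked machine -/
noncomputable def clkm : CΛ tm → TM2.Stmt (CΓ tm) (CΛ tm) (Cσ tm)
  | .inl l => .pop (.inr true) (fun v s => (v.1, (s.isSome, false)))
        (.branch (fun v => v.2.1) (trC (tm.m l)) (.goto (fun _ => .inr 2)))
  | .inr 0 => .pop (.inr false) (fun v s => (v.1, (s.isSome, s.getD false)))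
        (.branch (fun v => v.2.2) (.push (.inr true) (fun _ => true) (.goto (fun _ => .inr 0)))
          (.goto (fun _ => .inr 1)))
  | .inr 1 => .pop (.inr false) (fun v s => (v.1, (s.isSome, s.getD false)))
        (.branch (fun v => v.2.1) (.push (.inl tm.k₀) (fun v => din v.2.2)
          (.goto (fun _ => .inr 1))) (.goto (fun _ => .inl tm.main)))
  | .inr 2 => .load (fun v => (v.1, (false, false))) (cleanL (restC tm) (ksC tm))

/-- the clocked machine -/
noncomputable def clk : FinTM2 where
  K := CK tm
  kFin :=
    letI := tm.kFin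
    inferInstance
  k₀ := .inr false
  k₁ := .inl tm.k₁
  Γ := CΓ tm
  Λ := CΛ tm
  main := .inr 0
  ΛFin :=
    letI := tm.ΛFin
    inferInstance
  σ := Cσ tm
  initialState := (tm.initialState, (false, false))
  σFin :=
    letI := tm.σFin
    inferInstance
  Γk₀Fin := inferInstanceAs (Fintype Bool)
  m := clkm tm din

variable {tm}

/-- configurations -/
abbrev CC (tm : FinTM2) : Type := TM2.Cfg (CΓ tm) (CΛ tm) (Cσ tm)

theorem clean_run (m : ℕ) : ∀ (v : Cσ tm) (T : ∀ k : CK tm, List (CΓ tm k)),
    (∀ k, k ≠ .inl tm.k₁ → (T k).length ≤ m) →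
    ∃ n ≤ m + 1, Steps (TM2.step (clkm tm din)) n (⟨some (.inr 2), v, T⟩ : CC tm)
      ⟨none, (tm.initialState, (false, false)),
        update (fun _ => []) (Sum.inl tm.k₁ : CK tm) (T (.inl tm.k₁))⟩ := by
  have step : ∀ (v : Cσ tm) (T : ∀ k : CK tm, List (CΓ tm k)),
      TM2.step (clkm tm din) (⟨some (.inr 2), v, T⟩ : CC tm) =
        some (TM2.stepAux (restC tm)
          (v.1, ((ksC tm).any (fun k => (T k).head?.isSome), false)) (popAll T (ksC tm))) := by
    intro v T
    simp only [TM2.step, clkm, TM2.stepAux]
    rw [cleanL_stepAux _ _ (ksC_nodup tm), Bool.false_or]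
  have done : ∀ (v : Cσ tm) (T : ∀ k : CK tm, List (CΓ tm k)),
      ((ksC tm).any (fun k => (T k).head?.isSome)) = false →
      TM2.step (clkm tm din) (⟨some (.inr 2), v, T⟩ : CC tm) =
        some ⟨none, (tm.initialState, (false, false)),
        update (fun _ => []) (Sum.inl tm.k₁ : CK tm) (T (.inl tm.k₁))⟩ := by
    intro v T h
    rw [step, h]
    have e : popAll T (ksC tm) =
        (update (fun _ => []) (Sum.inl tm.k₁ : CK tm) (T (.inl tm.k₁)) :
          ∀ k : CK tm, List (CΓ tm k)) := by
      funext k
      by_cases hk : k = .inl tm.k₁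
      · subst hk
        rw [(popAll_spec (ksC tm) (ksC_nodup tm) T _).2 (by simp [mem_ksC]), update_self]
      · have hm : k ∈ ksC tm := (mem_ksC tm k).2 hk
        rw [update_of_ne hk, (popAll_spec (ksC tm) (ksC_nodup tm) T _).1 hm]
        simp only [List.any_eq_false] at h
        have := h k hm
        cases hT : T k with
        | nil => rfl
        | cons x l => rw [hT] at this; simp at this
    rw [e]
    simp only [restC, TM2.stepAux, cond_false]
  induction m with
  | zero =>
    intro v T hT
    refine ⟨1, le_rfl, Steps.single (done v T ?_)⟩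
    rw [List.any_eq_false]
    intro k hk
    have := hT k ((mem_ksC tm k).1 hk)
    have h0 : T k = [] := List.eq_nil_of_length_eq_zero (by omega)
    simp [h0]
  | succ m ih =>
    intro v T hT
    by_cases h : ((ksC tm).any (fun k => (T k).head?.isSome)) = false
    · exact ⟨1, by omega, Steps.single (done v T h)⟩
    · rw [Bool.not_eq_false] at h
      obtain ⟨n, hn, hs⟩ := ih (v.1, (true, false)) (popAll T (ksC tm)) (by
          intro k hk
          have h1 := hT k hk
          rw [(popAll_spec (ksC tm) (ksC_nodup tm) T k).1 ((mem_ksC tm k).2 hk),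
            List.length_tail]
          omega)
      have h2 : Sum.inl tm.k₁ ∉ ksC tm := by simp [mem_ksC]
      rw [(popAll_spec (ksC tm) (ksC_nodup tm) T _).2 h2] at hs
      refine ⟨n + 1, by omega, Steps.head ?_ hs⟩
      rw [step, h]
      simp only [restC, TM2.stepAux, cond_true]

/-- run for at most `N` steps -/
def runN (tm : FinTM2) : ℕ → tm.Cfg → tm.Cfg
  | 0, c => c
  | N + 1, c => match tm.step c with
    | none => c
    | some c' => runN tm N c'

theorem runN_halt (N : ℕ) (c : tm.Cfg) (h : c.l = none) : runN tm N c = c := by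
  cases N with
  | zero => rfl
  | succ N =>
    obtain ⟨l, v, S⟩ := c
    simp only at h
    subst h
    rfl

theorem runN_of_steps {m : ℕ} {c d : tm.Cfg} (h : Steps tm.step m c d) (hd : d.l = none) :
    ∀ N, m ≤ N → runN tm N c = d := by
  induction h with
  | refl a => intro N _; exact runN_halt N _ hd
  | @head k a b c hab _ ih =>
    intro N hN
    cases N with
    | zero => omega
    | succ N =>
      simp only [runN, hab]
      exact ih hd N (by omega)

theorem runN_steps (N : ℕ) (c : tm.Cfg) : ∃ m ≤ N, Steps tm.step m c (runN tm N c) := by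
  induction N generalizing c with
  | zero => exact ⟨0, le_rfl, Steps.refl _⟩
  | succ N ih =>
    cases h : tm.step c with
    | none =>
      refine ⟨0, by omega, ?_⟩
      simp only [runN, h]
      exact Steps.refl _
    | some c' =>
      obtain ⟨m, hm, hs⟩ := ih c'
      refine ⟨m + 1, by omega, ?_⟩
      simp only [runN, h]
      exact Steps.head h hs

theorem sim_clk (N : ℕ) : ∀ (c : tm.Cfg) (r : Bool × Bool),
    ∃ n ≤ N + 1, ∃ (v : Cσ tm) (b : List Bool), b.length ≤ N ∧
      Steps (TM2.step (clkm tm din)) n
        (⟨some (c.l.elim (.inr 2) .inl), (c.var, r), mkC c.stk [] (List.replicate N true)⟩ : CC tm)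
        ⟨some (.inr 2), v, mkC (runN tm N c).stk [] b⟩ := by
  induction N with
  | zero =>
    intro c r
    obtain ⟨l, v, S⟩ := c
    cases l with
    | none => exact ⟨0, by omega, (v, r), [], by simp, Steps.refl _⟩
    | some l =>
      refine ⟨1, by omega, (v, (false, false)), [], by simp, Steps.single ?_⟩
      simp only [Option.elim_some, List.replicate_zero, runN, TM2.step, clkm, TM2.stepAux]
      rw [mkC_true]
      simp [mkC]
  | succ N ih =>
    intro c r
    obtain ⟨l, v, S⟩ := c
    cases l with
    | none =>
      refine ⟨0, by omega, (v, r), List.replicate (N + 1) true, by simp, ?_⟩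
      exact Steps.refl _
    | some l =>
      have hstep : tm.step ⟨some l, v, S⟩ = some (TM2.stepAux (tm.m l) v S) := rfl
      obtain ⟨n, hn, v', b, hb, hs⟩ := ih (TM2.stepAux (tm.m l) v S) (true, false)
      refine ⟨n + 1, by omega, v', b, by omega, ?_⟩
      have hr : runN tm (N + 1) ⟨some l, v, S⟩ = runN tm N (TM2.stepAux (tm.m l) v S) := by
        simp only [runN, hstep]
      rw [hr]
      refine Steps.head ?_ hs
      simp only [Option.elim_some, TM2.step, clkm, TM2.stepAux]
      rw [mkC_true]
      simp only [mkC, List.replicate_succ, List.head?_cons, List.tail_cons, Option.isSome_some,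
        cond_true]
      have e := trC_stepAux (tm.m l) v (true, false) S [] (List.replicate N true)
      exact congrArg some e

theorem load1 (N : ℕ) (v : tm.σ) (r : Bool × Bool) (S : ∀ k, List (tm.Γ k)) (u b : List Bool) :
    ∃ r', Steps (TM2.step (clkm tm din)) (N + 1)
      (⟨some (.inr 0), (v, r), mkC S (List.replicate N true ++ false :: u) b⟩ : CC tm)
      ⟨some (.inr 1), (v, r'), mkC S u (List.replicate N true ++ b)⟩ := by
  induction N generalizing r b with
  | zero =>
    refine ⟨(true, false), Steps.single ?_⟩
    simp only [TM2.step, clkm, TM2.stepAux]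
    rw [mkC_false]
    simp [mkC]
  | succ N ih =>
    obtain ⟨r', hs⟩ := ih (true, true) (true :: b)
    refine ⟨r', ?_⟩
    have e : List.replicate N true ++ true :: b = List.replicate (N + 1) true ++ b := by
      rw [List.replicate_succ', List.append_assoc]
      rfl
    rw [e] at hs
    refine Steps.head ?_ hs
    simp only [TM2.step, clkm, TM2.stepAux]
    rw [mkC_false]
    simp only [mkC, List.replicate_succ, List.cons_append, List.head?_cons, Option.isSome_some,
      Option.getD_some, List.tail_cons, cond_true]
    have e2 := mkC_true S (List.replicate N true ++ false :: u) b (true :: b)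
    exact congrArg some (congrArg (TM2.Cfg.mk _ _) e2)

theorem load2 (u : List Bool) (v : tm.σ) (r : Bool × Bool) (S : ∀ k, List (tm.Γ k))
    (b : List Bool) (s : List (tm.Γ tm.k₀)) :
    ∃ r', Steps (TM2.step (clkm tm din)) (u.length + 1)
      (⟨some (.inr 1), (v, r), mkC (update S tm.k₀ s) u b⟩ : CC tm)
      ⟨some (.inl tm.main), (v, r'), mkC (update S tm.k₀ ((u.map din).reverse ++ s)) [] b⟩ := by
  induction u generalizing r s with
  | nil =>
    refine ⟨(false, false), Steps.single ?_⟩
    simp only [TM2.step, clkm, TM2.stepAux]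
    rw [mkC_false]
    simp [mkC]
  | cons x u ih =>
    obtain ⟨r', hs⟩ := ih (true, x) (din x :: s)
    refine ⟨r', ?_⟩
    have e : (u.map din).reverse ++ din x :: s = ((x :: u).map din).reverse ++ s := by simp
    rw [e] at hs
    refine Steps.head ?_ hs
    simp only [TM2.step, clkm, TM2.stepAux]
    rw [mkC_false]
    simp only [mkC, List.head?_cons, Option.isSome_some,
      Option.getD_some, List.tail_cons, cond_true]
    have e2 := mkC_inl (update S tm.k₀ s) u b tm.k₀ (din x :: (update S tm.k₀ s) tm.k₀)
    rw [update_idem, update_self] at e2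
    exact congrArg some (congrArg (TM2.Cfg.mk _ _) (by
      rw [← e2, update_self]))

end clock

theorem clocked_run (tm : FinTM2) (ein : tm.Γ tm.k₀ ≃ Bool) (B : ℕ)
    (hB : ∀ l, pushes (tm.m l) ≤ B) (w : List Bool) (N : ℕ) :
    ∃ n ≤ (N + 1) + (w.length + 1) + (N + 1) + (w.length + N + N * B + 1),
      Steps (clk tm ein.symm).step n
        (initList (clk tm ein.symm) (List.replicate N true ++ false :: w.reverse))
        (haltList (clk tm ein.symm) ((runN tm N (initList tm (w.map ein.symm))).stk tm.k₁)) := by
  set c0 : tm.Cfg := initList tm (w.map ein.symm) with hc0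
  obtain ⟨r1, h1⟩ := load1 ein.symm N tm.initialState (false, false) (fun _ => []) w.reverse []
  obtain ⟨r2, h2⟩ := load2 ein.symm w.reverse tm.initialState r1 (fun _ => [])
    (List.replicate N true ++ []) []
  have e1 : (update (fun _ => []) tm.k₀ [] : ∀ k, List (tm.Γ k)) = fun _ => [] := by simp
  rw [e1] at h2
  have h12 := h1.trans h2
  have e2 : ((w.reverse.map ein.symm).reverse ++ [] : List (tm.Γ tm.k₀)) = w.map ein.symm := by
    simp
  rw [e2, List.append_nil] at h12
  obtain ⟨n3, hn3, v3, b3, hb3, h3⟩ := sim_clk ein.symm N c0 r2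
  have e3 : (⟨some (c0.l.elim (.inr 2) .inl), (c0.var, r2),
      mkC c0.stk [] (List.replicate N true)⟩ : CC tm) =
      ⟨some (.inl tm.main), (tm.initialState, r2),
        mkC (update (fun _ => []) tm.k₀ (w.map ein.symm)) [] (List.replicate N true)⟩ := by
    rw [hc0, initList_eq]
    rfl
  rw [e3] at h3
  have h123 := h12.trans h3
  obtain ⟨m, hm, hms⟩ := runN_steps N c0
  have hlen : ∀ k, ((runN tm N c0).stk k).length ≤ w.length + N * B := by
    intro k
    have h := length_steps tm B hB hms k
    have h' : (c0.stk k).length ≤ w.length := by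
      rw [hc0, initList_eq]
      simp only
      by_cases hk : k = tm.k₀
      · subst hk
        simp
      · rw [update_of_ne hk]
        simp
    have := Nat.mul_le_mul_right B hm
    omega
  obtain ⟨n4, hn4, h4⟩ := clean_run ein.symm (w.length + N + N * B) v3
    (mkC (runN tm N c0).stk [] b3) (by
      intro k hk
      rcases k with k | b
      · have := hlen k
        change ((runN tm N c0).stk k).length ≤ _
        omega
      · cases b
        · change ([] : List Bool).length ≤ _
          simp
        · change b3.length ≤ _
          omega)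
  have h1234 := h123.trans h4
  refine ⟨N + 1 + (w.reverse.length + 1) + n3 + n4, ?_, ?_⟩
  · simp only [List.length_reverse]
    omega
  · have i1 := initList_eq (clk tm ein.symm) (List.replicate N true ++ false :: w.reverse)
    have i2 := haltList_eq (clk tm ein.symm) ((runN tm N c0).stk tm.k₁)
    have e6 : (mkC (fun _ => []) (List.replicate N true ++ false :: w.reverse) [] :
        ∀ k : CK tm, List (CΓ tm k)) = (update (fun _ => []) (Sum.inr false : CK tm)
          (List.replicate N true ++ false :: w.reverse) : ∀ k : CK tm, List (CΓ tm k)) := by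
      have := mkC_false (tm := tm) (fun _ => []) [] []
        (List.replicate N true ++ false :: w.reverse)
      rw [← this]
      congr 1
      funext k
      rcases k with k | b
      · rfl
      · cases b <;> rfl
    rw [e6] at h1234
    exact Eq.mpr (congrArg₂ (Steps (clk tm ein.symm).step _) i1 i2) h1234

/-- The clocked run is a polynomial time function. -/
theorem Poly.clocked (tm : FinTM2) (ein : tm.Γ tm.k₀ ≃ Bool) (eout : tm.Γ tm.k₁ ≃ Bool) :
    Poly (fun p : List Bool × ℕ => List.replicate p.2 true ++ false :: p.1.reverse)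
      (id : List Bool → List Bool)
      (fun p => ((runN tm p.2 (initList tm (p.1.map ein.symm))).stk tm.k₁).map eout) := by
  let _ := tm.ΛFin
  set B := ∑ l, pushes (tm.m l) with hB
  have hBl : ∀ l, pushes (tm.m l) ≤ B := fun l =>
    Finset.single_le_sum (f := fun l => pushes (tm.m l)) (fun _ _ => Nat.zero_le _)
        (Finset.mem_univ l)
  choose n hn hs using clocked_run tm ein B hBl
  refine ⟨{ tm := clk tm ein.symm
            inputAlphabet := Equiv.refl Bool
            outputAlphabet := eout
            time := (Polynomial.X + 1) + (Polynomial.X + 1) + (Polynomial.X + 1) +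
              (Polynomial.X + Polynomial.X + Polynomial.X * Polynomial.C B + 1)
            outputsFun := ?_ }⟩
  rintro ⟨w, N⟩
  have h1 := hs w N
  have h2 := hn w N
  have e5 : (List.replicate N true ++ false :: w.reverse).map (Equiv.refl Bool).invFun =
      List.replicate N true ++ false :: w.reverse := by
    simp
  have e7 : (((runN tm N (initList tm (w.map ein.symm))).stk tm.k₁).map eout).map eout.invFun =
      (runN tm N (initList tm (w.map ein.symm))).stk tm.k₁ := by
    simp
  rw [← e7] at h1
  have e8 : initList (clk tm ein.symm) (List.map (Equiv.refl Bool).invFun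
      (List.replicate N true ++ false :: w.reverse)) = initList (clk tm ein.symm)
        (List.replicate N true ++ false :: w.reverse) := congrArg _ e5
  refine Steps.toEvals (n := n w N) ?_ ?_
  · exact (congrArg (fun c => Steps (clk tm ein.symm).step (n w N) c
      (haltList (clk tm ein.symm)
        ((((runN tm N (initList tm (w.map ein.symm))).stk tm.k₁).map eout).map
          eout.invFun))) e8).mpr h1
  · simp only [Polynomial.eval_add, Polynomial.eval_mul, Polynomial.eval_X, Polynomial.eval_one,
      Polynomial.eval_C, List.length_append, List.length_replicate, List.length_cons,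
      List.length_reverse]
    have h5 : N * B ≤ (N + (w.length + 1)) * B := Nat.mul_le_mul_right B (by omega)
    omega

section

variable {γ : Type} [ToD γ]

theorem PF.pow {f : γ → ℕ} (hf : PF f) (k : ℕ) : PF (fun c => f c ^ k) := by
  induction k with
  | zero => exact (PF.const 1).cast (fun c => by rw [pow_zero])
  | succ k ih => exact (ih.mul hf).cast (fun c => by rw [pow_succ])

/-- polynomials of unary numbers -/
theorem PF.evalPoly (P : Polynomial ℕ) {f : γ → ℕ} (hf : PF f) : PF (fun c => P.eval (f c)) := by
  induction P using Polynomial.induction_on' with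
  | add p q hp hq => exact (hp.add hq).cast (fun c => by rw [Polynomial.eval_add])
  | monomial k a =>
    exact ((PF.const a).mul (hf.pow k)).cast (fun c => by rw [Polynomial.eval_monomial])

theorem PF.replicate {f : γ → ℕ} (hf : PF f) {β : Type} [ToD β] (b : β) :
    PF (fun c => List.replicate (f c) b) := by
  have h := PF.map (g := fun (_ : γ) (_ : ℕ) => b) (PF.const b) hf.range
  exact h.cast (fun c => by simp [List.map_const'])

end

/-- **Clocking**: a function that is computed in polynomial time on some inputs extends to a
function that is computed in polynomial time on all inputs. -/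
theorem Poly.clock {α : Type} {ea : α → List Bool} {P : α → Prop}
    {f : {a // P a} → List Bool}
    (h : Poly (fun x : {a // P a} => ea x.1) (id : List Bool → List Bool) f) :
    ∃ g : α → List Bool, Poly ea (id : List Bool → List Bool) g ∧
      ∀ a (ha : P a), g a = f ⟨a, ha⟩ := by
  obtain ⟨h⟩ := h
  let N : List Bool → ℕ := fun w => h.time.eval w.length
  let G : List Bool × ℕ → List Bool := fun p =>
    ((runN h.tm p.2 (initList h.tm (p.1.map h.inputAlphabet.symm))).stk h.tm.k₁).map
      h.outputAlphabet
  have h1 : Poly (id : List Bool → List Bool) en (fun w : List Bool => w) :=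
    (Poly.toTree D.ofBool).restrict id (fun _ => rfl) (fun _ => rfl)
  have h2 : PF (fun w : List Bool => List.replicate (N w) true ++ false :: w.reverse) :=
    ((PF.evalPoly h.time PF.id'.length).replicate true).append
      ((PF.const false).cons PF.id'.reverse)
  have h3 : Poly (en (α := List Bool)) (id : List Bool → List Bool) id :=
    Poly.ofTree.restrict id (fun _ => rfl) (fun _ => rfl)
  have h4 : Poly (id : List Bool → List Bool) (id : List Bool → List Bool)
      (fun w : List Bool => List.replicate (N w) true ++ false :: w.reverse) :=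
    Poly.comp (g := id) (Poly.comp (g := fun w : List Bool =>
      List.replicate (N w) true ++ false :: w.reverse) h1 h2) h3
  have h5 : Poly (id : List Bool → List Bool)
      (fun p : List Bool × ℕ => List.replicate p.2 true ++ false :: p.1.reverse)
      (fun w => (w, N w)) :=
    h4.restrict id (fun _ => rfl) (fun _ => rfl)
  have h6 : Poly (id : List Bool → List Bool) (id : List Bool → List Bool)
      (fun w => G (w, N w)) :=
    Poly.comp (g := G) h5 (Poly.clocked h.tm h.inputAlphabet h.outputAlphabet)
  refine ⟨fun a => G (ea a, N (ea a)), h6.restrict ea (fun _ => rfl) (fun _ => rfl), ?_⟩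
  intro a ha
  obtain ⟨n, hn, hs⟩ := Steps.ofEvals (h.outputsFun ⟨a, ha⟩)
  have h7 := runN_of_steps hs (by rw [haltList_eq]) (N (ea a)) hn
  simp only [G]
  have h8 : (initList h.tm ((ea a).map h.inputAlphabet.symm)) =
      initList h.tm (List.map h.inputAlphabet.invFun (ea a)) := rfl
  rw [h8, h7, haltList_eq]
  simp

end Pool.Agent.PolyTime
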