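import Pool.Agent.PolyTime.Comp

set_option autoImplicit false
set_option linter.unusedSectionVars false
set_option linter.unusedSimpArgs false

namespace Pool.Agent.PolyTime

open Turing Function

/-- all stacks over `Bool` -/
abbrev BΓ : K5 → Type := fun _ => Bool

/-- a state given by five stacks -/
def st (a b c d e : List Bool) : ∀ k, List (BΓ k)
  | .a => a
  | .b => b
  | .c => c
  | .d => d
  | .e => e

section st
variable (a b c d e x : List Bool)
@[simp] theorem st_a : st a b c d e .a = a := rfl
@[simp] theorem st_b : st a b c d e .b = b := rfl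
@[simp] theorem st_c : st a b c d e .c = c := rfl
@[simp] theorem st_d : st a b c d e .d = d := rfl
@[simp] theorem st_e : st a b c d e .e = e := rfl
@[simp] theorem upd_a : update (st a b c d e) .a x = st x b c d e := by
  funext k; cases k <;> rfl
@[simp] theorem upd_b : update (st a b c d e) .b x = st a x c d e := by
  funext k; cases k <;> rfl
@[simp] theorem upd_c : update (st a b c d e) .c x = st a b x d e := by
  funext k; cases k <;> rfl
@[simp] theorem upd_d : update (st a b c d e) .d x = st a b c x e := by
  funext k; cases k <;> rfl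
@[simp] theorem upd_e : update (st a b c d e) .e x = st a b c d x := by
  funext k; cases k <;> rfl
theorem st_nil : (fun _ => [] : ∀ k, List (BΓ k)) = st [] [] [] [] [] := by
  funext k; cases k <;> rfl
end st

section

variable {ι : Type} [DecidableEq ι] {tm : ι → FinTM2}

/-- Build a polynomial time function from a program on five binary stacks; input on `a`,
output on `e`. -/
theorem Poly.ofDoes5 [Fintype ι]
    {α β : Type} {ea : α → List Bool} {eb : β → List Bool} {f : α → β}
    (c : Cmd tm BΓ (Reg BΓ)) (time : Polynomial ℕ)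
    (h : ∀ a, Does c (time.eval (ea a).length) (st (ea a) [] [] [] [])
        (st [] [] [] [] (eb (f a)))) : Poly ea eb f := by
  refine Poly.ofDoes c .a .e (Equiv.refl Bool) (Equiv.refl Bool) time (fun a => ?_)
  have h1 := h a
  have e1 : (update (fun _ => []) .a ((ea a).map (Equiv.refl Bool).symm) :
      ∀ k, List (BΓ k)) = st (ea a) [] [] [] [] := by
    rw [st_nil]
    simp
  have e2 : (update (fun _ => []) .e ((eb (f a)).map (Equiv.refl Bool).symm) :
      ∀ k, List (BΓ k)) = st [] [] [] [] (eb (f a)) := by
    rw [st_nil]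
    simp
  rw [e1, e2]
  exact h1

/-- The call of a polynomial time subroutine. -/
theorem call5 {α β : Type} {ea : α → List Bool} {eb : β → List Bool} {f : α → β}
    (h : TM2ComputableInPolyTime ea eb f) (x : α) :
    ∃ out : List (h.tm.Γ h.tm.k₁), out.map h.outputAlphabet = eb (f x) ∧
      ∃ n ≤ h.time.eval (ea x).length, Steps h.tm.step n
        (initList h.tm ((ea x).map h.inputAlphabet.symm)) (haltList h.tm out) :=
  ⟨(eb (f x)).map h.outputAlphabet.invFun, by simp, Steps.ofEvals (h.outputsFun x)⟩

end

/-- **Pairing**. -/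
theorem Poly.pair {α β γ : Type} {ea : α → List Bool} {eb : β → List Bool}
    {ec : γ → List Bool} {f : α → β} {g : α → γ} (hf : Poly ea eb f) (hg : Poly ea ec g) :
    Poly ea (fun p : β × γ => true :: (eb p.1 ++ ec p.2)) (fun a => (f a, g a)) := by
  obtain ⟨P1, hP1⟩ := hf.length_bound
  obtain ⟨P2, hP2⟩ := hg.length_bound
  obtain ⟨hf⟩ := hf
  obtain ⟨hg⟩ := hg
  let tm := tm2 hf.tm hg.tm
  let prog : Cmd tm BΓ (Reg BΓ) :=
    .seq (mv2 .a .b .c id id) (.seq (pushList .d [true])
      (.seq (.call false .b .d hf.inputAlphabet.symm hf.outputAlphabet)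
      (.seq (.call true .c .d hg.inputAlphabet.symm hg.outputAlphabet) (mv .d .e id))))
  let timeP : Polynomial ℕ := (4 * Polynomial.X + 2) + (2 + ((hf.time + Polynomial.X + P1 + 2) +
    ((hg.time + Polynomial.X + P2 + 2) + (3 * (1 + P1 + P2) + 2))))
  refine Poly.ofDoes5 prog timeP ?_
  intro x
  have s1 := mv2_does (tm := tm) (Γ := BΓ) (a := K5.a) (b := K5.b) (c := K5.c) (by decide)
    (by decide) (by decide) id id (st (ea x) [] [] [] [])
  have s2 := pushList_does (tm := tm) (Γ := BΓ) K5.d [true]
    (st [] (ea x).reverse (ea x).reverse [] [])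
  have s3 := call_does (tm := tm) (Γ := BΓ) (Q := Reg BΓ) (i := false) (kin := K5.b)
      (kout := K5.d) (fin := hf.inputAlphabet.symm) (fout := hf.outputAlphabet)
      (N := hf.time.eval (ea x).length) (S := st [] (ea x).reverse (ea x).reverse [true] [])
      (ea x) (eb (f x)) rfl (call5 hf x)
  have s4 := call_does (tm := tm) (Γ := BΓ) (Q := Reg BΓ) (i := true) (kin := K5.c)
      (kout := K5.d) (fin := hg.inputAlphabet.symm) (fout := hg.outputAlphabet)
      (N := hg.time.eval (ea x).length)
      (S := st [] [] (ea x).reverse ((eb (f x)).reverse ++ [true]) [])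
      (ea x) (ec (g x)) rfl (call5 hg x)
  have s5 := mv_does (tm := tm) (Γ := BΓ) (a := K5.d) (b := K5.e) (by decide) id
      (st [] [] [] ((ec (g x)).reverse ++ ((eb (f x)).reverse ++ [true])) [])
  simp only [st_a, st_b, st_c, st_d, st_e, upd_a, upd_b, upd_c, upd_d, upd_e, List.map_id,
    List.append_nil, List.reverse_singleton, List.length_append, List.length_reverse,
    List.length_singleton, List.reverse_append, List.reverse_reverse,
    List.singleton_append] at s1 s2 s3 s4 s5
  refine ((s1.seq (s2.seq (s3.seq (s4.seq s5)))).mono ?_).to ?_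
  · have b1 := hP1 x
    have b2 := hP2 x
    simp only [timeP, Polynomial.eval_add, Polynomial.eval_mul, Polynomial.eval_X,
      Polynomial.eval_ofNat, Polynomial.eval_one]
    omega
  · simp

/-- three subroutines -/
def tm3 (M N L : FinTM2) : Fin 3 → FinTM2
  | 0 => M
  | 1 => N
  | 2 => L

/-- **Case distinction**. -/
theorem Poly.ite {α β : Type} {ea : α → List Bool} {eb : β → List Bool} {p : α → Bool}
    {f g : α → β} (hp : Poly ea Computability.encodeBool p)
    (hf : Poly ea eb f) (hg : Poly ea eb g) :
    Poly ea eb (fun a => if p a then f a else g a) := by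
  obtain ⟨P1, hP1⟩ := hf.length_bound
  obtain ⟨P2, hP2⟩ := hg.length_bound
  obtain ⟨hp⟩ := hp
  obtain ⟨hf⟩ := hf
  obtain ⟨hg⟩ := hg
  let tm := tm3 hp.tm hf.tm hg.tm
  let prog : Cmd tm BΓ (Reg BΓ) :=
    .seq (mv2 .a .b .c id id)
      (.seq (.call 0 .b .d hp.inputAlphabet.symm hp.outputAlphabet)
      (.seq (popR .d)
      (.seq (.ite (fun q => (q .d).getD false)
        (.call 1 .c .d hf.inputAlphabet.symm hf.outputAlphabet)
        (.call 2 .c .d hg.inputAlphabet.symm hg.outputAlphabet)) (mv .d .e id))))
  let timeP : Polynomial ℕ := (4 * Polynomial.X + 2) + ((hp.time + Polynomial.X + 1 + 2) +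
    (1 + ((hf.time + hg.time + Polynomial.X + P1 + P2 + 2 + 1) + (3 * (P1 + P2) + 2))))
  refine Poly.ofDoes5 prog timeP ?_
  intro x
  have s1 := mv2_does (tm := tm) (Γ := BΓ) (a := K5.a) (b := K5.b) (c := K5.c) (by decide)
    (by decide) (by decide) id id (st (ea x) [] [] [] [])
  have s2 := call_does (tm := tm) (Γ := BΓ) (Q := Reg BΓ) (i := 0) (kin := K5.b)
      (kout := K5.d) (fin := hp.inputAlphabet.symm) (fout := hp.outputAlphabet)
      (N := hp.time.eval (ea x).length) (S := st [] (ea x).reverse (ea x).reverse [] [])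
      (ea x) (Computability.encodeBool (p x)) rfl (call5 hp x)
  simp only [st_a, st_b, st_c, st_d, st_e, upd_a, upd_b, upd_c, upd_d, upd_e, List.map_id,
    List.append_nil, List.reverse_singleton, List.length_append, List.length_reverse,
    List.length_singleton, List.reverse_append, List.reverse_reverse,
    List.singleton_append, Computability.encodeBool, List.pure_def] at s1 s2
  have s3 : Does (.seq (popR .d)
      (.seq (.ite (fun q => (q .d).getD false)
        (.call 1 .c .d hf.inputAlphabet.symm hf.outputAlphabet)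
        (.call 2 .c .d hg.inputAlphabet.symm hg.outputAlphabet)) (mv .d .e id)) :
        Cmd tm BΓ (Reg BΓ)) (1 + ((hf.time.eval (ea x).length + hg.time.eval (ea x).length +
          (ea x).length + P1.eval (ea x).length + P2.eval (ea x).length + 2 + 1) +
            (3 * (P1.eval (ea x).length + P2.eval (ea x).length) + 2)))
        (st [] [] (ea x).reverse [p x] []) (st [] [] [] [] (eb (if p x then f x else g x))) := by
    intro q
    have t1 := popR_run (tm := tm) (Γ := BΓ) K5.d q (st [] [] (ea x).reverse [p x] [])
    simp only [st_d, List.head?_cons, List.tail_cons, upd_d] at t1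
    cases hpx : p x with
    | true =>
      rw [hpx] at t1
      obtain ⟨q', t2⟩ := call_does (tm := tm) (Γ := BΓ) (Q := Reg BΓ) (i := 1) (kin := K5.c)
        (kout := K5.d) (fin := hf.inputAlphabet.symm) (fout := hf.outputAlphabet)
        (N := hf.time.eval (ea x).length) (S := st [] [] (ea x).reverse [] [])
        (ea x) (eb (f x)) rfl (call5 hf x) (update q .d (some true))
      obtain ⟨q'', t3⟩ := mv_does (tm := tm) (Γ := BΓ) (a := K5.d) (b := K5.e) (by decide) id
        (st [] [] [] (eb (f x)).reverse []) q'
      have t4 : RunsIn (.ite (fun q => (q .d).getD false)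
        (.call 1 .c .d hf.inputAlphabet.symm hf.outputAlphabet)
        (.call 2 .c .d hg.inputAlphabet.symm hg.outputAlphabet) : Cmd tm BΓ (Reg BΓ)) _ _ _ _ _ :=
        RunsIn.ite_true (by simp) t2
      simp only [st_a, st_b, st_c, st_d, st_e, upd_a, upd_b, upd_c, upd_d, upd_e, List.map_id,
        List.append_nil, List.length_reverse, List.reverse_reverse] at t3 t4
      refine ⟨q'', (t1.seq (t4.seq t3)).mono ?_⟩
      have b1 := hP1 x
      omega
    | false =>
      rw [hpx] at t1
      obtain ⟨q', t2⟩ := call_does (tm := tm) (Γ := BΓ) (Q := Reg BΓ) (i := 2) (kin := K5.c)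
        (kout := K5.d) (fin := hg.inputAlphabet.symm) (fout := hg.outputAlphabet)
        (N := hg.time.eval (ea x).length) (S := st [] [] (ea x).reverse [] [])
        (ea x) (eb (g x)) rfl (call5 hg x) (update q .d (some false))
      obtain ⟨q'', t3⟩ := mv_does (tm := tm) (Γ := BΓ) (a := K5.d) (b := K5.e) (by decide) id
        (st [] [] [] (eb (g x)).reverse []) q'
      have t4 : RunsIn (.ite (fun q => (q .d).getD false)
        (.call 1 .c .d hf.inputAlphabet.symm hf.outputAlphabet)
        (.call 2 .c .d hg.inputAlphabet.symm hg.outputAlphabet) : Cmd tm BΓ (Reg BΓ)) _ _ _ _ _ :=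
        RunsIn.ite_false (by simp) t2
      simp only [st_a, st_b, st_c, st_d, st_e, upd_a, upd_b, upd_c, upd_d, upd_e, List.map_id,
        List.append_nil, List.length_reverse, List.reverse_reverse] at t3 t4
      refine ⟨q'', (t1.seq (t4.seq t3)).mono ?_⟩
      have b1 := hP2 x
      omega
  refine ((s1.seq (s2.seq s3)).mono ?_).to rfl
  simp only [timeP, Polynomial.eval_add, Polynomial.eval_mul, Polynomial.eval_X,
    Polynomial.eval_ofNat, Polynomial.eval_one]
  omega

end Pool.Agent.PolyTime
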