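import Pool.Agent.PolyTime.Prog

set_option autoImplicit false
set_option linter.unusedSectionVars false
set_option linter.unusedSimpArgs false

namespace Pool.Agent.PolyTime

open Turing Function

section

variable {ι : Type} [DecidableEq ι] {tm : ι → FinTM2} {K : Type} [DecidableEq K]
  {Γ : K → Type} [∀ k, Inhabited (Γ k)]

theorem RunsIn.to {Q : Type} {c : Cmd tm Γ Q} {n : ℕ} {q q' : Q} {S S' S'' : ∀ k, List (Γ k)}
    (h : RunsIn c n q S q' S') (e : S' = S'') : RunsIn c n q S q' S'' := e ▸ h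

/-- The command transforms the stacks `S` to `S'` whatever the registers. -/
def Does {Q : Type} (c : Cmd tm Γ Q) (n : ℕ) (S S' : ∀ k, List (Γ k)) : Prop :=
  ∀ q, ∃ q', RunsIn c n q S q' S'

theorem Does.mono {Q : Type} {c : Cmd tm Γ Q} {m n : ℕ} {S S' : ∀ k, List (Γ k)}
    (h : Does c m S S') (hmn : m ≤ n) : Does c n S S' := fun q =>
  let ⟨q', h'⟩ := h q
  ⟨q', h'.mono hmn⟩

theorem Does.to {Q : Type} {c : Cmd tm Γ Q} {n : ℕ} {S S' S'' : ∀ k, List (Γ k)}
    (h : Does c n S S') (e : S' = S'') : Does c n S S'' := e ▸ h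

theorem Does.seq {Q : Type} {a b : Cmd tm Γ Q} {m n : ℕ} {S S' S'' : ∀ k, List (Γ k)}
    (h1 : Does a m S S') (h2 : Does b n S' S'') : Does (.seq a b) (m + n) S S'' := fun q =>
  let ⟨q', h'⟩ := h1 q
  let ⟨q'', h''⟩ := h2 q'
  ⟨q'', h'.seq h''⟩

theorem mv_does {a b : K} (hab : a ≠ b) (g : Γ a → Γ b) (S : ∀ k, List (Γ k)) :
    Does (mv a b g : Cmd tm Γ (Reg Γ)) (3 * (S a).length + 2) S
      (update (update S a []) b (((S a).map g).reverse ++ S b)) := fun q =>
  ⟨_, mv_run hab g q S⟩

theorem mv2_does {a b c : K} (hab : a ≠ b) (hac : a ≠ c) (hbc : b ≠ c) (g : Γ a → Γ b)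
    (g' : Γ a → Γ c) (S : ∀ k, List (Γ k)) :
    Does (mv2 a b c g g' : Cmd tm Γ (Reg Γ)) (4 * (S a).length + 2) S
      (update (update (update S a []) b (((S a).map g).reverse ++ S b)) c
        (((S a).map g').reverse ++ S c)) := fun q => ⟨_, mv2_run hab hac hbc g g' q S⟩

theorem clr_does (a : K) (S : ∀ k, List (Γ k)) :
    Does (clr a : Cmd tm Γ (Reg Γ)) (2 * (S a).length + 2) S (update S a []) := fun q =>
  ⟨_, clr_run a q S⟩

theorem pushList_does (k : K) (l : List (Γ k)) (S : ∀ k, List (Γ k)) :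
    Does (pushList k l : Cmd tm Γ (Reg Γ)) (l.length + 1) S (update S k (l.reverse ++ S k)) :=
  fun q => ⟨_, pushList_run k l q S⟩

theorem call_does {Q : Type} {i : ι} {kin kout : K} {fin : Γ kin → (tm i).Γ (tm i).k₀}
    {fout : (tm i).Γ (tm i).k₁ → Γ kout} {N : ℕ} {S : ∀ k, List (Γ k)}
    (w : List (Γ kin)) (u : List (Γ kout)) (hw : S kin = w.reverse)
    (h : ∃ out : List ((tm i).Γ (tm i).k₁), out.map fout = u ∧
      ∃ n ≤ N, Steps (tm i).step n (initList (tm i) (w.map fin)) (haltList (tm i) out)) :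
    Does (.call i kin kout fin fout : Cmd tm Γ Q) (N + w.length + u.length + 2) S
      (update (update S kin []) kout (u.reverse ++ (update S kin []) kout)) := by
  intro q
  obtain ⟨out, rfl, h⟩ := h
  have e : ((S kin).map fin).reverse = w.map fin := by
    rw [hw, List.map_reverse, List.reverse_reverse]
  rw [← e] at h
  refine ⟨q, (call_run h).mono ?_⟩
  rw [hw]
  simp

/-- Build a polynomial time function from a program. -/
theorem Poly.ofDoes [Fintype ι] [Fintype K] [∀ k, Fintype (Γ k)]
    {α β αΓ βΓ : Type} {ea : α → List αΓ} {eb : β → List βΓ} {f : α → β}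
    (c : Cmd tm Γ (Reg Γ)) (kin kout : K) (ein : Γ kin ≃ αΓ) (eout : Γ kout ≃ βΓ)
    (time : Polynomial ℕ)
    (h : ∀ a, Does c (time.eval (ea a).length) (update (fun _ => []) kin ((ea a).map ein.symm))
        (update (fun _ => []) kout ((eb (f a)).map eout.symm))) : Poly ea eb f := by
  refine Poly.ofCmd c kin kout (fun _ => none) ein eout time (fun a => ?_)
  obtain ⟨q', n, hn, hr⟩ := h a (fun _ => none)
  exact ⟨n, q', hn, hr⟩

end

/-- two subroutines -/
def tm2 (M N : FinTM2) : Bool → FinTM2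
  | false => M
  | true => N

/-- stack names -/
inductive K5 | a | b | c | d | e
  deriving DecidableEq

instance : Fintype K5 := ⟨{.a, .b, .c, .d, .e}, by intro x; cases x <;> decide⟩

section comp

variable (A B C : Type)

/-- alphabets for composition -/
abbrev compΓ : K5 → Type
  | .a => A
  | .b => A
  | .c => B
  | .d => C
  | .e => C

instance compFin [Fintype A] [Fintype B] [Fintype C] (k : K5) : Fintype (compΓ A B C k) :=
  match k with
  | .a => inferInstanceAs (Fintype A)
  | .b => inferInstanceAs (Fintype A)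
  | .c => inferInstanceAs (Fintype B)
  | .d => inferInstanceAs (Fintype C)
  | .e => inferInstanceAs (Fintype C)

instance compInh [Inhabited A] [Inhabited B] [Inhabited C] (k : K5) :
    Inhabited (compΓ A B C k) :=
  match k with
  | .a => inferInstanceAs (Inhabited A)
  | .b => inferInstanceAs (Inhabited A)
  | .c => inferInstanceAs (Inhabited B)
  | .d => inferInstanceAs (Inhabited C)
  | .e => inferInstanceAs (Inhabited C)

end comp

/-- **Composition** of polynomial time functions. -/
theorem Poly.comp {α β γ αΓ βΓ γΓ : Type} [Inhabited αΓ] [Inhabited βΓ] [Inhabited γΓ]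
    [Fintype γΓ] {ea : α → List αΓ} {eb : β → List βΓ} {ec : γ → List γΓ} {f : α → β} {g : β → γ}
    (hf : Poly ea eb f) (hg : Poly eb ec g) : Poly ea ec (fun a => g (f a)) := by
  obtain ⟨P1, hP1⟩ := hf.length_bound
  obtain ⟨P2, hP2⟩ := hg.length_bound
  obtain ⟨hf⟩ := hf
  obtain ⟨hg⟩ := hg
  let _ : Fintype αΓ := let _ := hf.tm.Γk₀Fin; Fintype.ofEquiv _ hf.inputAlphabet
  let _ : Fintype βΓ := let _ := hg.tm.Γk₀Fin; Fintype.ofEquiv _ hg.inputAlphabet
  let tm := tm2 hf.tm hg.tm
  let prog : Cmd tm (compΓ αΓ βΓ γΓ) (Reg (compΓ αΓ βΓ γΓ)) :=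
    .seq (mv .a .b id) (.seq (.call false .b .c hf.inputAlphabet.symm hf.outputAlphabet)
      (.seq (.call true .c .d hg.inputAlphabet.symm hg.outputAlphabet) (mv .d .e id)))
  let timeP : Polynomial ℕ := (3 * Polynomial.X + 2) + ((hf.time + Polynomial.X + P1 + 2) +
    ((hg.time.comp P1 + P1 + P2.comp P1 + 2) + (3 * P2.comp P1 + 2)))
  refine Poly.ofDoes prog .a .e (Equiv.refl αΓ) (Equiv.refl γΓ) timeP ?_
  intro x
  have s1 : Does (mv .a .b id : Cmd tm (compΓ αΓ βΓ γΓ) _) (3 * (ea x).length + 2)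
      (update (fun _ => []) .a ((ea x).map (Equiv.refl αΓ).symm) : ∀ k, List (compΓ αΓ βΓ γΓ k))
      (update (fun _ => []) .b (ea x).reverse) := by
    refine ((mv_does (tm := tm) (Γ := compΓ αΓ βΓ γΓ) (a := K5.a) (b := K5.b) (by decide) id
      _).mono ?_).to ?_
    · simp
    · funext k
      cases k <;> simp
  have s2 : Does (.call false .b .c hf.inputAlphabet.symm hf.outputAlphabet :
      Cmd tm (compΓ αΓ βΓ γΓ) (Reg (compΓ αΓ βΓ γΓ))) (hf.time.eval (ea x).length +
        (ea x).length + (eb (f x)).length + 2)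
      (update (fun _ => []) .b (ea x).reverse)
      (update (fun _ => []) .c (eb (f x)).reverse) := by
    have h0 := Steps.ofEvals (hf.outputsFun x)
    have h1 : ((eb (f x)).map hf.outputAlphabet.invFun).map hf.outputAlphabet = eb (f x) := by
      simp
    refine (call_does (tm := tm) (Γ := compΓ αΓ βΓ γΓ) (i := false) (kin := K5.b)
      (kout := K5.c) (fin := hf.inputAlphabet.symm) (fout := hf.outputAlphabet)
      (N := hf.time.eval (ea x).length) (S := update (fun _ => []) .b (ea x).reverse)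
      (ea x) (eb (f x)) (by simp) ⟨_, h1, h0⟩).to ?_
    funext k
    cases k <;> simp
  have s3 : Does (.call true .c .d hg.inputAlphabet.symm hg.outputAlphabet :
      Cmd tm (compΓ αΓ βΓ γΓ) (Reg (compΓ αΓ βΓ γΓ))) (hg.time.eval (eb (f x)).length +
        (eb (f x)).length + (ec (g (f x))).length + 2)
      (update (fun _ => []) .c (eb (f x)).reverse)
      (update (fun _ => []) .d (ec (g (f x))).reverse) := by
    have h0 := Steps.ofEvals (hg.outputsFun (f x))
    have h1 : ((ec (g (f x))).map hg.outputAlphabet.invFun).map hg.outputAlphabet =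
      ec (g (f x)) := by simp
    refine (call_does (tm := tm) (Γ := compΓ αΓ βΓ γΓ) (i := true) (kin := K5.c)
      (kout := K5.d) (fin := hg.inputAlphabet.symm) (fout := hg.outputAlphabet)
      (N := hg.time.eval (eb (f x)).length) (S := update (fun _ => []) .c (eb (f x)).reverse)
      (eb (f x)) (ec (g (f x))) (by simp) ⟨_, h1, h0⟩).to ?_
    funext k
    cases k <;> simp
  have s4 : Does (mv .d .e id : Cmd tm (compΓ αΓ βΓ γΓ) _) (3 * (ec (g (f x))).length + 2)
      (update (fun _ => []) .d (ec (g (f x))).reverse : ∀ k, List (compΓ αΓ βΓ γΓ k))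
      (update (fun _ => []) .e ((ec (g (f x))).map (Equiv.refl γΓ).symm)) := by
    refine ((mv_does (tm := tm) (Γ := compΓ αΓ βΓ γΓ) (a := K5.d) (b := K5.e) (by decide) id
      _).mono ?_).to ?_
    · simp
    · funext k
      cases k <;> simp
  refine (s1.seq (s2.seq (s3.seq s4))).mono ?_
  have b1 := hP1 x
  have b2 := (hP2 (f x)).trans (eval_mono P2 b1)
  have b3 := eval_mono hg.time b1
  simp only [timeP, Polynomial.eval_add, Polynomial.eval_mul, Polynomial.eval_X,
    Polynomial.eval_comp, Polynomial.eval_ofNat]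
  omega

end Pool.Agent.PolyTime
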