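import Pool.Agent.PolyTime.While

set_option autoImplicit false
set_option linter.unusedSectionVars false
set_option linter.unusedSimpArgs false

namespace Pool.Agent.PolyTime

open Turing Function

/-- Binary trees, the universal data type. -/
inductive D
  | nil
  | cons (a b : D)
  deriving DecidableEq, Inhabited

namespace D

/-- Polish notation. -/
def enc : D → List Bool
  | nil => [false]
  | cons a b => true :: (a.enc ++ b.enc)

/-- first component -/
def hd : D → D
  | nil => nil
  | cons a _ => a

/-- second component -/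
def tl : D → D
  | nil => nil
  | cons _ b => b

/-- not a leaf -/
def isCons : D → Bool
  | nil => false
  | cons _ _ => true

end D

/-- no subroutines -/
abbrev tm0 : Empty → FinTM2 := fun x => x.elim

/-- Read one tree from the stack `a` (copying it, reversed, to `d` when `cp`); the number of
pending trees is kept on `b`. -/
def parseLoop (cp : Bool) : Cmd tm0 BΓ (Reg BΓ) :=
  .loop (fun q => (q .b).isSome)
    (.seq (popR .a) (.seq (cond cp (pushR .d (fun q => (q .a).getD false)) .skip)
      (.seq (.ite (fun q => (q .a).getD false)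
        (.seq (pushR .b (fun _ => true)) (pushR .b (fun _ => true))) .skip) (popR .b))))

theorem parse_step (cp : Bool) (x : Bool) (a b c d e : List Bool) (q : Reg BΓ) :
    RunsIn (.seq (popR .a) (.seq (cond cp (pushR .d (fun q => (q .a).getD false)) .skip)
      (.seq (.ite (fun q => (q .a).getD false)
        (.seq (pushR .b (fun _ => true)) (pushR .b (fun _ => true))) .skip) (popR .b))) :
          Cmd tm0 BΓ (Reg BΓ)) 6 q
      (st (x :: a) b c d e) (update (update q .a (some x)) .b (cond x (some true) b.head?))
      (st a (cond x (true :: b) b.tail) c (cond cp (x :: d) d) e) := by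
  have s1 := popR_run (tm := tm0) (Γ := BΓ) K5.a q (st (x :: a) b c d e)
  simp only [st_a, upd_a, List.head?_cons, List.tail_cons] at s1
  have s2 : RunsIn (cond cp (pushR .d (fun q => (q .a).getD false)) .skip :
      Cmd tm0 BΓ (Reg BΓ)) 1 (update q .a (some x)) (st a b c d e) (update q .a (some x))
      (st a b c (cond cp (x :: d) d) e) := by
    cases cp with
    | false => exact RunsIn.skip _ _
    | true =>
      have := pushR_run (tm := tm0) (Γ := BΓ) K5.d (fun q => (q .a).getD false)
        (update q .a (some x)) (st a b c d e)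
      simpa using this
  have s3 : RunsIn (.ite (fun q => (q .a).getD false)
        (.seq (pushR .b (fun _ => true)) (pushR .b (fun _ => true))) .skip :
      Cmd tm0 BΓ (Reg BΓ)) 3 (update q .a (some x)) (st a b c (cond cp (x :: d) d) e)
      (update q .a (some x)) (st a (cond x (true :: true :: b) b) c (cond cp (x :: d) d) e) := by
    cases x with
    | false =>
      exact (RunsIn.ite_false (by simp) (RunsIn.skip _ _)).mono (by omega)
    | true =>
      have t1 := pushR_run (tm := tm0) (Γ := BΓ) K5.b (fun _ => true)
        (update q .a (some true)) (st a b c (cond cp (true :: d) d) e)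
      have t2 := pushR_run (tm := tm0) (Γ := BΓ) K5.b (fun _ => true)
        (update q .a (some true)) (st a (true :: b) c (cond cp (true :: d) d) e)
      simp only [st_b, upd_b] at t1 t2
      exact RunsIn.ite_true (by simp) (t1.seq t2)
  have s4 := popR_run (tm := tm0) (Γ := BΓ) K5.b (update q .a (some x))
    (st a (cond x (true :: true :: b) b) c (cond cp (x :: d) d) e)
  simp only [st_b, upd_b] at s4
  have := s1.seq (s2.seq (s3.seq s4))
  cases x with
  | false => simpa using this
  | true => simpa using this

theorem parse (cp : Bool) (t : D) : ∀ (r p c o e : List Bool) (n : ℕ)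
    (S' : ∀ k, List (BΓ k)),
    (∀ q : Reg BΓ, q .b = p.head? → ∃ q', RunsIn (parseLoop cp) n q
      (st r p.tail c ((cond cp t.enc.reverse []) ++ o) e) q' S') →
    ∀ (q : Reg BΓ), q .b = some true → ∃ q', RunsIn (parseLoop cp) (n + 7 * t.enc.length) q
      (st (t.enc ++ r) p c o e) q' S' := by
  induction t with
  | nil =>
    intro r p c o e n S' h q hq
    have s1 := parse_step cp false r p c o e q
    obtain ⟨q', s2⟩ := h (update (update q .a (some false)) .b (cond false (some true) p.head?))
      (by simp)
    refine ⟨q', ?_⟩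
    have e1 : (st r p.tail c ((cond cp D.nil.enc.reverse []) ++ o) e) =
        (st r (cond false (true :: p) p.tail) c (cond cp (false :: o) o) e) := by
      cases cp <;> simp [D.enc]
    rw [e1] at s2
    have hb : (q .b).isSome = true := by rw [hq]; rfl
    refine (RunsIn.loop_true (p := fun q : Reg BΓ => (q .b).isSome) hb s1 s2).mono ?_
    simp only [D.enc, List.length_singleton]
    omega
  | cons t1 t2 ih1 ih2 =>
    intro r p c o e n S' h q hq
    have s1 := parse_step cp true (t1.enc ++ t2.enc ++ r) p c o e q
    have h2 := ih2 r p c ((cond cp t1.enc.reverse []) ++ (cond cp (true :: o) o)) e n S' (by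
      intro q hq
      obtain ⟨q', h'⟩ := h q hq
      refine ⟨q', ?_⟩
      have e1 : (cond cp (t1.cons t2).enc.reverse []) ++ o = (cond cp t2.enc.reverse []) ++
          ((cond cp t1.enc.reverse []) ++ (cond cp (true :: o) o)) := by
        cases cp <;> simp [D.enc]
      rw [e1] at h'
      exact h')
    have h1 := ih1 (t2.enc ++ r) (true :: p) c (cond cp (true :: o) o) e
      (n + 7 * t2.enc.length) S' (by
        intro q hq
        exact h2 q hq)
    obtain ⟨q', s2⟩ := h1 (update (update q .a (some true)) .b (some true)) (by simp)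
    refine ⟨q', ?_⟩
    have hb : (q .b).isSome = true := by rw [hq]; rfl
    have e2 : (t1.cons t2).enc ++ r = true :: (t1.enc ++ t2.enc ++ r) := by simp [D.enc]
    rw [e2]
    rw [← List.append_assoc] at s2
    refine (RunsIn.loop_true (p := fun q : Reg BΓ => (q .b).isSome) hb s1 s2).mono ?_
    simp only [D.enc, List.length_cons, List.length_append]
    omega

/-- Read one tree. -/
theorem parse_run (cp : Bool) (t : D) (r c o e : List Bool) (q : Reg BΓ) (hq : q .b = some true) :
    ∃ q', RunsIn (parseLoop cp) (7 * t.enc.length + 1) q (st (t.enc ++ r) [] c o e) q'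
      (st r [] c ((cond cp t.enc.reverse []) ++ o) e) := by
  obtain ⟨q', h⟩ := parse cp t r [] c o e 1 (st r [] c ((cond cp t.enc.reverse []) ++ o) e)
    (fun q hq => ⟨q, RunsIn.loop_false (by simpa using hq)⟩) q hq
  exact ⟨q', h.mono (by omega)⟩

theorem enc_pos (t : D) : 1 ≤ t.enc.length := by
  cases t <;> simp [D.enc]

/-- start parsing -/
def startParse (cp : Bool) : Cmd tm0 BΓ (Reg BΓ) :=
  .seq (pushR .b (fun _ => true)) (.seq (popR .b) (parseLoop cp))

theorem startParse_run (cp : Bool) (t : D) (r c o e : List Bool) :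
    Does (startParse cp) (7 * t.enc.length + 3) (st (t.enc ++ r) [] c o e)
      (st r [] c ((cond cp t.enc.reverse []) ++ o) e) := by
  intro q
  have s1 := pushR_run (tm := tm0) (Γ := BΓ) K5.b (fun _ => true) q (st (t.enc ++ r) [] c o e)
  have s2 := popR_run (tm := tm0) (Γ := BΓ) K5.b q (st (t.enc ++ r) [true] c o e)
  simp only [st_b, upd_b, List.head?_cons, List.tail_cons] at s1 s2
  obtain ⟨q', s3⟩ := parse_run cp t r c o e (update q .b (some true)) (by simp)
  exact ⟨q', (s1.seq (s2.seq s3)).mono (by omega)⟩

theorem Poly.hd : Poly D.enc D.enc D.hd := by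
  let prog : Cmd tm0 BΓ (Reg BΓ) :=
    .seq (popR .a) (.ite (fun q => (q .a).getD false)
      (.seq (startParse true) (.seq (clr .a) (mv .d .e id)))
      (pushList .e [false]))
  let timeP : Polynomial ℕ := 20 * Polynomial.X + 20
  refine Poly.ofDoes5 prog timeP ?_
  intro x q
  have s1 := popR_run (tm := tm0) (Γ := BΓ) K5.a q (st x.enc [] [] [] [])
  cases x with
  | nil =>
    obtain ⟨q', s2⟩ := pushList_does (tm := tm0) (Γ := BΓ) K5.e [false] (st [] [] [] [] [])
      (update q .a (some false))
    simp only [st_a, st_e, upd_a, upd_e, D.enc, List.head?_cons, List.tail_cons] at s1 s2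
    refine ⟨q', ((s1.seq (RunsIn.ite_false (by simp) s2)).mono ?_).to ?_⟩
    · simp only [timeP, Polynomial.eval_add, Polynomial.eval_mul, Polynomial.eval_X,
        Polynomial.eval_ofNat]
      simp
    · simp [D.enc, D.hd]
  | cons a b =>
    obtain ⟨q2, s2⟩ := startParse_run true a b.enc [] [] [] (update q .a (some true))
    obtain ⟨q3, s3⟩ := clr_does (tm := tm0) (Γ := BΓ) K5.a
      (st b.enc [] [] (a.enc.reverse ++ []) []) q2
    obtain ⟨q4, s4⟩ := mv_does (tm := tm0) (Γ := BΓ) (a := K5.d) (b := K5.e) (by decide) id
      (st [] [] [] (a.enc.reverse ++ []) []) q3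
    simp only [st_a, st_b, st_c, st_d, st_e, upd_a, upd_b, upd_c, upd_d, upd_e, D.enc,
      List.head?_cons, List.tail_cons, List.append_nil, List.map_id, List.reverse_reverse,
      List.length_reverse, cond_true] at s1 s2 s3 s4
    refine ⟨q4, ((s1.seq (RunsIn.ite_true (by simp) (s2.seq (s3.seq s4)))).mono ?_).to ?_⟩
    · simp only [timeP, Polynomial.eval_add, Polynomial.eval_mul, Polynomial.eval_X,
        Polynomial.eval_ofNat, D.enc, List.length_cons, List.length_append]
      omega
    · simp [D.hd]

theorem Poly.tl : Poly D.enc D.enc D.tl := by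
  let prog : Cmd tm0 BΓ (Reg BΓ) :=
    .seq (popR .a) (.ite (fun q => (q .a).getD false)
      (.seq (startParse false) (.seq (mv .a .d id) (mv .d .e id)))
      (pushList .e [false]))
  let timeP : Polynomial ℕ := 20 * Polynomial.X + 20
  refine Poly.ofDoes5 prog timeP ?_
  intro x q
  have s1 := popR_run (tm := tm0) (Γ := BΓ) K5.a q (st x.enc [] [] [] [])
  cases x with
  | nil =>
    obtain ⟨q', s2⟩ := pushList_does (tm := tm0) (Γ := BΓ) K5.e [false] (st [] [] [] [] [])
      (update q .a (some false))
    simp only [st_a, st_e, upd_a, upd_e, D.enc, List.head?_cons, List.tail_cons] at s1 s2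
    refine ⟨q', ((s1.seq (RunsIn.ite_false (by simp) s2)).mono ?_).to ?_⟩
    · simp only [timeP, Polynomial.eval_add, Polynomial.eval_mul, Polynomial.eval_X,
        Polynomial.eval_ofNat]
      simp
    · simp [D.enc, D.tl]
  | cons a b =>
    obtain ⟨q2, s2⟩ := startParse_run false a b.enc [] [] [] (update q .a (some true))
    obtain ⟨q3, s3⟩ := mv_does (tm := tm0) (Γ := BΓ) (a := K5.a) (b := K5.d) (by decide) id
      (st b.enc [] [] [] []) q2
    obtain ⟨q4, s4⟩ := mv_does (tm := tm0) (Γ := BΓ) (a := K5.d) (b := K5.e) (by decide) id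
      (st [] [] [] b.enc.reverse []) q3
    simp only [st_a, st_b, st_c, st_d, st_e, upd_a, upd_b, upd_c, upd_d, upd_e, D.enc,
      List.head?_cons, List.tail_cons, List.append_nil, List.map_id, List.reverse_reverse,
      List.length_reverse, cond_false, List.nil_append] at s1 s2 s3 s4
    refine ⟨q4, ((s1.seq (RunsIn.ite_true (by simp) (s2.seq (s3.seq s4)))).mono ?_).to ?_⟩
    · simp only [timeP, Polynomial.eval_add, Polynomial.eval_mul, Polynomial.eval_X,
        Polynomial.eval_ofNat, D.enc, List.length_cons, List.length_append]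
      omega
    · simp [D.tl]

theorem Poly.isCons : Poly D.enc Computability.encodeBool D.isCons := by
  let prog : Cmd tm0 BΓ (Reg BΓ) :=
    .seq (popR .a) (.ite (fun q => (q .a).getD false)
      (.seq (clr .a) (pushList .e [true]))
      (pushList .e [false]))
  let timeP : Polynomial ℕ := 20 * Polynomial.X + 20
  refine Poly.ofDoes5 prog timeP ?_
  intro x q
  have s1 := popR_run (tm := tm0) (Γ := BΓ) K5.a q (st x.enc [] [] [] [])
  cases x with
  | nil =>
    obtain ⟨q', s2⟩ := pushList_does (tm := tm0) (Γ := BΓ) K5.e [false] (st [] [] [] [] [])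
      (update q .a (some false))
    simp only [st_a, st_e, upd_a, upd_e, D.enc, List.head?_cons, List.tail_cons] at s1 s2
    refine ⟨q', ((s1.seq (RunsIn.ite_false (by simp) s2)).mono ?_).to ?_⟩
    · simp only [timeP, Polynomial.eval_add, Polynomial.eval_mul, Polynomial.eval_X,
        Polynomial.eval_ofNat]
      simp
    · simp [D.isCons, Computability.encodeBool]
  | cons a b =>
    obtain ⟨q2, s2⟩ := clr_does (tm := tm0) (Γ := BΓ) K5.a
      (st (a.enc ++ b.enc) [] [] [] []) (update q .a (some true))
    obtain ⟨q3, s3⟩ := pushList_does (tm := tm0) (Γ := BΓ) K5.e [true] (st [] [] [] [] [])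
      q2
    simp only [st_a, st_b, st_c, st_d, st_e, upd_a, upd_b, upd_c, upd_d, upd_e, D.enc,
      List.head?_cons, List.tail_cons, List.append_nil, List.map_id, List.reverse_reverse,
      List.length_reverse, cond_false, List.nil_append] at s1 s2 s3
    refine ⟨q3, ((s1.seq (RunsIn.ite_true (by simp) (s2.seq s3))).mono ?_).to ?_⟩
    · simp only [timeP, Polynomial.eval_add, Polynomial.eval_mul, Polynomial.eval_X,
        Polynomial.eval_ofNat, D.enc, List.length_cons, List.length_append, List.length_nil]
      omega
    · simp [D.isCons, Computability.encodeBool]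

theorem Poly.const {α β : Type} (ea : α → List Bool) (eb : β → List Bool) (b : β) :
    Poly ea eb (fun _ => b) := by
  let prog : Cmd tm0 BΓ (Reg BΓ) :=
    .seq (clr .a) (pushList .e (eb b).reverse)
  let timeP : Polynomial ℕ := 2 * Polynomial.X + 2 + Polynomial.C ((eb b).length + 1)
  refine Poly.ofDoes5 prog timeP ?_
  intro x
  have s1 := clr_does (tm := tm0) (Γ := BΓ) K5.a (st (ea x) [] [] [] [])
  have s2 := pushList_does (tm := tm0) (Γ := BΓ) K5.e (eb b).reverse (st [] [] [] [] [])
  simp only [st_a, st_b, st_c, st_d, st_e, upd_a, upd_b, upd_c, upd_d, upd_e,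
      List.append_nil, List.reverse_reverse, List.length_reverse] at s1 s2
  refine (s1.seq s2).mono ?_
  simp only [timeP, Polynomial.eval_add, Polynomial.eval_mul, Polynomial.eval_X,
        Polynomial.eval_ofNat, Polynomial.eval_C]
  omega

theorem Poly.ident {α β : Type} (ea : α → List Bool) (eb : β → List Bool) (f : α → β)
    (h : ∀ a, eb (f a) = ea a) : Poly ea eb f := by
  obtain ⟨h1⟩ : Nonempty (TM2ComputableInPolyTime ea ea id) := ⟨idComputableInPolyTime ea⟩
  exact ⟨{ toTM2ComputableAux := h1.toTM2ComputableAux, time := h1.time,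
           outputsFun := fun a => by rw [h]; exact h1.outputsFun a }⟩

/-- Restriction of a polynomial time function along maps compatible with the encodings. -/
theorem Poly.restrict {α β α' β' αΓ βΓ : Type} {ea : α → List αΓ} {eb : β → List βΓ}
    {ea' : α' → List αΓ} {eb' : β' → List βΓ} {f : α → β} {f' : α' → β'} (h : Poly ea eb f)
    (i : α' → α) (h1 : ∀ a, ea (i a) = ea' a) (h2 : ∀ a, eb (f (i a)) = eb' (f' a)) :
    Poly ea' eb' f' := by
  obtain ⟨h⟩ := h
  exact ⟨{ toTM2ComputableAux := h.toTM2ComputableAux, time := h.time,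
           outputsFun := fun a => by rw [← h1, ← h2]; exact h.outputsFun (i a) }⟩

end Pool.Agent.PolyTime
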