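import Pool.Agent.PolyTime.Typed

set_option autoImplicit false
set_option linter.unusedSectionVars false
set_option linter.unusedSimpArgs false

namespace Pool.Agent.PolyTime

open Turing Function

section

variable {α β γ δ : Type} [ToD α] [ToD β] [ToD γ] [ToD δ]

theorem sz_le_length (l : List α) (M : ℕ) (h : ∀ a ∈ l, sz a ≤ M) :
    sz l ≤ l.length * (M + 1) + 1 := by
  induction l with
  | nil => simp
  | cons a l ih =>
    have h1 := h a (by simp)
    have h2 := ih (fun b hb => h b (by simp [hb]))
    rw [sz_cons, List.length_cons]
    have h3 : (l.length + 1) * (M + 1) = l.length * (M + 1) + (M + 1) := by ring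
    omega

theorem sz_append (l l' : List α) : sz (l ++ l') + 1 = sz l + sz l' := by
  induction l with
  | nil => simp; omega
  | cons a l ih => simp only [List.cons_append, sz_cons]; omega

theorem sz_reverse (l : List α) : sz l.reverse = sz l := by
  induction l with
  | nil => simp
  | cons a l ih =>
    have := sz_append l.reverse [a]
    simp only [List.reverse_cons, sz_cons, sz_nil] at this ⊢
    omega

/-- folding where the bound is given by an invariant on the size -/
theorem PF.foldl' {f : γ → β → α → β} {b : γ → β} {l : γ → List α}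
    (hf : PF (fun x : (γ × β) × α => f x.1.1 x.1.2 x.2)) (hb : PF b) (hl : PF l)
    (P : Polynomial ℕ)
    (hP : ∀ c (l' : List α), l' <+: l c → sz (l'.foldl (f c) (b c)) ≤ P.eval (sz c)) :
    PF (fun c => (l c).foldl (f c) (b c)) :=
  PF.foldl hf hb hl P (fun c i => hP c _ (List.take_prefix _ _))

theorem foldl_cons_eq (l : List α) (acc : List α) :
    l.foldl (fun acc a => a :: acc) acc = l.reverse ++ acc := by
  induction l generalizing acc with
  | nil => rfl
  | cons a l ih => simp [ih]

theorem sz_prefix {l' l : List α} (h : l' <+: l) : sz l' ≤ sz l := by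
  obtain ⟨t, rfl⟩ := h
  have := sz_append l' t
  have := sz_pos t
  omega

theorem PF.revAppend {f g : γ → List α} (hf : PF f) (hg : PF g) :
    PF (fun c => (f c).reverse ++ g c) := by
  obtain ⟨P, hP⟩ := hf.bound
  obtain ⟨Q, hQ⟩ := hg.bound
  have h : PF (fun c => (f c).foldl (fun acc a => a :: acc) (g c)) := by
    refine PF.foldl' (f := fun _ acc a => a :: acc) ?_ hg hf (P + Q) ?_
    · exact PF.id'.snd.cons PF.id'.fst.snd
    · intro c l' hl'
      rw [foldl_cons_eq]
      have h1 := sz_append l'.reverse (g c)
      have h2 := sz_reverse l'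
      have h3 := sz_prefix hl'
      have h4 := hP c
      have h5 := hQ c
      rw [Polynomial.eval_add]
      omega
  exact h.cast (fun c => by rw [foldl_cons_eq])

theorem PF.reverse {f : γ → List α} (hf : PF f) : PF (fun c => (f c).reverse) :=
  (hf.revAppend (PF.const [])).cast (fun c => by simp)

theorem PF.append {f g : γ → List α} (hf : PF f) (hg : PF g) :
    PF (fun c => f c ++ g c) :=
  (hf.reverse.revAppend hg).cast (fun c => by simp)

/-- iteration -/
theorem PF.iter {f : γ → β → β} {b : γ → β} {n : γ → ℕ}
    (hf : PF (fun x : γ × β => f x.1 x.2)) (hb : PF b) (hn : PF n) (P : Polynomial ℕ)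
    (hP : ∀ c, ∀ i ≤ n c, sz ((f c)^[i] (b c)) ≤ P.eval (sz c)) :
    PF (fun c => (f c)^[n c] (b c)) := by
  have hl : PF (fun c => List.replicate (n c) ()) := hn.cast (fun c => by
    change D.ofList ((List.replicate (n c) ()).map toD) = D.ofList (List.replicate (n c) .nil)
    simp)
  have key : ∀ (c : γ) (i : ℕ), (List.replicate i ()).foldl (fun b _ => f c b) (b c) =
      (f c)^[i] (b c) := by
    intro c i
    induction i with
    | zero => rfl
    | succ i ih =>
      rw [List.replicate_succ', List.foldl_append, ih, iterate_succ_apply']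
      rfl
  have h : PF (fun c => (List.replicate (n c) ()).foldl (fun b _ => f c b) (b c)) := by
    refine PF.foldl (f := fun c b _ => f c b) ?_ hb hl P ?_
    · exact hf.comp PF.id'.fst
    · intro c i
      rw [List.take_replicate, key]
      exact hP c _ (by omega)
  exact h.cast (fun c => by rw [key])

theorem foldl_map_eq (g : α → β) (l : List α) (acc : List β) :
    l.foldl (fun acc a => g a :: acc) acc = (l.map g).reverse ++ acc := by
  induction l generalizing acc with
  | nil => rfl
  | cons a l ih => simp [ih]

/-- **map** with an environment -/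
theorem PF.map {g : γ → α → β} {l : γ → List α} (hg : PF (fun x : γ × α => g x.1 x.2))
    (hl : PF l) : PF (fun c => (l c).map (g c)) := by
  obtain ⟨P, hP⟩ := hl.bound
  obtain ⟨Q, hQ⟩ := hg.bound
  have h : PF (fun c => (l c).foldl (fun acc a => g c a :: acc) []) := by
    refine PF.foldl' (f := fun c acc a => g c a :: acc) ?_ (PF.const []) hl
      (P * (Q.comp (Polynomial.X + P + 1) + 1) + 1) ?_
    · exact (hg.comp (PF.id'.fst.fst.pair PF.id'.snd)).cons PF.id'.fst.snd
    · intro c l' hl'
      rw [foldl_map_eq, List.append_nil, sz_reverse]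
      have h1 := sz_le_length (l'.map (g c)) ((Q.comp (Polynomial.X + P + 1)).eval (sz c)) (by
        intro b hb
        obtain ⟨a, ha, rfl⟩ := List.mem_map.1 hb
        have h2 := hQ (c, a)
        simp only [sz_pair] at h2
        refine h2.trans ?_
        rw [Polynomial.eval_comp]
        apply eval_mono
        have h3 : sz a < sz l' := sz_mem ha
        have h4 := sz_prefix hl'
        have h5 := hP c
        simp only [Polynomial.eval_add, Polynomial.eval_X, Polynomial.eval_one]
        omega)
      refine h1.trans ?_
      rw [List.length_map]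
      have h3 : l'.length ≤ P.eval (sz c) :=
        (length_le_sz l').trans ((sz_prefix hl').trans (hP c))
      simp only [Polynomial.eval_add, Polynomial.eval_mul, Polynomial.eval_one]
      have := Nat.mul_le_mul_right ((Q.comp (Polynomial.X + P + 1)).eval (sz c) + 1) h3
      omega
  exact h.reverse.cast (fun c => by rw [foldl_map_eq]; simp)

theorem foldl_flatten_eq (l : List (List α)) (acc : List α) :
    l.foldl (fun acc a => a.reverse ++ acc) acc = l.flatten.reverse ++ acc := by
  induction l generalizing acc with
  | nil => rfl
  | cons a l ih => simp [ih]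

theorem sz_flatten (l : List (List α)) : sz l.flatten ≤ sz l := by
  induction l with
  | nil => simp
  | cons a l ih =>
    have := sz_append a l.flatten
    simp only [List.flatten_cons, sz_cons]
    omega

theorem flatten_prefix {l' l : List (List α)} (h : l' <+: l) : l'.flatten <+: l.flatten := by
  obtain ⟨t, rfl⟩ := h
  simp

theorem PF.flatten {l : γ → List (List α)} (hl : PF l) : PF (fun c => (l c).flatten) := by
  obtain ⟨P, hP⟩ := hl.bound
  have h : PF (fun c => (l c).foldl (fun acc a => a.reverse ++ acc) []) := by
    refine PF.foldl' (f := fun _ acc a => a.reverse ++ acc) ?_ (PF.const []) hl P ?_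
    · exact PF.id'.snd.revAppend PF.id'.fst.snd
    · intro c l' hl'
      rw [foldl_flatten_eq, List.append_nil, sz_reverse]
      exact (sz_flatten l').trans ((sz_prefix hl').trans (hP c))
  exact h.reverse.cast (fun c => by rw [foldl_flatten_eq]; simp)

/-- **flatMap** with an environment -/
theorem PF.flatMap {g : γ → α → List β} {l : γ → List α}
    (hg : PF (fun x : γ × α => g x.1 x.2)) (hl : PF l) : PF (fun c => (l c).flatMap (g c)) :=
  (hg.map hl).flatten

theorem PF.any {g : γ → α → Bool} {l : γ → List α} (hg : PF (fun x : γ × α => g x.1 x.2))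
    (hl : PF l) : PF (fun c => (l c).any (g c)) := by
  have h : PF (fun c => (l c).foldl (fun acc a => acc || g c a) false) := by
    refine PF.foldl' (f := fun c acc a => acc || g c a) ?_ (PF.const false) hl 3 ?_
    · exact PF.id'.fst.snd.or (hg.comp (PF.id'.fst.fst.pair PF.id'.snd))
    · intro c l' _
      rw [Polynomial.eval_ofNat]
      exact sz_bool _
  refine h.cast (fun c => ?_)
  congr 1
  have key : ∀ (l : List α) (acc : Bool), l.foldl (fun acc a => acc || g c a) acc =
      (acc || l.any (g c)) := by
    intro l
    induction l with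
    | nil => intro acc; simp
    | cons a l ih => intro acc; simp [ih, Bool.or_assoc]
  rw [key]
  simp

theorem PF.all {g : γ → α → Bool} {l : γ → List α} (hg : PF (fun x : γ × α => g x.1 x.2))
    (hl : PF l) : PF (fun c => (l c).all (g c)) := by
  have h := (PF.any (g := fun c a => !g c a) hg.not hl).not
  refine h.cast (fun c => ?_)
  congr 1
  induction (l c) with
  | nil => rfl
  | cons a l ih => simp [ih]

theorem PF.filter {g : γ → α → Bool} {l : γ → List α} (hg : PF (fun x : γ × α => g x.1 x.2))
    (hl : PF l) : PF (fun c => (l c).filter (g c)) := by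
  have h : PF (fun c => (l c).flatMap (fun a => if g c a then [a] else [])) :=
    PF.flatMap (g := fun c a => if g c a then [a] else [])
      (hg.ite (PF.id'.snd.cons (PF.const [])) (PF.const [])) hl
  refine h.cast (fun c => ?_)
  congr 1
  induction (l c) with
  | nil => rfl
  | cons a l ih =>
    rw [List.flatMap_cons, ← ih, List.filter_cons]
    split <;> simp

theorem PF.length {l : γ → List α} (hl : PF l) : PF (fun c => (l c).length) := by
  have h : PF (fun c => (l c).map (fun _ => ())) := PF.map (g := fun _ _ => ()) (PF.const ()) hl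
  refine h.cast (fun c => ?_)
  change D.ofList (List.replicate _ D.nil) = D.ofList (List.map toD _)
  simp [List.map_const']

/-! ### natural numbers (unary) -/

theorem PF.add {f g : γ → ℕ} (hf : PF f) (hg : PF g) : PF (fun c => f c + g c) := by
  have h1 : PF (fun c => List.replicate (f c) ()) := hf.cast (fun c => by
    change D.ofList ((List.replicate (f c) ()).map toD) = D.ofList (List.replicate (f c) .nil)
    simp)
  have h2 : PF (fun c => List.replicate (g c) ()) := hg.cast (fun c => by
    change D.ofList ((List.replicate (g c) ()).map toD) = D.ofList (List.replicate (g c) .nil)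
    simp)
  exact (h1.append h2).length.cast (fun c => by simp)

theorem PF.sub {f g : γ → ℕ} (hf : PF f) (hg : PF g) : PF (fun c => f c - g c) := by
  obtain ⟨P, hP⟩ := hf.bound
  have key : ∀ (m n : ℕ), (fun x : ℕ => x - 1)^[n] m = m - n := by
    intro m n
    induction n with
    | zero => rfl
    | succ n ih => rw [iterate_succ_apply', ih]; omega
  have h : PF (fun c => (fun x : ℕ => x - 1)^[g c] (f c)) := by
    refine PF.iter (f := fun _ x => x - 1) PF.id'.snd.pred hf hg P ?_
    intro c i _
    rw [key]
    have := hP c
    simp only [sz_nat] at this ⊢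
    omega
  exact h.cast (fun c => by rw [key])

theorem PF.lt {f g : γ → ℕ} (hf : PF f) (hg : PF g) : PF (fun c => decide (f c < g c)) := by
  refine (hg.sub hf).isPos.cast (fun c => ?_)
  congr 1
  apply decide_eq_decide.2
  omega

theorem PF.le {f g : γ → ℕ} (hf : PF f) (hg : PF g) : PF (fun c => decide (f c ≤ g c)) := by
  refine (hg.lt hf).not.cast (fun c => ?_)
  congr 1
  rw [← decide_not]
  apply decide_eq_decide.2
  omega

theorem PF.natEq {f g : γ → ℕ} (hf : PF f) (hg : PF g) : PF (fun c => decide (f c = g c)) := by
  refine ((hf.le hg).and (hg.le hf)).cast (fun c => ?_)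
  congr 1
  rw [← Bool.decide_and]
  apply decide_eq_decide.2
  omega

theorem PF.boolEq {f g : γ → Bool} (hf : PF f) (hg : PF g) : PF (fun c => f c == g c) := by
  refine (hf.ite hg hg.not).cast (fun c => ?_)
  cases f c <;> cases g c <;> rfl

theorem PF.mul {f g : γ → ℕ} (hf : PF f) (hg : PF g) : PF (fun c => f c * g c) := by
  obtain ⟨P, hP⟩ := hf.bound
  obtain ⟨Q, hQ⟩ := hg.bound
  have key : ∀ (m n : ℕ), (fun x : ℕ => x + n)^[m] 0 = m * n := by
    intro m n
    induction m with
    | zero => simp
    | succ m ih => rw [iterate_succ_apply', ih]; ring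
  have h : PF (fun c => (fun x : ℕ => x + g c)^[f c] 0) := by
    refine PF.iter (f := fun c x => x + g c) (PF.id'.snd.add (hg.comp PF.id'.fst))
      (PF.const 0) hf (2 * (P * Q) + 1) ?_
    intro c i hi
    rw [key]
    have h1 := hP c
    have h2 := hQ c
    simp only [sz_nat] at h1 h2 ⊢
    simp only [Polynomial.eval_add, Polynomial.eval_mul, Polynomial.eval_ofNat,
      Polynomial.eval_one]
    have : i * g c ≤ P.eval (sz c) * Q.eval (sz c) := Nat.mul_le_mul (by omega) (by omega)
    omega
  exact h.cast (fun c => by rw [key])

/-- enumerate a list -/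
theorem foldl_idx (l : List α) (k : ℕ) (acc : List (α × ℕ)) :
    l.foldl (fun s a => (s.1 + 1, (a, s.1) :: s.2)) (k, acc) =
      (k + l.length, (l.zipIdx k).reverse ++ acc) := by
  induction l generalizing k acc with
  | nil => simp
  | cons a l ih =>
    rw [List.foldl_cons, ih]
    simp only [List.zipIdx_cons, List.reverse_cons, List.append_assoc, List.singleton_append,
      List.length_cons, Prod.mk.injEq, and_true]
    omega

theorem sz_zipIdx (l : List α) (k : ℕ) :
    sz (l.zipIdx k) ≤ sz l + l.length * (2 * (k + l.length) + 2) := by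
  induction l generalizing k with
  | nil => simp
  | cons a l ih =>
    have := ih (k + 1)
    simp only [List.zipIdx_cons, sz_cons, sz_pair, sz_nat, List.length_cons]
    have e1 : (l.length + 1) * (2 * (k + (l.length + 1)) + 2) =
      l.length * (2 * (k + 1 + l.length) + 2) + (2 * (k + (l.length + 1)) + 2) := by ring
    omega

theorem PF.zipIdx {l : γ → List α} (hl : PF l) : PF (fun c => (l c).zipIdx) := by
  obtain ⟨P, hP⟩ := hl.bound
  have h : PF (fun c => (l c).foldl (fun s a => (s.1 + 1, (a, s.1) :: s.2))
      ((0 : ℕ), ([] : List (α × ℕ)))) := by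
    refine PF.foldl' (f := fun _ s a => (s.1 + 1, (a, s.1) :: s.2)) ?_ (PF.const _) hl
      (2 * P + 1 + (P + P * (2 * P + 2)) + 1) ?_
    · exact PF.pair PF.id'.fst.snd.fst.succ
        ((PF.id'.snd.pair PF.id'.fst.snd.fst).cons PF.id'.fst.snd.snd)
    · intro c l' hl'
      rw [foldl_idx, List.append_nil, sz_pair, sz_reverse]
      have h1 := sz_zipIdx l' 0
      have h2 := sz_prefix hl'
      have h3 := length_le_sz l'
      have h4 := hP c
      simp only [sz_nat, Nat.zero_add] at h1 ⊢
      simp only [Polynomial.eval_add, Polynomial.eval_mul, Polynomial.eval_ofNat,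
        Polynomial.eval_one]
      have h5 : l'.length * (2 * l'.length + 2) ≤
          P.eval (sz c) * (2 * P.eval (sz c) + 2) :=
        Nat.mul_le_mul (by omega) (by omega)
      omega
  exact h.snd.reverse.cast (fun c => by rw [foldl_idx]; simp)

theorem PF.range {n : γ → ℕ} (hn : PF n) : PF (fun c => List.range (n c)) := by
  have hl : PF (fun c => List.replicate (n c) ()) := hn.cast (fun c => by
    change D.ofList ((List.replicate (n c) ()).map toD) = D.ofList (List.replicate (n c) .nil)
    simp)
  have h := PF.map (g := fun (_ : γ) (x : Unit × ℕ) => x.2) PF.id'.snd.snd hl.zipIdx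
  refine h.cast (fun c => ?_)
  congr 1
  simp [List.zipIdx_eq_zip_range', List.range_eq_range', List.map_snd_zip]

end

end Pool.Agent.PolyTime
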