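import Pool.Agent.PolyTime.Basic

set_option autoImplicit false
set_option linter.unusedSectionVars false
set_option linter.unusedSimpArgs false

namespace Pool.Agent.PolyTime

open Turing Function

section

variable {ι : Type} [DecidableEq ι] {tm : ι → FinTM2} {K : Type} [DecidableEq K]
  {Γ : K → Type} [∀ k, Inhabited (Γ k)]

/-- one register per stack -/
abbrev Reg (Γ : K → Type) : Type := ∀ k, Option (Γ k)

/-- bounded running time -/
def RunsIn {Q : Type} (c : Cmd tm Γ Q) (n : ℕ) (q : Q) (S : ∀ k, List (Γ k)) (q' : Q)
    (S' : ∀ k, List (Γ k)) : Prop := ∃ m ≤ n, Run c m q S q' S'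

theorem RunsIn.mono {Q : Type} {c : Cmd tm Γ Q} {m n : ℕ} {q q' : Q} {S S' : ∀ k, List (Γ k)}
    (h : RunsIn c m q S q' S') (hmn : m ≤ n) : RunsIn c n q S q' S' := by
  obtain ⟨k, hk, hr⟩ := h
  exact ⟨k, hk.trans hmn, hr⟩

theorem RunsIn.seq {Q : Type} {a b : Cmd tm Γ Q} {m n : ℕ} {q q' q'' : Q}
    {S S' S'' : ∀ k, List (Γ k)} (h1 : RunsIn a m q S q' S') (h2 : RunsIn b n q' S' q'' S'') :
    RunsIn (.seq a b) (m + n) q S q'' S'' := by
  obtain ⟨k, hk, hr⟩ := h1
  obtain ⟨l, hl, hs⟩ := h2
  exact ⟨k + l, by omega, Run.seq hr hs⟩

theorem RunsIn.skip {Q : Type} (q : Q) (S : ∀ k, List (Γ k)) :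
    RunsIn (.skip : Cmd tm Γ Q) 1 q S q S := ⟨1, le_rfl, Run.skip _ _⟩

theorem RunsIn.ite_true {Q : Type} {p : Q → Bool} {a b : Cmd tm Γ Q} {n : ℕ} {q q' : Q}
    {S S' : ∀ k, List (Γ k)} (hp : p q = true) (h : RunsIn a n q S q' S') :
    RunsIn (.ite p a b) (n + 1) q S q' S' := by
  obtain ⟨k, hk, hr⟩ := h
  exact ⟨k + 1, by omega, Run.ite_true hp hr⟩

theorem RunsIn.ite_false {Q : Type} {p : Q → Bool} {a b : Cmd tm Γ Q} {n : ℕ} {q q' : Q}
    {S S' : ∀ k, List (Γ k)} (hp : p q = false) (h : RunsIn b n q S q' S') :
    RunsIn (.ite p a b) (n + 1) q S q' S' := by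
  obtain ⟨k, hk, hr⟩ := h
  exact ⟨k + 1, by omega, Run.ite_false hp hr⟩

theorem RunsIn.loop_false {Q : Type} {p : Q → Bool} {a : Cmd tm Γ Q} {q : Q}
    {S : ∀ k, List (Γ k)} (hp : p q = false) : RunsIn (.loop p a) 1 q S q S :=
  ⟨1, le_rfl, Run.loop_false hp⟩

theorem RunsIn.loop_true {Q : Type} {p : Q → Bool} {a : Cmd tm Γ Q} {m n : ℕ} {q q' q'' : Q}
    {S S' S'' : ∀ k, List (Γ k)} (hp : p q = true) (h1 : RunsIn a m q S q' S')
    (h2 : RunsIn (.loop p a) n q' S' q'' S'') : RunsIn (.loop p a) (m + n + 1) q S q'' S'' := by
  obtain ⟨k, hk, hr⟩ := h1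
  obtain ⟨l, hl, hs⟩ := h2
  exact ⟨k + l + 1, by omega, Run.loop_true hp hr hs⟩

/-- pop into the register of the stack -/
def popR (k : K) : Cmd tm Γ (Reg Γ) := .pop k (fun q s => update q k s)

theorem popR_run (k : K) (q : Reg Γ) (S : ∀ k, List (Γ k)) :
    RunsIn (popR k : Cmd tm Γ (Reg Γ)) 1 q S (update q k (S k).head?) (update S k (S k).tail) :=
  ⟨1, le_rfl, Run.pop k _ q S⟩

/-- push a symbol computed from the registers -/
def pushR (k : K) (f : Reg Γ → Γ k) : Cmd tm Γ (Reg Γ) := .push k f

theorem pushR_run (k : K) (f : Reg Γ → Γ k) (q : Reg Γ) (S : ∀ k, List (Γ k)) :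
    RunsIn (pushR k f : Cmd tm Γ (Reg Γ)) 1 q S q (update S k (f q :: S k)) :=
  ⟨1, le_rfl, Run.push k _ q S⟩

/-- move the whole stack `a` to `b` (reversing it) -/
def mv (a b : K) (g : Γ a → Γ b) : Cmd tm Γ (Reg Γ) :=
  .seq (popR a) (.loop (fun q => (q a).isSome)
    (.seq (pushR b (fun q => g ((q a).getD default))) (popR a)))

theorem mv_loop {a b : K} (hab : a ≠ b) (g : Γ a → Γ b) (q : Reg Γ) (S : ∀ k, List (Γ k))
    (w : List (Γ a)) (u : List (Γ b)) :
    RunsIn (.loop (fun q => (q a).isSome)
      (.seq (pushR b (fun q => g ((q a).getD default))) (popR a)) : Cmd tm Γ (Reg Γ))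
      (3 * w.length + 1) (update q a w.head?) (update (update S a w.tail) b u) (update q a none)
      (update (update S a []) b ((w.map g).reverse ++ u)) := by
  induction w generalizing u with
  | nil =>
    exact (RunsIn.loop_false (by simp)).mono (by simp)
  | cons x w ih =>
    have h1 := pushR_run (tm := tm) b (fun q => g ((q a).getD default))
      (update q a (x :: w).head?) (update (update S a (x :: w).tail) b u)
    have h2 := popR_run (tm := tm) a (update q a (x :: w).head?)
      (update (update (update S a (x :: w).tail) b u) b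
        (g (((update q a (x :: w).head?) a).getD default) ::
          (update (update S a (x :: w).tail) b u) b))
    have h3 := ih (g x :: u)
    refine (RunsIn.loop_true (by simp) (h1.seq h2) ?_).mono (n := 3 * (x :: w).length + 1)
      (m := (1 + 1) + (3 * w.length + 1) + 1) (by simp only [List.length_cons]; omega)
    have e1 : (update (update q a (x :: w).head?) a
        (((update (update (update S a (x :: w).tail) b u) b
        (g (((update q a (x :: w).head?) a).getD default) ::
          (update (update S a (x :: w).tail) b u) b)) a).head?)) = update q a w.head? := by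
      rw [update_idem]
      congr 1
      rw [update_of_ne hab, update_of_ne hab, update_self]
      simp
    have e2 : (update (update (update (update S a (x :: w).tail) b u) b
        (g (((update q a (x :: w).head?) a).getD default) ::
          (update (update S a (x :: w).tail) b u) b)) a
        ((update (update (update S a (x :: w).tail) b u) b
        (g (((update q a (x :: w).head?) a).getD default) ::
          (update (update S a (x :: w).tail) b u) b)) a).tail) =
        update (update S a w.tail) b (g x :: u) := by
      funext k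
      by_cases h : k = a
      · subst h
        simp [hab]
      · by_cases h' : k = b
        · subst h'
          simp [h]
        · simp [h, h']
    rw [e1, e2]
    simpa using h3

theorem mv_run {a b : K} (hab : a ≠ b) (g : Γ a → Γ b) (q : Reg Γ) (S : ∀ k, List (Γ k)) :
    RunsIn (mv a b g : Cmd tm Γ (Reg Γ)) (3 * (S a).length + 2) q S (update q a none)
      (update (update S a []) b (((S a).map g).reverse ++ S b)) := by
  have h1 := popR_run (tm := tm) a q S
  have h2 := mv_loop (tm := tm) hab g q S (S a) (S b)
  have e : update (update S a (S a).tail) b (S b) = update S a (S a).tail := by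
    funext k
    by_cases h : k = b
    · subst h
      simp [hab.symm]
    · simp [h]
  rw [e] at h2
  exact (h1.seq h2).mono (by omega)

/-- move the whole stack `a` to `b` and `c` (reversing it) -/
def mv2 (a b c : K) (g : Γ a → Γ b) (h : Γ a → Γ c) : Cmd tm Γ (Reg Γ) :=
  .seq (popR a) (.loop (fun q => (q a).isSome)
    (.seq (pushR b (fun q => g ((q a).getD default)))
      (.seq (pushR c (fun q => h ((q a).getD default))) (popR a))))

theorem mv2_loop {a b c : K} (hab : a ≠ b) (hac : a ≠ c) (hbc : b ≠ c) (g : Γ a → Γ b)
    (g' : Γ a → Γ c) (q : Reg Γ) (S : ∀ k, List (Γ k))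
    (w : List (Γ a)) (u : List (Γ b)) (u' : List (Γ c)) :
    RunsIn (.loop (fun q => (q a).isSome)
      (.seq (pushR b (fun q => g ((q a).getD default)))
      (.seq (pushR c (fun q => g' ((q a).getD default))) (popR a))) : Cmd tm Γ (Reg Γ))
      (4 * w.length + 1) (update q a w.head?) (update (update (update S a w.tail) b u) c u')
      (update q a none)
      (update (update (update S a []) b ((w.map g).reverse ++ u)) c ((w.map g').reverse ++ u')) := by
  induction w generalizing u u' with
  | nil =>
    exact (RunsIn.loop_false (by simp)).mono (by simp)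
  | cons x w ih =>
    set q1 := update q a (x :: w).head? with hq1
    set S1 := update (update (update S a (x :: w).tail) b u) c u' with hS1
    have h1 := pushR_run (tm := tm) b (fun q => g ((q a).getD default)) q1 S1
    set S2 := update S1 b (g ((q1 a).getD default) :: S1 b) with hS2
    have h2 := pushR_run (tm := tm) c (fun q => g' ((q a).getD default)) q1 S2
    set S3 := update S2 c (g' ((q1 a).getD default) :: S2 c) with hS3
    have h3 := popR_run (tm := tm) a q1 S3
    have h4 := ih (g x :: u) (g' x :: u')
    refine (RunsIn.loop_true (by simp [hq1]) (h1.seq (h2.seq h3)) ?_).mono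
      (n := 4 * (x :: w).length + 1)
      (m := (1 + (1 + 1)) + (4 * w.length + 1) + 1) (by simp only [List.length_cons]; omega)
    have e1 : update q1 a (S3 a).head? = update q a w.head? := by
      rw [hq1, update_idem, hS3, hS2, hS1]
      simp [hab, hac, hbc]
    have e2 : update S3 a (S3 a).tail = update (update (update S a w.tail) b (g x :: u)) c
        (g' x :: u') := by
      rw [hS3, hS2, hS1, hq1]
      funext k
      by_cases h : k = a
      · subst h
        simp [hab, hac]
      · by_cases h' : k = b
        · subst h'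
          simp [h, hbc]
        · by_cases h'' : k = c
          · subst h''
            simp [h, h']
          · simp [h, h', h'']
    rw [e1, e2]
    simpa using h4

theorem mv2_run {a b c : K} (hab : a ≠ b) (hac : a ≠ c) (hbc : b ≠ c) (g : Γ a → Γ b)
    (g' : Γ a → Γ c) (q : Reg Γ) (S : ∀ k, List (Γ k)) :
    RunsIn (mv2 a b c g g' : Cmd tm Γ (Reg Γ)) (4 * (S a).length + 2) q S (update q a none)
      (update (update (update S a []) b (((S a).map g).reverse ++ S b)) c
        (((S a).map g').reverse ++ S c)) := by
  have h1 := popR_run (tm := tm) a q S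
  have h2 := mv2_loop (tm := tm) hab hac hbc g g' q S (S a) (S b) (S c)
  have e : update (update (update S a (S a).tail) b (S b)) c (S c) = update S a (S a).tail := by
    funext k
    by_cases h : k = b
    · subst h
      simp [hab.symm, hbc]
    · by_cases h' : k = c
      · subst h'
        simp [hac.symm]
      · simp [h, h']
  rw [e] at h2
  exact (h1.seq h2).mono (by omega)

/-- empty the stack `a` -/
def clr (a : K) : Cmd tm Γ (Reg Γ) :=
  .seq (popR a) (.loop (fun q => (q a).isSome) (popR a))

theorem clr_run (a : K) (q : Reg Γ) (S : ∀ k, List (Γ k)) :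
    RunsIn (clr a : Cmd tm Γ (Reg Γ)) (2 * (S a).length + 2) q S (update q a none)
      (update S a []) := by
  have key : ∀ w : List (Γ a), RunsIn (.loop (fun q => (q a).isSome) (popR a) :
      Cmd tm Γ (Reg Γ)) (2 * w.length + 1) (update q a w.head?) (update S a w.tail)
      (update q a none) (update S a []) := by
    intro w
    induction w with
    | nil => exact (RunsIn.loop_false (by simp)).mono (by simp)
    | cons x w ih =>
      have h1 := popR_run (tm := tm) a (update q a (x :: w).head?) (update S a (x :: w).tail)
      refine (RunsIn.loop_true (by simp) h1 ?_).mono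
        (n := 2 * (x :: w).length + 1)
        (m := 1 + (2 * w.length + 1) + 1) (by simp only [List.length_cons]; omega)
      simpa using ih
  have h1 := popR_run (tm := tm) a q S
  exact (h1.seq (key (S a))).mono (by omega)

/-- push a constant string (its last symbol ends up on top) -/
def pushList (k : K) : List (Γ k) → Cmd tm Γ (Reg Γ)
  | [] => .skip
  | x :: l => .seq (pushR k (fun _ => x)) (pushList k l)

theorem pushList_run (k : K) (l : List (Γ k)) (q : Reg Γ) (S : ∀ k, List (Γ k)) :
    RunsIn (pushList k l : Cmd tm Γ (Reg Γ)) (l.length + 1) q S q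
      (update S k (l.reverse ++ S k)) := by
  induction l generalizing S with
  | nil =>
    have h := RunsIn.skip (tm := tm) q S
    simpa [pushList] using h
  | cons x l ih =>
    have h1 := pushR_run (tm := tm) k (fun _ => x) q S
    have h2 := ih (update S k (x :: S k))
    have h3 := h1.seq h2
    simp only [update_self, update_idem] at h3
    have h4 := h3.mono (n := (x :: l).length + 1) (by simp only [List.length_cons]; omega)
    simpa [pushList] using h4

/-- call a subroutine -/
theorem call_run {Q : Type} {i : ι} {kin kout : K} {fin : Γ kin → (tm i).Γ (tm i).k₀}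
    {fout : (tm i).Γ (tm i).k₁ → Γ kout} {N : ℕ} {q : Q} {S : ∀ k, List (Γ k)}
    {out : List ((tm i).Γ (tm i).k₁)}
    (h : ∃ n ≤ N, Steps (tm i).step n (initList (tm i) ((S kin).map fin).reverse)
        (haltList (tm i) out)) :
    RunsIn (.call i kin kout fin fout : Cmd tm Γ Q) (N + (S kin).length + out.length + 2) q S q
      (update (update S kin []) kout ((out.map fout).reverse ++ (update S kin []) kout)) := by
  obtain ⟨n, hn, hs⟩ := h
  exact ⟨n + (S kin).length + out.length + 2, by omega, Run.call hs⟩

end

end Pool.Agent.PolyTime
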