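import Pool.Agent.PolyTime.Data

set_option autoImplicit false
set_option linter.unusedSectionVars false
set_option linter.unusedSimpArgs false

namespace Pool.Agent.PolyTime

open Turing Function

section

variable {ι : Type} [DecidableEq ι] {tm : ι → FinTM2} {K : Type} [DecidableEq K]
  {Γ : K → Type} [∀ k, Inhabited (Γ k)]

/-- push the symbols `j, j+1, …, j+m-1` of a string that depends on the registers -/
def pushFrom (k : K) (g : Reg Γ → List (Γ k)) (j : ℕ) : ℕ → Cmd tm Γ (Reg Γ)
  | 0 => .skip
  | m + 1 => .seq (.ite (fun q => decide (j < (g q).length))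
      (pushR k (fun q => (g q).getD j default)) .skip) (pushFrom k g (j + 1) m)

theorem pushFrom_run (k : K) (g : Reg Γ → List (Γ k)) (q : Reg Γ) (m : ℕ) :
    ∀ (j : ℕ) (S : ∀ k, List (Γ k)),
    RunsIn (pushFrom k g j m : Cmd tm Γ (Reg Γ)) (2 * m + 1) q S q
      (update S k ((((g q).drop j).take m).reverse ++ S k)) := by
  induction m with
  | zero =>
    intro j S
    have h := RunsIn.skip (tm := tm) q S
    simpa [pushFrom] using h
  | succ m ih =>
    intro j S
    by_cases hj : j < (g q).length
    · have h1 := pushR_run (tm := tm) k (fun q => (g q).getD j default) q S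
      have h2 := ih (j + 1) (update S k ((g q).getD j default :: S k))
      have h3 : RunsIn (.ite (fun q => decide (j < (g q).length))
        (pushR k (fun q => (g q).getD j default)) .skip : Cmd tm Γ (Reg Γ)) 2 q S q
          (update S k ((g q).getD j default :: S k)) :=
        RunsIn.ite_true (by simpa using hj) h1
      refine ((h3.seq h2).mono (by omega)).to ?_
      simp only [update_self, update_idem]
      congr 1
      rw [List.drop_eq_getElem_cons hj, List.take_succ_cons, List.reverse_cons,
        List.append_assoc, List.singleton_append]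
      congr 2
      simp [hj]
    · have h1 := RunsIn.skip (tm := tm) q S
      have h2 := ih (j + 1) S
      have h3 : RunsIn (.ite (fun q => decide (j < (g q).length))
        (pushR k (fun q => (g q).getD j default)) .skip : Cmd tm Γ (Reg Γ)) 2 q S q S :=
        RunsIn.ite_false (by simpa using hj) h1
      refine ((h3.seq h2).mono (by omega)).to ?_
      have e1 : (g q).drop j = [] := List.drop_eq_nil_iff.2 (by omega)
      have e2 : (g q).drop (j + 1) = [] := List.drop_eq_nil_iff.2 (by omega)
      rw [e1, e2]
      simp

theorem pushFrom_zero_run (k : K) (g : Reg Γ → List (Γ k)) (q : Reg Γ) (m : ℕ)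
    (hm : (g q).length ≤ m) (S : ∀ k, List (Γ k)) :
    RunsIn (pushFrom k g 0 m : Cmd tm Γ (Reg Γ)) (2 * m + 1) q S q
      (update S k ((g q).reverse ++ S k)) := by
  refine (pushFrom_run k g q m 0 S).to ?_
  rw [List.drop_zero, List.take_of_length_le hm]

end

/-- a state given by five stacks -/
def sg {A B C : Type} (a b : List A) (c : List B) (d e : List C) : ∀ k, List (compΓ A B C k)
  | .a => a
  | .b => b
  | .c => c
  | .d => d
  | .e => e

section sg
variable {A B C : Type} (a b x : List A) (c y : List B) (d e z : List C)
@[simp] theorem sg_a : sg a b c d e .a = a := rfl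
@[simp] theorem sg_b : sg a b c d e .b = b := rfl
@[simp] theorem sg_c : sg a b c d e .c = c := rfl
@[simp] theorem sg_d : sg a b c d e .d = d := rfl
@[simp] theorem sg_e : sg a b c d e .e = e := rfl
@[simp] theorem sgu_a : update (sg a b c d e) .a x = sg x b c d e := by
  funext k; cases k <;> rfl
@[simp] theorem sgu_b : update (sg a b c d e) .b x = sg a x c d e := by
  funext k; cases k <;> rfl
@[simp] theorem sgu_c : update (sg a b c d e) .c y = sg a b y d e := by
  funext k; cases k <;> rfl
@[simp] theorem sgu_d : update (sg a b c d e) .d z = sg a b c z e := by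
  funext k; cases k <;> rfl
@[simp] theorem sgu_e : update (sg a b c d e) .e z = sg a b c d z := by
  funext k; cases k <;> rfl
theorem sg_nil : (fun _ => [] : ∀ k, List (compΓ A B C k)) = sg [] [] [] [] [] := by
  funext k; cases k <;> rfl
end sg

/-- **Homomorphisms** of strings, followed by a terminator. -/
theorem Poly.flatMap {A B : Type} [Fintype A] [Inhabited A] [Fintype B] [Inhabited B]
    (h : A → List B) (t : List B) :
    Poly (id : List A → List A) (id : List B → List B) (fun w => w.flatMap h ++ t) := by
  classical
  let m : ℕ := ∑ x : A, (h x).length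
  have hm : ∀ x, (h x).length ≤ m := fun x =>
    Finset.single_le_sum (f := fun x => (h x).length) (fun _ _ => Nat.zero_le _)
      (Finset.mem_univ x)
  let body : Cmd tm0 (compΓ A B B) (Reg (compΓ A B B)) :=
    .seq (pushFrom .c (fun q => h ((q .a).getD default)) 0 m) (popR .a)
  let prog : Cmd tm0 (compΓ A B B) (Reg (compΓ A B B)) :=
    .seq (popR .a) (.seq (.loop (fun q => (q .a).isSome) body)
      (.seq (pushList .c t) (mv .c .e id)))
  have hloop : ∀ (w : List A) (o : List B) (q : Reg (compΓ A B B)), q .a = w.head? →
      ∃ q', RunsIn (.loop (fun q => (q .a).isSome) body) (w.length * (2 * m + 3) + 1) q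
        (sg w.tail [] o [] []) q' (sg [] [] ((w.flatMap h).reverse ++ o) [] []) := by
    intro w
    induction w with
    | nil =>
      intro o q hq
      refine ⟨q, ((RunsIn.loop_false (p := fun q : Reg (compΓ A B B) => (q .a).isSome) ?_).mono
        (by omega)).to ?_⟩
      · simp [hq]
      · simp
    | cons x w ih =>
      intro o q hq
      simp only [List.head?_cons] at hq
      have s1 := pushFrom_zero_run (tm := tm0) (Γ := compΓ A B B) K5.c
        (fun q => h ((q .a).getD default)) q m (hm _) (sg w [] o [] [])
      have s2 := popR_run (tm := tm0) (Γ := compΓ A B B) K5.a q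
        (sg w [] ((h x).reverse ++ o) [] [])
      obtain ⟨q', s3⟩ := ih ((h x).reverse ++ o) (update q .a w.head?) (by simp)
      have e0 : (q .a).getD default = x := by rw [hq]; rfl
      rw [e0] at s1
      simp only [sg_a, sg_c, sgu_a, sgu_c] at s1 s2
      refine ⟨q', ?_⟩
      refine ((RunsIn.loop_true (p := fun q : Reg (compΓ A B B) => (q .a).isSome)
        (by simp [hq]) (s1.seq s2) s3).mono ?_).to ?_
      · simp only [List.length_cons]
        ring_nf
        omega
      · simp
  let timeP : Polynomial ℕ := 1 + ((Polynomial.X * Polynomial.C (2 * m + 3) + 1) +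
    (Polynomial.C (t.length + 1) + (3 * (Polynomial.X * Polynomial.C m +
      Polynomial.C t.length) + 2)))
  refine Poly.ofDoes prog .a .e (Equiv.refl A) (Equiv.refl B) timeP ?_
  intro w q
  have s1 := popR_run (tm := tm0) (Γ := compΓ A B B) K5.a q (sg w [] [] [] [])
  obtain ⟨q2, s2⟩ := hloop w [] (update q .a w.head?) (by simp)
  obtain ⟨q3, s3⟩ := pushList_does (tm := tm0) (Γ := compΓ A B B) K5.c t
    (sg [] [] ((w.flatMap h).reverse ++ []) [] []) q2
  obtain ⟨q4, s4⟩ := mv_does (tm := tm0) (Γ := compΓ A B B) (a := K5.c) (b := K5.e)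
    (by decide) id (sg [] [] (t.reverse ++ ((w.flatMap h).reverse ++ [])) [] []) q3
  simp only [sg_a, sg_c, sg_e, sgu_a, sgu_c, sgu_e] at s1 s2 s3 s4
  have hlen : ∀ w : List A, (w.flatMap h).length ≤ w.length * m := by
    intro w
    induction w with
    | nil => simp
    | cons x w ih =>
      rw [List.flatMap_cons, List.length_append, List.length_cons]
      have h1 := hm x
      have h2 : (w.length + 1) * m = w.length * m + m := by ring
      omega
  have e6 : (update (fun _ => []) K5.a (List.map (⇑(Equiv.refl A).symm) (id w)) :
      ∀ k, List (compΓ A B B k)) = sg w [] [] [] [] := by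
    rw [sg_nil]
    simp
  have e7 : (update (fun _ => []) K5.e (List.map (⇑(Equiv.refl B).symm)
      (id (w.flatMap h ++ t))) : ∀ k, List (compΓ A B B k)) =
      sg [] [] [] [] (w.flatMap h ++ t) := by
    rw [sg_nil]
    simp
  rw [e6, e7]
  refine ⟨q4, ((s1.seq (s2.seq (s3.seq s4))).mono ?_).to ?_⟩
  · have := hlen w
    simp only [timeP, Polynomial.eval_add, Polynomial.eval_mul, Polynomial.eval_X,
      Polynomial.eval_ofNat, Polynomial.eval_C, Polynomial.eval_one, id_eq,
      List.length_append, List.length_reverse, List.length_nil]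
    omega
  · simp

/-- trees for lists -/
def D.ofList : List D → D
  | [] => .nil
  | a :: l => .cons a (D.ofList l)

/-- trees for Booleans -/
def D.ofBool : Bool → D
  | false => .nil
  | true => .cons .nil .nil

/-- From raw strings to trees: any finite alphabet. -/
theorem Poly.toTree {A : Type} [Fintype A] [Inhabited A] (δ : A → D) :
    Poly (id : List A → List A) D.enc (fun w => D.ofList (w.map δ)) := by
  have h := Poly.flatMap (fun x : A => true :: (δ x).enc) [false]
  refine h.restrict (ea' := id) (f' := fun w => D.ofList (w.map δ)) id (fun _ => rfl) ?_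
  intro w
  induction w with
  | nil => rfl
  | cons x w ih =>
    simp only [id_eq] at ih
    simp [D.ofList, D.enc, ← ih]

/-- From trees to raw binary strings. -/
theorem Poly.ofTree : Poly (fun w : List Bool => (D.ofList (w.map D.ofBool)).enc)
    (id : List Bool → List Bool) id := by
  let body : Cmd tm0 BΓ (Reg BΓ) :=
    .seq (popR .a) (.seq (pushR .d (fun q => (q .a).getD false))
      (.seq (.ite (fun q => (q .a).getD false) (.seq (popR .a) (popR .a)) .skip) (popR .a)))
  let prog : Cmd tm0 BΓ (Reg BΓ) :=
    .seq (popR .a) (.seq (.loop (fun q => (q .a).getD false) body) (mv .d .e id))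
  have hloop : ∀ (w o : List Bool) (q : Reg BΓ),
      q .a = (D.ofList (w.map D.ofBool)).enc.head? →
      ∃ q', RunsIn (.loop (fun q => (q .a).getD false) body) (w.length * 7 + 1) q
        (st (D.ofList (w.map D.ofBool)).enc.tail [] [] o []) q'
        (st [] [] [] (w.reverse ++ o) []) := by
    intro w
    induction w with
    | nil =>
      intro o q hq
      refine ⟨q, ((RunsIn.loop_false (p := fun q : Reg BΓ => (q .a).getD false) ?_).mono
        (by omega)).to ?_⟩
      · simp [hq, D.ofList, D.enc]
      · simp [D.ofList, D.enc]
    | cons x w ih =>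
      intro o q hq
      set r := (D.ofList (w.map D.ofBool)).enc with hr
      have hr0 : r = r.head?.getD false :: r.tail := by
        rw [hr]
        cases w with
        | nil => rfl
        | cons y w => rfl
      have s1 := popR_run (tm := tm0) (Γ := BΓ) K5.a q
        (st ((D.ofBool x).enc ++ r) [] [] o [])
      set q1 := update q .a (some x) with hq1
      have s2 := pushR_run (tm := tm0) (Γ := BΓ) K5.d (fun q => (q .a).getD false) q1
        (st ((D.ofBool x).enc ++ r).tail [] [] o [])
      have hx : ((D.ofBool x).enc ++ r).head? = some x := by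
        cases x <;> rfl
      have hg : (q1 .a).getD false = x := by rw [hq1]; simp
      rw [hg] at s2
      simp only [st_a, st_d, upd_a, upd_d, hx, ← hq1] at s1 s2
      have s3 : ∃ q2, RunsIn (.ite (fun q => (q .a).getD false)
          (.seq (popR .a) (popR .a)) .skip : Cmd tm0 BΓ (Reg BΓ)) 3 q1
          (st ((D.ofBool x).enc ++ r).tail [] [] (x :: o) []) q2
          (st r [] [] (x :: o) []) := by
        cases x with
        | false =>
          refine ⟨q1, ((RunsIn.ite_false ?_ (RunsIn.skip _ _)).mono (by omega)).to ?_⟩
          · exact hg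
          · simp [D.ofBool, D.enc]
        | true =>
          have t1 := popR_run (tm := tm0) (Γ := BΓ) K5.a q1
            (st ((D.ofBool true).enc ++ r).tail [] [] (true :: o) [])
          simp only [st_a, st_d, upd_a, upd_d] at t1
          have t2 := popR_run (tm := tm0) (Γ := BΓ) K5.a
            (update q1 .a ((D.ofBool true).enc ++ r).tail.head?)
            (st ((D.ofBool true).enc ++ r).tail.tail [] [] (true :: o) [])
          simp only [st_a, st_d, upd_a, upd_d] at t2
          refine ⟨_, ((RunsIn.ite_true ?_ (t1.seq t2)).mono (by omega)).to ?_⟩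
          · exact hg
          · simp [D.ofBool, D.enc]
      obtain ⟨q2, s3⟩ := s3
      have s4 := popR_run (tm := tm0) (Γ := BΓ) K5.a q2 (st r [] [] (x :: o) [])
      simp only [st_a, st_d, upd_a, upd_d] at s4
      obtain ⟨q', s5⟩ := ih (x :: o) (update q2 .a r.head?) (by simp)
      have e1 : (D.ofList ((x :: w).map D.ofBool)).enc = true :: ((D.ofBool x).enc ++ r) := by
        simp [D.ofList, D.enc, hr]
      rw [e1] at hq ⊢
      refine ⟨q', ?_⟩
      refine ((RunsIn.loop_true (p := fun q : Reg BΓ => (q .a).getD false)
        (by simp [hq]) (s1.seq (s2.seq (s3.seq s4))) s5).mono ?_).to ?_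
      · simp only [List.length_cons]
        omega
      · simp
  have hlen : ∀ w : List Bool, w.length ≤ (D.ofList (w.map D.ofBool)).enc.length := by
    intro w
    induction w with
    | nil => simp
    | cons x w ih =>
      simp only [List.map_cons, D.ofList, D.enc, List.length_cons, List.length_append]
      omega
  let timeP : Polynomial ℕ := 1 + ((Polynomial.X * 7 + 1) + (3 * Polynomial.X + 2))
  refine Poly.ofDoes5 prog timeP ?_
  intro w q
  have s1 := popR_run (tm := tm0) (Γ := BΓ) K5.a q
    (st (D.ofList (w.map D.ofBool)).enc [] [] [] [])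
  obtain ⟨q2, s2⟩ := hloop w [] (update q .a (D.ofList (w.map D.ofBool)).enc.head?) (by simp)
  obtain ⟨q3, s3⟩ := mv_does (tm := tm0) (Γ := BΓ) (a := K5.d) (b := K5.e)
    (by decide) id (st [] [] [] (w.reverse ++ []) []) q2
  simp only [st_a, st_d, st_e, upd_a, upd_d, upd_e] at s1 s2 s3
  refine ⟨q3, ((s1.seq (s2.seq s3)).mono ?_).to ?_⟩
  · have := hlen w
    simp only [timeP, Polynomial.eval_add, Polynomial.eval_mul, Polynomial.eval_X,
      Polynomial.eval_ofNat, Polynomial.eval_C, Polynomial.eval_one, id_eq,
      List.length_append, List.length_reverse, List.length_nil]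
    omega
  · simp

end Pool.Agent.PolyTime
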