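import Pool.Agent.PolyTime.Lists

set_option autoImplicit false
set_option linter.unusedSectionVars false
set_option linter.unusedSimpArgs false

/-!
Sequential transducers run in polynomial time; lists over a finite alphabet can be converted from
the tree encoding to the raw encoding.
-/

namespace Pool.Agent.PolyTime

open Turing Function

/-- the output of a sequential transducer -/
def transd {A B S : Type} (δ : S → A → S) (out : S → A → List B) : S → List A → List B
  | _, [] => []
  | s, x :: w => out s x ++ transd δ out (δ s x) w

/-- alphabets for the transducer -/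
abbrev trΓ (A S B : Type) : K5 → Type
  | .a => A
  | .b => S
  | .c => B
  | .d => B
  | .e => B

instance trFin (A S B : Type) [Fintype A] [Fintype S] [Fintype B] (k : K5) :
    Fintype (trΓ A S B k) :=
  match k with
  | .a => inferInstanceAs (Fintype A)
  | .b => inferInstanceAs (Fintype S)
  | .c => inferInstanceAs (Fintype B)
  | .d => inferInstanceAs (Fintype B)
  | .e => inferInstanceAs (Fintype B)

instance trInh (A S B : Type) [Inhabited A] [Inhabited S] [Inhabited B] (k : K5) :
    Inhabited (trΓ A S B k) :=
  match k with
  | .a => inferInstanceAs (Inhabited A)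
  | .b => inferInstanceAs (Inhabited S)
  | .c => inferInstanceAs (Inhabited B)
  | .d => inferInstanceAs (Inhabited B)
  | .e => inferInstanceAs (Inhabited B)

/-- a state given by five stacks -/
def sr {A S B : Type} (a : List A) (b : List S) (c d e : List B) : ∀ k, List (trΓ A S B k)
  | .a => a
  | .b => b
  | .c => c
  | .d => d
  | .e => e

section sr
variable {A S B : Type} (a x : List A) (b y : List S) (c d e z : List B)
@[simp] theorem sr_a : sr a b c d e .a = a := rfl
@[simp] theorem sr_b : sr a b c d e .b = b := rfl
@[simp] theorem sr_c : sr a b c d e .c = c := rfl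
@[simp] theorem sr_d : sr a b c d e .d = d := rfl
@[simp] theorem sr_e : sr a b c d e .e = e := rfl
@[simp] theorem sru_a : update (sr a b c d e) .a x = sr x b c d e := by
  funext k; cases k <;> rfl
@[simp] theorem sru_b : update (sr a b c d e) .b y = sr a y c d e := by
  funext k; cases k <;> rfl
@[simp] theorem sru_c : update (sr a b c d e) .c z = sr a b z d e := by
  funext k; cases k <;> rfl
@[simp] theorem sru_d : update (sr a b c d e) .d z = sr a b c z e := by
  funext k; cases k <;> rfl
@[simp] theorem sru_e : update (sr a b c d e) .e z = sr a b c d z := by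
  funext k; cases k <;> rfl
theorem sr_nil : (fun _ => [] : ∀ k, List (trΓ A S B k)) = sr [] [] [] [] [] := by
  funext k; cases k <;> rfl
end sr

/-- **Sequential transducers** run in polynomial time. -/
theorem Poly.transduce {A B S : Type} [Fintype A] [Inhabited A] [Fintype B] [Inhabited B]
    [Fintype S] [Inhabited S] (δ : S → A → S) (out : S → A → List B) (s0 : S) :
    Poly (id : List A → List A) (id : List B → List B) (fun w => transd δ out s0 w) := by
  classical
  let m : ℕ := ∑ x : S × A, (out x.1 x.2).length
  have hm : ∀ s x, (out s x).length ≤ m := fun s x =>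
    Finset.single_le_sum (f := fun x : S × A => (out x.1 x.2).length) (fun _ _ => Nat.zero_le _)
      (Finset.mem_univ (s, x))
  let G := trΓ A S B
  let body : Cmd tm0 (trΓ A S B) (Reg (trΓ A S B)) :=
    .seq (pushFrom .c (fun q => out ((q .b).getD default) ((q .a).getD default)) 0 m)
      (.seq (.load (fun q => update q .b (some (δ ((q .b).getD default) ((q .a).getD default)))))
        (popR .a))
  let prog : Cmd tm0 (trΓ A S B) (Reg (trΓ A S B)) :=
    .seq (.load (fun q => update q .b (some s0))) (.seq (popR .a)
      (.seq (.loop (fun q => (q .a).isSome) body) (mv .c .e id)))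
  have hloop : ∀ (w : List A) (s : S) (o : List B) (q : Reg (trΓ A S B)), q .a = w.head? →
      q .b = some s →
      ∃ q', RunsIn (.loop (fun q => (q .a).isSome) body) (w.length * (2 * m + 4) + 1) q
        (sr w.tail [] o [] []) q' (sr [] [] ((transd δ out s w).reverse ++ o) [] []) := by
    intro w
    induction w with
    | nil =>
      intro s o q hq hs
      refine ⟨q, ((RunsIn.loop_false (p := fun q : Reg (trΓ A S B) => (q .a).isSome) ?_).mono
        (by omega)).to ?_⟩
      · simp [hq]
      · simp [transd]
    | cons x w ih =>
      intro s o q hq hs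
      simp only [List.head?_cons] at hq
      have s1 := pushFrom_zero_run (tm := tm0) (Γ := trΓ A S B) K5.c
        (fun q => out ((q .b).getD default) ((q .a).getD default)) q m (hm _ _) (sr w [] o [] [])
      have e0 : (q .a).getD default = x := by rw [hq]; rfl
      have e1 : (q .b).getD default = s := by rw [hs]; rfl
      rw [e0, e1] at s1
      have s2 : RunsIn (.load (fun q : Reg (trΓ A S B) => update q .b
          (some (δ ((q .b).getD default) ((q .a).getD default)))) :
            Cmd tm0 (trΓ A S B) (Reg (trΓ A S B))) 1 q
          (sr w [] ((out s x).reverse ++ o) [] []) (update q .b (some (δ s x)))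
          (sr w [] ((out s x).reverse ++ o) [] []) := by
        refine ⟨1, le_rfl, ?_⟩
        have h := Run.load (tm := tm0) (Γ := trΓ A S B) (fun q : Reg (trΓ A S B) => update q .b
          (some (δ ((q .b).getD default) ((q .a).getD default)))) q
          (sr w [] ((out s x).reverse ++ o) [] [])
        simp only [e0, e1] at h
        exact h
      have s3 := popR_run (tm := tm0) (Γ := trΓ A S B) K5.a (update q .b (some (δ s x)))
        (sr w [] ((out s x).reverse ++ o) [] [])
      obtain ⟨q', s4⟩ := ih (δ s x) ((out s x).reverse ++ o)
        (update (update q .b (some (δ s x))) .a w.head?) (by simp) (by simp)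
      simp only [sr_a, sr_c, sru_a, sru_c] at s1 s2 s3
      refine ⟨q', ?_⟩
      refine ((RunsIn.loop_true (p := fun q : Reg (trΓ A S B) => (q .a).isSome)
        (by simp [hq]) (s1.seq (s2.seq s3)) s4).mono ?_).to ?_
      · simp only [List.length_cons]
        ring_nf
        omega
      · simp [transd]
  let timeP : Polynomial ℕ := 1 + (1 + ((Polynomial.X * Polynomial.C (2 * m + 4) + 1) +
    (3 * (Polynomial.X * Polynomial.C m) + 2)))
  refine Poly.ofDoes prog .a .e (Equiv.refl A) (Equiv.refl B) timeP ?_
  intro w q
  have s0' : RunsIn (.load (fun q : Reg (trΓ A S B) => update q .b (some s0)) :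
      Cmd tm0 (trΓ A S B) (Reg (trΓ A S B))) 1 q
      (sr w [] [] [] []) (update q .b (some s0)) (sr w [] [] [] []) :=
    ⟨1, le_rfl, Run.load _ _ _⟩
  have s1 := popR_run (tm := tm0) (Γ := trΓ A S B) K5.a (update q .b (some s0))
    (sr w [] [] [] [])
  obtain ⟨q2, s2⟩ := hloop w s0 [] (update (update q .b (some s0)) .a w.head?) (by simp) (by simp)
  obtain ⟨q4, s4⟩ := mv_does (tm := tm0) (Γ := trΓ A S B) (a := K5.c) (b := K5.e)
    (by decide) id (sr [] [] ((transd δ out s0 w).reverse ++ []) [] []) q2
  simp only [sr_a, sr_c, sr_e, sru_a, sru_c, sru_e] at s1 s2 s4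
  have hlen : ∀ (w : List A) (s : S), (transd δ out s w).length ≤ w.length * m := by
    intro w
    induction w with
    | nil => intro s; simp [transd]
    | cons x w ih =>
      intro s
      rw [transd, List.length_append, List.length_cons]
      have h1 := hm s x
      have h2 : (w.length + 1) * m = w.length * m + m := by ring
      have h3 := ih (δ s x)
      omega
  have e6 : (update (fun _ => []) K5.a (List.map (⇑(Equiv.refl A).symm) (id w)) :
      ∀ k, List (trΓ A S B k)) = sr w [] [] [] [] := by
    rw [sr_nil]
    simp
  have e7 : (update (fun _ => []) K5.e (List.map (⇑(Equiv.refl B).symm)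
      (id (transd δ out s0 w))) : ∀ k, List (trΓ A S B k)) =
      sr [] [] [] [] (transd δ out s0 w) := by
    rw [sr_nil]
    simp
  rw [e6, e7]
  refine ⟨q4, ((s0'.seq (s1.seq (s2.seq s4))).mono ?_).to ?_⟩
  · have := hlen w s0
    simp only [timeP, Polynomial.eval_add, Polynomial.eval_mul, Polynomial.eval_X,
      Polynomial.eval_ofNat, Polynomial.eval_C, Polynomial.eval_one, id_eq,
      List.length_append, List.length_reverse, List.length_nil]
    omega
  · simp

/-! ### Decoding lists over a finite alphabet -/

section decode

variable {A : Type} (N : ℕ) (dec : ℕ → A)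

/-- the states of the decoder: `none` between two letters, `some (n, b)` inside a letter -/
abbrev DS (N : ℕ) : Type := Option (Fin (N + 1) × Bool)

/-- transitions -/
def dstep : DS N → Bool → DS N
  | none, true => some (0, false)
  | none, false => none
  | some (n, false), true => some (n, true)
  | some (_, false), false => none
  | some (n, true), _ => some (⟨min (n.1 + 1) N, by omega⟩, false)

/-- outputs -/
def dout : DS N → Bool → List A
  | some (n, false), false => [dec n.1]
  | _, _ => []

theorem transd_nat (k : ℕ) : ∀ (j : ℕ) (hj : j < N + 1) (r : List Bool), j + k ≤ N →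
    transd (dstep N) (dout N dec) (some (⟨j, hj⟩, false)) (en k ++ r) =
      dec (j + k) :: transd (dstep N) (dout N dec) none r := by
  induction k with
  | zero =>
    intro j hj r hk
    simp [en, D.enc, transd, dstep, dout]
  | succ k ih =>
    intro j hj r hk
    have e : en (k + 1) ++ r = true :: false :: (en k ++ r) := by
      simp [en, D.enc]
    rw [e]
    simp only [transd, dstep, dout, List.nil_append]
    have h1 : (⟨min (j + 1) N, by omega⟩ : Fin (N + 1)) = ⟨j + 1, by omega⟩ := by
      apply Fin.ext
      simp only
      omega
    rw [h1, ih (j + 1) (by omega) r (by omega)]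
    congr 2
    omega

theorem transd_list (cd : A → ℕ) (hcd : ∀ a, cd a ≤ N) (hdec : ∀ a, dec (cd a) = a)
    (w : List A) : transd (dstep N) (dout N dec) none (en (w.map cd)) = w := by
  induction w with
  | nil => simp [en, D.enc, transd, dstep, dout]
  | cons a w ih =>
    have e : en ((a :: w).map cd) = true :: (en (cd a) ++ en (w.map cd)) := by
      simp [en, D.enc]
    rw [e]
    simp only [transd, dstep, dout, List.nil_append]
    have h := transd_nat N dec (cd a) 0 (by omega) (en (w.map cd)) (by have := hcd a; omega)
    rw [Nat.zero_add, hdec, ih] at h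
    exact h

/-- **From trees to raw strings**, for any finite alphabet whose letters are coded by numbers. -/
theorem Poly.rawOfNat [Fintype A] [Inhabited A] (cd : A → ℕ) (hcd : ∀ a, cd a ≤ N)
    (hdec : ∀ a, dec (cd a) = a) :
    Poly (fun w : List A => en (w.map cd)) (fun w : List A => w) (fun w => w) := by
  have h := Poly.transduce (dstep N) (dout N dec) none
  exact h.restrict (fun w : List A => en (w.map cd)) (fun _ => rfl)
    (fun w => transd_list N dec cd hcd hdec w)

end decode

/-! ### Functions on finite types -/

/-- Any function on a finite type whose elements are coded by (injective) trees. -/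
theorem PF.ofFinite {α β : Type} [ToD α] [ToD β] [Finite α] (cd : α → ℕ)
    (hcd : Function.Injective cd) (hto : ∀ a : α, toD a = toD (cd a)) (f : α → β) (b0 : β) :
    PF f := by
  have key : ∀ l : List α, ∃ g : α → β, PF g ∧ ∀ a ∈ l, g a = f a := by
    intro l
    induction l with
    | nil => exact ⟨fun _ => b0, PF.const b0, by simp⟩
    | cons a l ih =>
      obtain ⟨g, hg, hl⟩ := ih
      have hc : PF (fun x : α => cd x) := PF.ident (fun x => (hto x).symm)
      refine ⟨fun x => if decide (cd x = cd a) then f a else g x,
        (hc.natEq (PF.const (cd a))).ite (PF.const (f a)) hg, ?_⟩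
      intro x hx
      by_cases h : cd x = cd a
      · simp [h, hcd h]
      · have hxl : x ∈ l := by
          rcases List.mem_cons.1 hx with rfl | hx
          · exact absurd rfl h
          · exact hx
        simp [h, hl x hxl]
  have := Fintype.ofFinite α
  obtain ⟨g, hg, hl⟩ := key (Finset.univ : Finset α).toList
  have : g = f := funext fun a => hl a (by simp)
  exact this ▸ hg

end Pool.Agent.PolyTime
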