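import Pool.Agent.PolyTime.Trans

set_option autoImplicit false
set_option linter.unusedSectionVars false
set_option linter.unusedSimpArgs false

namespace Pool.Agent.PolyTime

open Turing Function

/-- Types represented by trees. -/
class ToD (α : Type) where
  toD : α → D

export ToD (toD)

instance : ToD D := ⟨id⟩
instance : ToD Bool := ⟨D.ofBool⟩
instance : ToD Unit := ⟨fun _ => .nil⟩
instance : ToD ℕ := ⟨fun n => D.ofList (List.replicate n .nil)⟩
instance {α β : Type} [ToD α] [ToD β] : ToD (α × β) := ⟨fun p => .cons (toD p.1) (toD p.2)⟩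
instance {α : Type} [ToD α] : ToD (List α) := ⟨fun l => D.ofList (l.map toD)⟩
instance {α : Type} [ToD α] (p : α → Prop) : ToD {x : α // p x} := ⟨fun x => toD x.1⟩

/-- the encoding -/
def en {α : Type} [ToD α] (a : α) : List Bool := (toD a).enc

/-- the size -/
def sz {α : Type} [ToD α] (a : α) : ℕ := (en a).length

/-- polynomial time functions between types represented by trees -/
def PF {α β : Type} [ToD α] [ToD β] (f : α → β) : Prop := Poly en en f

/-- polynomial time tests -/
def PB {α : Type} [ToD α] (p : α → Bool) : Prop := Poly en Computability.encodeBool p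

section basics

variable {α β γ : Type} [ToD α] [ToD β] [ToD γ]

@[simp] theorem toD_pair (a : α) (b : β) : toD (a, b) = .cons (toD a) (toD b) := rfl
@[simp] theorem toD_nil : toD ([] : List α) = .nil := rfl
@[simp] theorem toD_cons (a : α) (l : List α) : toD (a :: l) = .cons (toD a) (toD l) := rfl
@[simp] theorem toD_false : toD false = .nil := rfl
@[simp] theorem toD_true : toD true = .cons .nil .nil := rfl
@[simp] theorem toD_zero : toD (0 : ℕ) = .nil := rfl
@[simp] theorem toD_succ (n : ℕ) : toD (n + 1) = .cons .nil (toD n) := rfl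
@[simp] theorem toD_unit : toD () = .nil := rfl
@[simp] theorem toD_sub {p : α → Prop} (x : {x : α // p x}) : toD x = toD x.1 := rfl

theorem sz_pos (a : α) : 1 ≤ sz a := enc_pos _

@[simp] theorem sz_pair (a : α) (b : β) : sz (a, b) = sz a + sz b + 1 := by
  simp [sz, en, D.enc]

@[simp] theorem sz_nil : sz ([] : List α) = 1 := rfl

@[simp] theorem sz_cons (a : α) (l : List α) : sz (a :: l) = sz a + sz l + 1 := by
  simp [sz, en, D.enc]

@[simp] theorem sz_false : sz false = 1 := rfl
@[simp] theorem sz_true : sz true = 3 := rfl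
@[simp] theorem sz_unit : sz () = 1 := rfl
theorem sz_bool (b : Bool) : sz b ≤ 3 := by cases b <;> decide

@[simp] theorem sz_nat (n : ℕ) : sz n = 2 * n + 1 := by
  induction n with
  | zero => rfl
  | succ n ih =>
    have : sz (n + 1) = sz n + 2 := by
      simp [sz, en, D.enc]
    omega

theorem length_le_sz (l : List α) : l.length ≤ sz l := by
  induction l with
  | nil => simp
  | cons a l ih => simp only [List.length_cons, sz_cons]; omega

theorem sz_take (l : List α) (i : ℕ) : sz (l.take i) ≤ sz l := by
  induction l generalizing i with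
  | nil => simp
  | cons a l ih =>
    cases i with
    | zero => simp
    | succ i => simp only [List.take_succ_cons, sz_cons]; have := ih i; omega

theorem sz_drop (l : List α) (i : ℕ) : sz (l.drop i) ≤ sz l := by
  induction l generalizing i with
  | nil => simp
  | cons a l ih =>
    cases i with
    | zero => simp
    | succ i => simp only [List.drop_succ_cons, sz_cons]; have := ih i; omega

theorem sz_mem {l : List α} {a : α} (h : a ∈ l) : sz a < sz l := by
  induction l with
  | nil => simp at h
  | cons b l ih =>
    rw [sz_cons]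
    rcases List.mem_cons.1 h with rfl | h
    · omega
    · have := ih h
      omega

theorem PF.bound {f : α → β} (h : PF f) : ∃ P : Polynomial ℕ, ∀ a, sz (f a) ≤ P.eval (sz a) :=
  h.length_bound

theorem PF.ident {f : α → β} (h : ∀ a, toD (f a) = toD a) : PF f :=
  Poly.ident _ _ _ (fun a => by simp [en, h])

theorem PF.id' : PF (fun a : α => a) := PF.ident (fun _ => rfl)

theorem PF.comp {f : α → β} {g : β → γ} (hg : PF g) (hf : PF f) : PF (fun a => g (f a)) :=
  Poly.comp hf hg

theorem PF.const (b : β) : PF (fun _ : α => b) := Poly.const _ _ b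

theorem PF.pair {f : α → β} {g : α → γ} (hf : PF f) (hg : PF g) : PF (fun a => (f a, g a)) := by
  have := Poly.pair hf hg
  refine this.restrict id (fun _ => rfl) (fun a => ?_)
  simp [en, D.enc]

theorem PF.fst' : PF (fun p : α × β => p.1) :=
  Poly.hd.restrict (fun p : α × β => toD p) (fun _ => rfl) (fun _ => rfl)

theorem PF.snd' : PF (fun p : α × β => p.2) :=
  Poly.tl.restrict (fun p : α × β => toD p) (fun _ => rfl) (fun _ => rfl)

theorem PF.fst {f : γ → α × β} (hf : PF f) : PF (fun c => (f c).1) := PF.fst'.comp hf

theorem PF.snd {f : γ → α × β} (hf : PF f) : PF (fun c => (f c).2) := PF.snd'.comp hf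

/-- change the (equal) representation of the output -/
theorem PF.cast {f : α → β} {g : α → γ} (hf : PF f) (h : ∀ a, toD (g a) = toD (f a)) : PF g :=
  Poly.restrict hf id (fun _ => rfl) (fun a => by simp [en, h])

/-- change the domain -/
theorem PF.dom {f : α → β} {g : γ → β} (hf : PF f) (i : γ → α) (h : ∀ c, toD (i c) = toD c)
    (hg : ∀ c, g c = f (i c)) : PF g :=
  Poly.restrict hf i (fun c => by simp [en, h]) (fun c => by rw [hg])

theorem PF.cons {f : γ → α} {g : γ → List α} (hf : PF f) (hg : PF g) :
    PF (fun c => f c :: g c) := (hf.pair hg).cast (fun _ => rfl)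

theorem PF.tail {g : γ → List α} (hg : PF g) : PF (fun c => (g c).tail) := by
  have h : PF (fun l : List α => l.tail) :=
    Poly.tl.restrict (fun l : List α => toD l) (fun _ => rfl) (fun l => by
      cases l <;> rfl)
  exact h.comp hg

theorem PF.succ {f : γ → ℕ} (hf : PF f) : PF (fun c => f c + 1) :=
  ((PF.const ()).pair hf).cast (fun _ => rfl)

theorem PF.pred {f : γ → ℕ} (hf : PF f) : PF (fun c => f c - 1) := by
  have h : PF (fun n : ℕ => n - 1) :=
    Poly.tl.restrict (fun n : ℕ => toD n) (fun _ => rfl) (fun n => by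
      cases n <;> rfl)
  exact h.comp hf

theorem PB.comp {p : β → Bool} {f : α → β} (hp : PB p) (hf : PF f) : PB (fun a => p (f a)) :=
  Poly.comp hf hp

theorem PF.toPB {p : α → Bool} (hp : PF p) : PB p := by
  have h : Poly (en (α := Bool)) Computability.encodeBool (id : Bool → Bool) :=
    Poly.isCons.restrict (fun b : Bool => toD b) (fun _ => rfl) (fun b => by
      cases b <;> rfl)
  exact Poly.comp (f := p) (g := id) hp h

theorem PB.ite' {p : α → Bool} {f g : α → β} (hp : PB p) (hf : PF f) (hg : PF g) :
    PF (fun a => if p a then f a else g a) := Poly.ite hp hf hg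

theorem PB.toPF {p : α → Bool} (hp : PB p) : PF p := by
  have := hp.ite' (PF.const true) (PF.const false)
  refine this.cast (fun a => ?_)
  cases h : p a <;> simp

theorem PF.ite {p : α → Bool} {f g : α → β} (hp : PF p) (hf : PF f) (hg : PF g) :
    PF (fun a => if p a then f a else g a) := hp.toPB.ite' hf hg

theorem PF.cond {p : α → Bool} {f g : α → β} (hp : PF p) (hf : PF f) (hg : PF g) :
    PF (fun a => cond (p a) (f a) (g a)) := by
  have := hp.ite hf hg
  refine this.cast (fun a => ?_)
  cases h : p a <;> simp

theorem PF.not {p : α → Bool} (hp : PF p) : PF (fun a => !p a) := by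
  refine (hp.ite (PF.const false) (PF.const true)).cast (fun a => ?_)
  cases h : p a <;> simp

theorem PF.and {p q : α → Bool} (hp : PF p) (hq : PF q) : PF (fun a => p a && q a) := by
  refine (hp.ite hq (PF.const false)).cast (fun a => ?_)
  cases h : p a <;> simp

theorem PF.or {p q : α → Bool} (hp : PF p) (hq : PF q) : PF (fun a => p a || q a) := by
  refine (hp.ite (PF.const true) hq).cast (fun a => ?_)
  cases h : p a <;> simp

/-- nonempty list test -/
theorem PF.isCons {g : γ → List α} (hg : PF g) : PF (fun c => !(g c).isEmpty) := by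
  have h : PB (fun l : List α => !l.isEmpty) :=
    Poly.isCons.restrict (fun l : List α => toD l) (fun _ => rfl) (fun l => by
      cases l <;> rfl)
  exact (h.comp hg).toPF

theorem PF.isPos {f : γ → ℕ} (hf : PF f) : PF (fun c => decide (0 < f c)) := by
  have h : PB (fun n : ℕ => decide (0 < n)) :=
    Poly.isCons.restrict (fun n : ℕ => toD n) (fun _ => rfl) (fun n => by
      cases n <;> rfl)
  exact (h.comp hf).toPF

end basics

/-- **Case distinction** where the branches are only defined on their domain. -/
theorem Poly.dite {α β : Type} {ea : α → List Bool} {eb : β → List Bool} {p : α → Bool}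
    {h : α → β} {f : {a : α // p a = true} → β} {g : {a : α // p a = false} → β}
    (hp : Poly ea Computability.encodeBool p)
    (hf : Poly (fun x : {a : α // p a = true} => ea x.1) eb f)
    (hg : Poly (fun x : {a : α // p a = false} => ea x.1) eb g)
    (h1 : ∀ a (ha : p a = true), h a = f ⟨a, ha⟩)
    (h2 : ∀ a (ha : p a = false), h a = g ⟨a, ha⟩) :
    Poly ea eb h := by
  obtain ⟨P1, hP1⟩ := hf.length_bound
  obtain ⟨P2, hP2⟩ := hg.length_bound
  obtain ⟨hp⟩ := hp
  obtain ⟨hf⟩ := hf
  obtain ⟨hg⟩ := hg
  let tm := tm3 hp.tm hf.tm hg.tm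
  let prog : Cmd tm BΓ (Reg BΓ) :=
    .seq (mv2 .a .b .c id id)
      (.seq (.call 0 .b .d hp.inputAlphabet.symm hp.outputAlphabet)
      (.seq (popR .d)
      (.seq (.ite (fun q => (q .d).getD false)
        (.call 1 .c .d hf.inputAlphabet.symm hf.outputAlphabet)
        (.call 2 .c .d hg.inputAlphabet.symm hg.outputAlphabet)) (mv .d .e id))))
  let timeP : Polynomial ℕ := (4 * Polynomial.X + 2) + ((hp.time + Polynomial.X + 1 + 2) +
    (1 + ((hf.time + hg.time + Polynomial.X + P1 + P2 + 2 + 1) + (3 * (P1 + P2) + 2))))
  refine Poly.ofDoes5 prog timeP ?_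
  intro x
  have s1 := mv2_does (tm := tm) (Γ := BΓ) (a := K5.a) (b := K5.b) (c := K5.c) (by decide)
    (by decide) (by decide) id id (st (ea x) [] [] [] [])
  have s2 := call_does (tm := tm) (Γ := BΓ) (Q := Reg BΓ) (i := 0) (kin := K5.b)
      (kout := K5.d) (fin := hp.inputAlphabet.symm) (fout := hp.outputAlphabet)
      (N := hp.time.eval (ea x).length) (S := st [] (ea x).reverse (ea x).reverse [] [])
      (ea x) (Computability.encodeBool (p x)) rfl (call5 hp x)
  simp only [st_a, st_b, st_c, st_d, st_e, upd_a, upd_b, upd_c, upd_d, upd_e, List.map_id,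
    List.append_nil, List.reverse_singleton, List.length_append, List.length_reverse,
    List.length_singleton, List.reverse_append, List.reverse_reverse,
    List.singleton_append, Computability.encodeBool, List.pure_def] at s1 s2
  have s3 : Does (.seq (popR .d)
      (.seq (.ite (fun q => (q .d).getD false)
        (.call 1 .c .d hf.inputAlphabet.symm hf.outputAlphabet)
        (.call 2 .c .d hg.inputAlphabet.symm hg.outputAlphabet)) (mv .d .e id)) :
        Cmd tm BΓ (Reg BΓ)) (1 + ((hf.time.eval (ea x).length + hg.time.eval (ea x).length +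
          (ea x).length + P1.eval (ea x).length + P2.eval (ea x).length + 2 + 1) +
            (3 * (P1.eval (ea x).length + P2.eval (ea x).length) + 2)))
        (st [] [] (ea x).reverse [p x] []) (st [] [] [] [] (eb (h x))) := by
    intro q
    have t1 := popR_run (tm := tm) (Γ := BΓ) K5.d q (st [] [] (ea x).reverse [p x] [])
    simp only [st_d, List.head?_cons, List.tail_cons, upd_d] at t1
    cases hpx : p x with
    | true =>
      rw [hpx] at t1
      rw [h1 x hpx]
      obtain ⟨q', t2⟩ := call_does (tm := tm) (Γ := BΓ) (Q := Reg BΓ) (i := 1) (kin := K5.c)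
        (kout := K5.d) (fin := hf.inputAlphabet.symm) (fout := hf.outputAlphabet)
        (N := hf.time.eval (ea x).length) (S := st [] [] (ea x).reverse [] [])
        (ea x) (eb (f ⟨x, hpx⟩)) rfl (call5 hf ⟨x, hpx⟩) (update q .d (some true))
      obtain ⟨q'', t3⟩ := mv_does (tm := tm) (Γ := BΓ) (a := K5.d) (b := K5.e) (by decide) id
        (st [] [] [] (eb (f ⟨x, hpx⟩)).reverse []) q'
      have t4 : RunsIn (.ite (fun q => (q .d).getD false)
        (.call 1 .c .d hf.inputAlphabet.symm hf.outputAlphabet)
        (.call 2 .c .d hg.inputAlphabet.symm hg.outputAlphabet) : Cmd tm BΓ (Reg BΓ)) _ _ _ _ _ :=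
        RunsIn.ite_true (by simp) t2
      simp only [st_a, st_b, st_c, st_d, st_e, upd_a, upd_b, upd_c, upd_d, upd_e, List.map_id,
        List.append_nil, List.length_reverse, List.reverse_reverse] at t3 t4
      refine ⟨q'', (t1.seq (t4.seq t3)).mono ?_⟩
      have b1 := hP1 ⟨x, hpx⟩
      simp only at b1
      omega
    | false =>
      rw [hpx] at t1
      rw [h2 x hpx]
      obtain ⟨q', t2⟩ := call_does (tm := tm) (Γ := BΓ) (Q := Reg BΓ) (i := 2) (kin := K5.c)
        (kout := K5.d) (fin := hg.inputAlphabet.symm) (fout := hg.outputAlphabet)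
        (N := hg.time.eval (ea x).length) (S := st [] [] (ea x).reverse [] [])
        (ea x) (eb (g ⟨x, hpx⟩)) rfl (call5 hg ⟨x, hpx⟩) (update q .d (some false))
      obtain ⟨q'', t3⟩ := mv_does (tm := tm) (Γ := BΓ) (a := K5.d) (b := K5.e) (by decide) id
        (st [] [] [] (eb (g ⟨x, hpx⟩)).reverse []) q'
      have t4 : RunsIn (.ite (fun q => (q .d).getD false)
        (.call 1 .c .d hf.inputAlphabet.symm hf.outputAlphabet)
        (.call 2 .c .d hg.inputAlphabet.symm hg.outputAlphabet) : Cmd tm BΓ (Reg BΓ)) _ _ _ _ _ :=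
        RunsIn.ite_false (by simp) t2
      simp only [st_a, st_b, st_c, st_d, st_e, upd_a, upd_b, upd_c, upd_d, upd_e, List.map_id,
        List.append_nil, List.length_reverse, List.reverse_reverse] at t3 t4
      refine ⟨q'', (t1.seq (t4.seq t3)).mono ?_⟩
      have b1 := hP2 ⟨x, hpx⟩
      simp only at b1
      omega
  refine ((s1.seq (s2.seq s3)).mono ?_).to rfl
  simp only [timeP, Polynomial.eval_add, Polynomial.eval_mul, Polynomial.eval_X,
    Polynomial.eval_ofNat, Polynomial.eval_one]
  omega

section

variable {α β γ δ : Type} [ToD α] [ToD β] [ToD γ] [ToD δ]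

/-- case distinction on a list -/
theorem PF.listCases {g : γ → List α} {h1 : γ → β} {h2 : γ × (α × List α) → β} {h : γ → β}
    (hg : PF g) (h1p : PF h1) (h2p : PF h2) (e1 : ∀ c, g c = [] → h c = h1 c)
    (e2 : ∀ c a l, g c = a :: l → h c = h2 (c, (a, l))) : PF h := by
  let p : γ → Bool := fun c => !(g c).isEmpty
  have hp : PB p := hg.isCons.toPB
  have hne : ∀ x : {c : γ // p c = true}, g x.1 ≠ [] := by
    rintro ⟨c, hc⟩ h
    simp only at h
    simp [p, h] at hc
  let k : {c : γ // p c = true} → γ × (α × List α) := fun x =>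
    (x.1, ((g x.1).head (hne x), (g x.1).tail))
  have hk : PF k := by
    have t1 : PF (fun x : {c : γ // p c = true} => x.1) := PF.ident (fun _ => rfl)
    have t2 : PF (fun x : {c : γ // p c = true} => g x.1) := hg.comp t1
    refine (t1.pair t2).cast (fun x => ?_)
    simp only [k, toD_pair]
    congr 1
    conv_rhs => rw [← List.cons_head_tail (hne x)]
    rfl
  have hf : Poly (fun x : {c : γ // p c = true} => en x.1) en (fun x => h2 (k x)) :=
    h2p.comp hk
  have hg' : Poly (fun x : {c : γ // p c = false} => en x.1) en (fun x => h1 x.1) := by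
    have t1 : PF (fun x : {c : γ // p c = false} => x.1) := PF.ident (fun _ => rfl)
    exact h1p.comp t1
  refine Poly.dite hp hf hg' ?_ ?_
  · intro c hc
    have := e2 c ((g c).head (hne ⟨c, hc⟩)) (g c).tail (List.cons_head_tail (hne ⟨c, hc⟩)).symm
    exact this
  · intro c hc
    apply e1
    simpa [p] using hc

theorem sz_eq_en (a : α) : (en a).length = sz a := rfl

theorem PF.while {p : α → Bool} {f G : α → α} (hp : PF p) (hf : PF f) (N P : Polynomial ℕ)
    (h : ∀ x, ∃ n ≤ N.eval (sz x), (∀ i < n, p (f^[i] x) = true) ∧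
      p (f^[n] x) = false ∧ G x = f^[n] x ∧ ∀ i ≤ n, sz (f^[i] x) ≤ P.eval (sz x)) : PF G :=
  Poly.while hp.toPB hf N P h

/-- **Folding over a list** with an environment. -/
theorem PF.foldl {f : γ → β → α → β} {b : γ → β} {l : γ → List α}
    (hf : PF (fun x : (γ × β) × α => f x.1.1 x.1.2 x.2)) (hb : PF b) (hl : PF l)
    (P : Polynomial ℕ) (hP : ∀ c i, sz (((l c).take i).foldl (f c) (b c)) ≤ P.eval (sz c)) :
    PF (fun c => (l c).foldl (f c) (b c)) := by
  obtain ⟨Q, hQ⟩ := hl.bound
  -- reachable states
  let R : (γ × β) × List α → Prop := fun x =>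
    ∃ i, x.1.2 = ((l x.1.1).take i).foldl (f x.1.1) (b x.1.1) ∧ x.2 = (l x.1.1).drop i
  let step0 : (γ × β) × List α → (γ × β) × List α := fun x =>
    ((x.1.1, match x.2 with
      | [] => x.1.2
      | a :: _ => f x.1.1 x.1.2 a), x.2.tail)
  have hR : ∀ x, R x → R (step0 x) := by
    rintro ⟨⟨c, b'⟩, l'⟩ ⟨i, h1, h2⟩
    simp only at h1 h2
    refine ⟨i + 1, ?_, ?_⟩
    · simp only [step0]
      rw [h2]
      cases hd : (l c).drop i with
      | nil =>
        simp only
        rw [h1]
        have : (l c).length ≤ i := List.drop_eq_nil_iff.1 hd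
        rw [List.take_of_length_le this, List.take_of_length_le (by omega)]
      | cons a r =>
        simp only
        have hi : i < (l c).length := by
          by_contra hcon
          rw [List.drop_eq_nil_iff.2 (by omega)] at hd
          cases hd
        have hget : (l c)[i] = a := by
          have := List.drop_eq_getElem_cons hi
          rw [hd] at this
          simp only [List.cons.injEq] at this
          exact this.1.symm
        rw [List.take_succ_eq_append_getElem hi, List.foldl_append, hget, h1]
        rfl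
    · simp only [step0]
      rw [h2, List.tail_drop]
  let step : {x // R x} → {x // R x} := fun x => ⟨step0 x.1, hR x.1 x.2⟩
  have hstep : PF step := by
    have h0 : PF step0 := by
      refine PF.pair (PF.pair PF.id'.fst.fst ?_) PF.id'.snd.tail
      refine PF.listCases (g := fun x : (γ × β) × List α => x.2) (h1 := fun x => x.1.2)
        (h2 := fun y => f y.1.1.1 y.1.1.2 y.2.1) PF.snd' PF.id'.fst.snd ?_ ?_ ?_
      · exact hf.comp ((PF.id'.fst.fst).pair (PF.id'.snd.fst))
      · intro c hc
        simp only [hc]
      · intro c a l hc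
        simp only [hc]
    have h1 : PF (fun x : {x // R x} => x.1) := PF.ident (fun _ => rfl)
    exact (h0.comp h1).cast (fun _ => rfl)
  have hcond : PF (fun x : {x // R x} => !(x.1.2).isEmpty) := by
    have h1 : PF (fun x : {x // R x} => x.1) := PF.ident (fun _ => rfl)
    exact h1.snd.isCons
  have hiter : ∀ (x : {x // R x}) (i : ℕ), (step^[i] x).1 =
      ((x.1.1.1, ((x.1.2).take i).foldl (f x.1.1.1) x.1.1.2), (x.1.2).drop i) := by
    intro x i
    induction i generalizing x with
    | zero => simp
    | succ i ih =>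
      rw [iterate_succ_apply, ih]
      obtain ⟨⟨⟨c, b'⟩, l'⟩, hx⟩ := x
      cases l' with
      | nil => simp [step, step0]
      | cons a l' => simp [step, step0]
  let G : {x // R x} → {x // R x} := fun x => step^[(x.1.2).length] x
  have hG : PF G := by
    refine PF.while hcond hstep Polynomial.X (P + 2 * Polynomial.X + Q + 2) ?_
    intro x
    refine ⟨(x.1.2).length, ?_, ?_, ?_, rfl, ?_⟩
    · rw [Polynomial.eval_X]
      have h1 := length_le_sz x.1.2
      have h2 : sz x = sz x.1 := rfl
      rw [h2]
      have h3 : sz x.1 = sz x.1.1 + sz x.1.2 + 1 := sz_pair _ _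
      omega
    · intro i hi
      rw [hiter]
      simp only [Bool.not_eq_true', List.isEmpty_eq_false_iff, ne_eq, List.drop_eq_nil_iff,
        not_le]
      exact hi
    · rw [hiter]
      simp
    · intro i hi
      have h2 : sz (step^[i] x) = sz (step^[i] x).1 := rfl
      rw [h2, hiter]
      obtain ⟨⟨⟨c, b'⟩, l'⟩, hx⟩ := x
      obtain ⟨j, hj1, hj2⟩ := id hx
      simp only at hj1 hj2 hi ⊢
      have h3 : sz (⟨((c, b'), l'), hx⟩ : {x // R x}) = sz c + sz b' + 1 + sz l' + 1 := by
        have : sz (⟨((c, b'), l'), hx⟩ : {x // R x}) = sz ((c, b'), l') := rfl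
        rw [this, sz_pair, sz_pair]
      have h4 : ((l' ).take i).foldl (f c) b' = ((l c).take (j + i)).foldl (f c) (b c) := by
        rw [hj1, hj2, List.take_add, List.foldl_append]
      rw [h4, sz_pair, sz_pair, h3]
      have h5 := hP c (j + i)
      have h6 := sz_drop l' i
      simp only [Polynomial.eval_add, Polynomial.eval_mul, Polynomial.eval_X,
        Polynomial.eval_ofNat]
      have h7 : P.eval (sz c) ≤ P.eval (sz c + sz b' + 1 + sz l' + 1) := eval_mono P (by omega)
      omega
  let init : γ → {x // R x} := fun c => ⟨((c, b c), l c), 0, by simp, by simp⟩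
  have hinit : PF init := ((PF.id'.pair hb).pair hl).cast (fun _ => rfl)
  have hfin : PF (fun c => (G (init c)).1.1.2) := by
    have h1 : PF (fun x : {x // R x} => x.1) := PF.ident (fun _ => rfl)
    exact (h1.fst.snd).comp (hG.comp hinit)
  refine hfin.cast (fun c => ?_)
  simp only [G, hiter, init]
  simp

end

end Pool.Agent.PolyTime
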