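import Pool.Agent.PolyTime.Clos

set_option autoImplicit false
set_option linter.unusedSectionVars false
set_option linter.unusedSimpArgs false

namespace Pool.Agent.PolyTime

open Turing Function

section

variable {α : Type} {ea : α → List Bool} {p : α → Bool} {f : α → α}
  (hp : TM2ComputableInPolyTime ea Computability.encodeBool p)
  (hf : TM2ComputableInPolyTime ea ea f)

/-- test the condition, keeping a reversed copy on `c` -/
def wTest : Cmd (tm2 hp.tm hf.tm) BΓ (Reg BΓ) :=
  .seq (mv2 .a .b .c id id)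
    (.seq (.call false .b .d hp.inputAlphabet.symm hp.outputAlphabet) (popR .d))

theorem wTest_run (x : α) (L : ℕ) (hL : (ea x).length ≤ L) (q : Reg BΓ) :
    ∃ q', q' .d = some (p x) ∧ RunsIn (wTest hp hf)
      ((4 * L + 2) + ((hp.time.eval L + L + 1 + 2) + 1)) q
      (st (ea x) [] [] [] []) q' (st [] [] (ea x).reverse [] []) := by
  obtain ⟨q1, s1⟩ := mv2_does (tm := tm2 hp.tm hf.tm) (Γ := BΓ) (a := K5.a) (b := K5.b)
    (c := K5.c) (by decide) (by decide) (by decide) id id (st (ea x) [] [] [] []) q
  obtain ⟨q2, s2⟩ := call_does (tm := tm2 hp.tm hf.tm) (Γ := BΓ) (Q := Reg BΓ) (i := false)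
      (kin := K5.b)
      (kout := K5.d) (fin := hp.inputAlphabet.symm) (fout := hp.outputAlphabet)
      (N := hp.time.eval (ea x).length) (S := st [] (ea x).reverse (ea x).reverse [] [])
      (ea x) (Computability.encodeBool (p x)) rfl (call5 hp x) q1
  have s3 := popR_run (tm := tm2 hp.tm hf.tm) (Γ := BΓ) K5.d q2
    (st [] [] (ea x).reverse [p x] [])
  simp only [st_a, st_b, st_c, st_d, st_e, upd_a, upd_b, upd_c, upd_d, upd_e, List.map_id,
    List.append_nil, List.reverse_singleton, List.length_append, List.length_reverse,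
    List.length_singleton, List.reverse_append, List.reverse_reverse,
    List.singleton_append, Computability.encodeBool, List.pure_def, List.head?_cons,
    List.tail_cons] at s1 s2 s3
  refine ⟨_, ?_, (s1.seq (s2.seq s3)).mono ?_⟩
  · simp
  · have := eval_mono hp.time hL
    omega

/-- The while loop. -/
def wLoop : Cmd (tm2 hp.tm hf.tm) BΓ (Reg BΓ) :=
  .loop (fun q => (q .d).getD false)
    (.seq (.call true .c .b hf.inputAlphabet.symm hf.outputAlphabet)
      (.seq (mv .b .a id) (wTest hp hf)))

theorem wLoop_run (L : ℕ) (n : ℕ) (x : α) (h1 : ∀ i < n, p (f^[i] x) = true)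
    (h2 : p (f^[n] x) = false) (h3 : ∀ i ≤ n, (ea (f^[i] x)).length ≤ L) (q : Reg BΓ)
    (hq : q .d = some (p x)) :
    ∃ q', RunsIn (wLoop hp hf)
      (n * ((hf.time.eval L + L + L + 2) + ((3 * L + 2) +
        ((4 * L + 2) + ((hp.time.eval L + L + 1 + 2) + 1))) + 1) + 1) q
      (st [] [] (ea x).reverse [] []) q' (st [] [] (ea (f^[n] x)).reverse [] []) := by
  induction n generalizing x q with
  | zero =>
    simp only [iterate_zero, id_eq] at h2
    refine ⟨q, (RunsIn.loop_false ?_).mono (by omega)⟩
    rw [hq, h2]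
    rfl
  | succ n ih =>
    have hx := h1 0 (by omega)
    simp only [iterate_zero, id_eq] at hx
    have l0 : (ea x).length ≤ L := h3 0 (by omega)
    have l1 : (ea (f x)).length ≤ L := h3 1 (by omega)
    obtain ⟨q1, s1⟩ := call_does (tm := tm2 hp.tm hf.tm) (Γ := BΓ) (Q := Reg BΓ) (i := true)
      (kin := K5.c)
      (kout := K5.b) (fin := hf.inputAlphabet.symm) (fout := hf.outputAlphabet)
      (N := hf.time.eval (ea x).length) (S := st [] [] (ea x).reverse [] [])
      (ea x) (ea (f x)) rfl (call5 hf x) q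
    obtain ⟨q2, s2⟩ := mv_does (tm := tm2 hp.tm hf.tm) (Γ := BΓ) (a := K5.b) (b := K5.a)
      (by decide) id (st [] (ea (f x)).reverse [] [] []) q1
    obtain ⟨q3, hq3, s3⟩ := wTest_run hp hf (f x) L l1 q2
    obtain ⟨q4, s4⟩ := ih (f x) (fun i hi => by
        have := h1 (i + 1) (by omega)
        rwa [iterate_succ_apply] at this) (by rwa [iterate_succ_apply] at h2)
        (fun i hi => by
          have := h3 (i + 1) (by omega)
          rwa [iterate_succ_apply] at this) q3 hq3
    simp only [st_a, st_b, st_c, st_d, st_e, upd_a, upd_b, upd_c, upd_d, upd_e, List.map_id,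
      List.append_nil, List.reverse_singleton, List.length_append, List.length_reverse,
      List.length_singleton, List.reverse_append, List.reverse_reverse] at s1 s2
    refine ⟨q4, ?_⟩
    rw [iterate_succ_apply]
    have hcond : (q .d).getD false = true := by
      rw [hq, hx]
      rfl
    refine (RunsIn.loop_true (p := fun q : Reg BΓ => (q .d).getD false) hcond
      (s1.seq (s2.seq s3)) s4).mono ?_
    have := eval_mono hf.time l0
    have e1 : (n + 1) * (hf.time.eval L + L + L + 2 + (3 * L + 2 +
        (4 * L + 2 + (hp.time.eval L + L + 1 + 2 + 1))) + 1) =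
        n * (hf.time.eval L + L + L + 2 + (3 * L + 2 +
        (4 * L + 2 + (hp.time.eval L + L + 1 + 2 + 1))) + 1) + (hf.time.eval L + L + L + 2 +
          (3 * L + 2 + (4 * L + 2 + (hp.time.eval L + L + 1 + 2 + 1))) + 1) := by ring
    rw [e1]
    omega

end

/-- **While loops** with a polynomial bound on the number of iterations and on the lengths. -/
theorem Poly.while {α : Type} {ea : α → List Bool} {p : α → Bool} {f G : α → α}
    (hp : Poly ea Computability.encodeBool p) (hf : Poly ea ea f) (N P : Polynomial ℕ)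
    (h : ∀ x, ∃ n ≤ N.eval (ea x).length, (∀ i < n, p (f^[i] x) = true) ∧
      p (f^[n] x) = false ∧ G x = f^[n] x ∧
      ∀ i ≤ n, (ea (f^[i] x)).length ≤ P.eval (ea x).length) : Poly ea ea G := by
  obtain ⟨hp⟩ := hp
  obtain ⟨hf⟩ := hf
  let prog : Cmd (tm2 hp.tm hf.tm) BΓ (Reg BΓ) :=
    .seq (wTest hp hf) (.seq (wLoop hp hf) (mv .c .e id))
  let timeP : Polynomial ℕ := ((4 * P + 2) + ((hp.time.comp P + P + 1 + 2) + 1)) +
    ((N * ((hf.time.comp P + P + P + 2) + ((3 * P + 2) +
        ((4 * P + 2) + ((hp.time.comp P + P + 1 + 2) + 1))) + 1) + 1) + (3 * P + 2))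
  refine Poly.ofDoes5 prog timeP ?_
  intro x q
  obtain ⟨n, hn, h1, h2, h3, h4⟩ := h x
  set L := P.eval (ea x).length with hL
  have l0 : (ea x).length ≤ L := h4 0 (by omega)
  obtain ⟨q1, hq1, s1⟩ := wTest_run hp hf x L l0 q
  obtain ⟨q2, s2⟩ := wLoop_run hp hf L n x h1 h2 h4 q1 hq1
  obtain ⟨q3, s3⟩ := mv_does (tm := tm2 hp.tm hf.tm) (Γ := BΓ) (a := K5.c) (b := K5.e)
      (by decide) id (st [] [] (ea (f^[n] x)).reverse [] []) q2
  simp only [st_a, st_b, st_c, st_d, st_e, upd_a, upd_b, upd_c, upd_d, upd_e, List.map_id,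
      List.append_nil, List.reverse_singleton, List.length_append, List.length_reverse,
      List.length_singleton, List.reverse_append, List.reverse_reverse] at s3
  rw [h3]
  refine ⟨q3, (s1.seq (s2.seq s3)).mono ?_⟩
  have l1 : (ea (f^[n] x)).length ≤ L := h4 n le_rfl
  simp only [timeP, Polynomial.eval_add, Polynomial.eval_mul, Polynomial.eval_X,
    Polynomial.eval_ofNat, Polynomial.eval_one, Polynomial.eval_comp, ← hL]
  have := Nat.mul_le_mul_right (hf.time.eval L + L + L + 2 + (3 * L + 2 +
        (4 * L + 2 + (hp.time.eval L + L + 1 + 2 + 1))) + 1) hn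
  omega

end Pool.Agent.PolyTime
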